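import Pool.Agent.Lib.MP_17a322_nt.ABN.N0
import Pool.Agent.Lib.MP_17a322_nt.JAC.S1a

universe u

namespace Pool.Agent.Lib.MP_17a322_nt.FL

open Pool.Agent.Lib.MP_17a322_nt.ABN

section

variable {K L : Type u} [Field K] [CharZero K] [Field L] [Algebra K L] {α : Type*}

open scoped IntermediateField.algebraAdjoinAdjoin in
/-- The field is formally etale over the ring generated by a transcendence basis. -/
private theorem O2_etale {y : α → L} (hb : IsTranscendenceBasis K y) :
    Algebra.FormallyEtale (Algebra.adjoin K (Set.range y)) L := by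
  have h0 : CharZero (IntermediateField.adjoin K (Set.range y)) :=
    charZero_of_injective_algebraMap
      (algebraMap K (IntermediateField.adjoin K (Set.range y))).injective
  have h1 : Algebra.FormallyEtale (Algebra.adjoin K (Set.range y))
      (IntermediateField.adjoin K (Set.range y)) :=
    .of_isLocalization (nonZeroDivisors _)
  have h2 := hb.isAlgebraic_field
  have h3 : Algebra.FormallyEtale (IntermediateField.adjoin K (Set.range y)) L :=
    Algebra.FormallyEtale.of_isSeparable _ L
  exact .comp _ (IntermediateField.adjoin K (Set.range y)) _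

/-- Derivations with prescribed values on a transcendence basis. -/
private theorem O2_exists {y : α → L} (hb : IsTranscendenceBasis K y) (w : α → L) :
    ∃ δ : Derivation K L L, ∀ l, δ (y l) = w l := by
  classical
  have := O2_etale hb
  let e := hb.1.aevalEquiv
  have he : ∀ l : α, e.symm ⟨y l, Algebra.subset_adjoin ⟨l, rfl⟩⟩ = MvPolynomial.X l := by
    intro l
    rw [AlgEquiv.symm_apply_eq]
    apply Subtype.ext
    rw [hb.1.aevalEquiv_apply_coe]
    simp
  let _ : Module (MvPolynomial α K) L := Module.compHom L (MvPolynomial.aeval y).toRingHom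
  have hsm : ∀ (q : MvPolynomial α K) (z : L), q • z = MvPolynomial.aeval y q * z :=
    fun _ _ => rfl
  have _ : IsScalarTower K (MvPolynomial α K) L := by
    constructor
    intro a q z
    rw [hsm, hsm, map_smul, smul_mul_assoc]
  let D₀ : Derivation K (MvPolynomial α K) L := MvPolynomial.mkDerivation K w
  let D : Derivation K (Algebra.adjoin K (Set.range y)) L :=
    Derivation.mk' (D₀.toLinearMap.comp e.symm.toLinearMap) (by
      intro a b
      show D₀ (e.symm (a * b)) = a • D₀ (e.symm b) + b • D₀ (e.symm a)
      rw [map_mul, D₀.leibniz, hsm, hsm, ← hb.1.aevalEquiv_apply_coe, ← hb.1.aevalEquiv_apply_coe]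
      show (e (e.symm a) : L) * _ + (e (e.symm b) : L) * _ = _
      rw [e.apply_symm_apply, e.apply_symm_apply]
      rfl)
  obtain ⟨δ, hδ⟩ := JAC.dext (S := L) D
  refine ⟨δ, fun l => ?_⟩
  have h1 := hδ ⟨y l, Algebra.subset_adjoin ⟨l, rfl⟩⟩
  have h2 : algebraMap (Algebra.adjoin K (Set.range y)) L
      ⟨y l, Algebra.subset_adjoin ⟨l, rfl⟩⟩ = y l := rfl
  rw [h2] at h1
  rw [h1]
  show D₀ (e.symm ⟨y l, Algebra.subset_adjoin ⟨l, rfl⟩⟩) = w l
  rw [he l]
  show MvPolynomial.mkDerivation K w (MvPolynomial.X l) = w l
  rw [MvPolynomial.mkDerivation_X]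

omit [CharZero K] in
/-- The value of a sum of derivations. -/
private theorem O2_sum {κ : Type*} (s : Finset κ) (D : κ → Derivation K L L) (f : L) :
    (∑ l ∈ s, D l) f = ∑ l ∈ s, D l f := by
  classical
  induction s using Finset.induction_on with
  | empty => rw [Finset.sum_empty, Finset.sum_empty, Derivation.coe_zero, Pi.zero_apply]
  | insert a s ha ih => rw [Finset.sum_insert ha, Finset.sum_insert ha, Derivation.add_apply, ih]

end

/-- A basis of the space of all derivations adapted to the subspace `F` of the derivations which kill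
the algebraically independent elements `w`. -/
theorem exists_adapted {k E : Type u} [Field k] [CharZero k] [Field E] [Algebra k E] [FiniteDimensional E (Derivation k E E)]
    {l : ℕ} (w : Fin l → E) (hw : AlgebraicIndependent k w) (F : Submodule E (Derivation k E E))
    (hF : ∀ v : Derivation k E E, v ∈ F ↔ ∀ i, v (w i) = 0) :
    ∃ (r : ℕ) (v : Fin r ⊕ Fin l → Derivation k E E), LinearIndependent E v ∧
      Submodule.span E (Set.range fun i => v (Sum.inl i)) = F ∧ Submodule.span E (Set.range v) = ⊤ ∧
      (∀ i j, v (Sum.inl i) (w j) = 0) ∧ (∀ i j, v (Sum.inr i) (w j) = if i = j then 1 else 0) ∧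
      ∀ D : Derivation k E E, (∀ j, D (w j) = 0) → ∃ c : Fin r → E, D = ∑ i, c i • v (Sum.inl i) := by
  classical
  have hinj : Function.Injective w := hw.injective
  obtain ⟨t, hst, ht⟩ := exists_isTranscendenceBasis_superset hw.to_subtype_range
  have hδ : ∀ i : Fin l, ∃ δ : Derivation k E E, ∀ j, δ (w j) = if i = j then 1 else 0 := by
    intro i
    obtain ⟨δ, h⟩ := O2_exists ht (fun y => if (y : E) = w i then 1 else 0)
    refine ⟨δ, fun j => ?_⟩
    have h1 := h ⟨w j, hst ⟨j, rfl⟩⟩
    rw [h1]
    by_cases hij : i = j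
    · subst hij
      simp
    · rw [if_neg hij, if_neg]
      intro hc
      exact hij (hinj hc).symm
  choose δ hδ using hδ
  let b := Module.finBasis E F
  let v : Fin (Module.finrank E F) ⊕ Fin l → Derivation k E E := Sum.elim (fun i => (b i : Derivation k E E)) δ
  have hvl : ∀ i, v (Sum.inl i) = (b i : Derivation k E E) := fun i => rfl
  have hvr : ∀ i, v (Sum.inr i) = δ i := fun i => rfl
  have hb0 : ∀ i j, v (Sum.inl i) (w j) = 0 := fun i j => (hF _).1 (b i).2 j
  have hrep : ∀ D : Derivation k E E, (∀ j, D (w j) = 0) →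
      ∃ c : Fin (Module.finrank E F) → E, D = ∑ i, c i • v (Sum.inl i) := by
    intro D hD
    have hmem : D ∈ F := (hF D).2 hD
    refine ⟨fun i => b.repr ⟨D, hmem⟩ i, ?_⟩
    have h1 := congrArg (Subtype.val) (b.sum_repr ⟨D, hmem⟩)
    rw [Submodule.coe_sum] at h1
    exact h1.symm
  have hspF : Submodule.span E (Set.range fun i => v (Sum.inl i)) = F := by
    apply le_antisymm
    · rw [Submodule.span_le]
      rintro _ ⟨i, rfl⟩
      exact (b i).2
    · intro D hD
      obtain ⟨c, hc⟩ := hrep D ((hF D).1 hD)
      rw [hc]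
      exact Submodule.sum_mem _ fun i _ => Submodule.smul_mem _ _ (Submodule.subset_span ⟨i, rfl⟩)
  refine ⟨Module.finrank E F, v, ?_, hspF, ?_, hb0, fun i j => hδ i j, hrep⟩
  · rw [Fintype.linearIndependent_iff]
    intro g hg
    rw [Fintype.sum_sum_type] at hg
    have hr : ∀ j, g (Sum.inr j) = 0 := by
      intro j
      have h1 := congrArg (fun D : Derivation k E E => D (w j)) hg
      simp only [Derivation.add_apply, O2_sum, Derivation.smul_apply, hb0, smul_zero,
        Finset.sum_const_zero, zero_add, hvr, hδ, Derivation.coe_zero, Pi.zero_apply] at h1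
      simpa using h1
    have hz : ∑ j, g (Sum.inr j) • v (Sum.inr j) = 0 :=
      Finset.sum_eq_zero fun j _ => by rw [hr j, zero_smul]
    rw [hz, add_zero] at hg
    have hbi := Fintype.linearIndependent_iff.1 b.linearIndependent (fun i => g (Sum.inl i)) (by
      apply Subtype.ext
      rw [Submodule.coe_sum]
      exact hg)
    rintro (i | j)
    · exact hbi i
    · exact hr j
  · rw [eq_top_iff]
    intro D _
    have h1 : ∀ j, (D - ∑ i, D (w i) • v (Sum.inr i)) (w j) = 0 := by
      intro j
      rw [Derivation.sub_apply, O2_sum]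
      simp only [Derivation.smul_apply, hvr, hδ]
      simp
    obtain ⟨c, hc⟩ := hrep _ h1
    rw [sub_eq_iff_eq_add] at hc
    rw [hc]
    exact Submodule.add_mem _
      (Submodule.sum_mem _ fun i _ => Submodule.smul_mem _ _ (Submodule.subset_span ⟨_, rfl⟩))
      (Submodule.sum_mem _ fun i _ => Submodule.smul_mem _ _ (Submodule.subset_span ⟨_, rfl⟩))

/-- The field `E` is algebraic over the field generated by a transcendence basis and `w`. -/
theorem alg_closure {k E : Type u} [Field k] [Field E] [Algebra k E] {z l : ℕ} (x : Fin z → E)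
    (hx : IsTranscendenceBasis k x) (w : Fin l → E) (y : E) :
    IsAlgebraic (Subfield.closure ((F0 k w : Set E) ∪ Set.range x)) y := by
  have := hx.isAlgebraic
  obtain ⟨p, hp0, hp⟩ := Algebra.IsAlgebraic.isAlgebraic (R := Algebra.adjoin k (Set.range x)) y
  have hle : ∀ a : E, a ∈ Algebra.adjoin k (Set.range x) →
      a ∈ Subfield.closure ((F0 k w : Set E) ∪ Set.range x) := by
    intro a ha
    refine Algebra.adjoin_induction ?_ ?_ ?_ ?_ ha
    · intro c hc
      exact Subfield.subset_closure (Or.inr hc)
    · intro c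
      exact Subfield.subset_closure (Or.inl (Subfield.subset_closure (Or.inl ⟨c, rfl⟩)))
    · intro c d _ _ hc hd
      exact add_mem hc hd
    · intro c d _ _ hc hd
      exact mul_mem hc hd
  let f : Algebra.adjoin k (Set.range x) →+* Subfield.closure ((F0 k w : Set E) ∪ Set.range x) :=
    { toFun := fun a => ⟨a, hle a a.2⟩
      map_one' := rfl
      map_mul' := fun _ _ => rfl
      map_zero' := rfl
      map_add' := fun _ _ => rfl }
  have hf : Function.Injective f := by
    intro a b hab
    exact Subtype.ext (congrArg (fun c : Subfield.closure ((F0 k w : Set E) ∪ Set.range x) => (c : E)) hab)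
  refine ⟨p.map f, ?_, ?_⟩
  · rwa [Ne, Polynomial.map_eq_zero_iff hf]
  · rw [Polynomial.aeval_def, Polynomial.eval₂_map]
    rw [Polynomial.aeval_def] at hp
    exact hp

end Pool.Agent.Lib.MP_17a322_nt.FL
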