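import Pool.Agent.Lib.MP_17a322_nt.ABN.N0

/-!
The families of determinants of a model and a subspace of the derivations: definitions.
-/

universe u

namespace Pool.Agent.Lib.MP_17a322_nt.FL

section

variable {K E ι ρ α : Type*} [Field K] [Field E] [Algebra K E] [Fintype ρ] [DecidableEq ρ] [Fintype α]
  [DecidableEq α]

/-- The coordinates of the derivation `D` in the model `m`. -/
def psi (m : ι → E) (D : Derivation K E E) (p : ι × ι) : E := m p.1 * D (m p.2) - m p.2 * D (m p.1)

/-- All the minors of order `card ρ + card α`. -/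
def NT (m : ι → E) (v : ρ ⊕ α → Derivation K E E) (s : ρ ⊕ α → ι × ι) : E :=
  (Matrix.of fun a b => psi m (v b) (s a)).det

/-- The minors of order `card ρ`, times `m k ^ (2 * card α)`. -/
def DT (m : ι → E) (v : ρ ⊕ α → Derivation K E E) (p : ι × (ρ → ι × ι)) : E :=
  m p.1 ^ (2 * Fintype.card α) * (Matrix.of fun a b => psi m (v (Sum.inl b)) (p.2 a)).det

end

end Pool.Agent.Lib.MP_17a322_nt.FL
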