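import Pool.Agent.Lib.MP_17a322_nt.FQ.H3
import Pool.Agent.Lib.MP_17a322_nt.FL.LM

universe u v

namespace Pool.Agent.Lib.MP_17a322_nt.FL

open Pool.Agent.Lib.MP_17a322_nt.FQ

/-- The trivial height. -/
def O3_triv (k : Type v) (E : Type u) [Field k] [Field E] [Algebra k E] : Ht k E where
  lam := fun _ => 0
  tensor := fun _ _ _ _ => by simp
  mono := fun _ _ _ _ _ => le_refl _
  single := fun _ _ => rfl

theorem O3_nm_pow {k : Type v} {E : Type u} [Field k] [Field E] [Algebra k E] {κ : Type} [Fintype κ]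
    (m : κ → E) (hm : m ≠ 0) (n : ℕ) (A : VQ k E) :
    nm k (fun a => m a ^ n) A = nm k m A ^ n := by
  refine le_antisymm (nm_le _ A _ fun a => ?_) ?_
  · rw [map_pow]
    exact pow_le_pow_left' (le_nm m A a) n
  · obtain ⟨a, -, ha⟩ := nm_attain (k := k) m hm A
    rw [ha, ← map_pow]
    exact le_nm (fun a => m a ^ n) A a

theorem O3_nm_DT {k : Type v} {E : Type u} [Field k] [Field E] [Algebra k E]
    {κ ρ α : Type} [Fintype κ] [Fintype ρ] [DecidableEq ρ] [Fintype α] [DecidableEq α] (m : κ → E)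
    (hm : m ≠ 0) (v : ρ ⊕ α → Derivation k E E) (A : VQ k E) :
    nm k (DT m v) A = nm k m A ^ (2 * Fintype.card α) *
      nm k (fun s : ρ → κ × κ => (Matrix.of fun i j => ps m (s i) (v (Sum.inl j))).det) A := by
  rw [← O3_nm_pow m hm, ← nm_tn]
  rfl

theorem O3_exists_ne {k : Type v} {E : Type u} [Field k] [Field E] [Algebra k E] {κ : Type} [Fintype κ]
    (S : κ → E) (A : VQ k E) (h : nm k S A ≠ 0) : ∃ a, S a ≠ 0 := by
  by_contra hc
  push Not at hc
  refine h (le_antisymm (nm_le S A 0 fun a => ?_) zero_le)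
  rw [hc a, map_zero]

theorem O3_dv_ne {k : Type v} {E : Type u} [Field k] [Field E] [Algebra k E]
    {κ ι : Type} [Fintype κ] [Fintype ι] [DecidableEq ι] (m : κ → E)
    (hm : IsMd k m) (v : ι → Derivation k E E) (hv : LinearIndependent E v) :
    ∃ s : ι → κ × κ, (Matrix.of fun i j => ps m (s i) (v j)).det ≠ 0 := by
  obtain ⟨x, hx, -⟩ := dv_Lm (O3_triv k E) m hm v hv
  have hne := Lm_ne hx ⟨⊤, fun c => ValuationSubring.mem_top _⟩
  refine O3_exists_ne (k := k) (fun s : ι → κ × κ => (Matrix.of fun i j => ps m (s i) (v j)).det)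
    ⟨⊤, fun c => ValuationSubring.mem_top _⟩ fun h0 => hne ?_
  unfold dv
  rw [h0, zero_div]

/-- The families `NT m v` and `DT m v` are not zero. -/
theorem NT_ne {k : Type v} {E : Type u} [Field k] [Field E] [Algebra k E] [FiniteDimensional E (Derivation k E E)]
    {κ ρ α : Type} [Fintype κ] [Fintype ρ] [DecidableEq ρ] [Fintype α] [DecidableEq α] (m : κ → E)
    (hm : IsMd k m) (v : ρ ⊕ α → Derivation k E E) (hv : LinearIndependent E v) :
    (∃ s, NT m v s ≠ 0) ∧ ∃ p, DT m v p ≠ 0 := by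
  refine ⟨O3_dv_ne m hm v hv, ?_⟩
  obtain ⟨s, hs⟩ := O3_dv_ne m hm (fun j => v (Sum.inl j)) (hv.comp _ Sum.inl_injective)
  obtain ⟨a, ha⟩ := Function.ne_iff.1 hm.1
  exact ⟨(a, s), mul_ne_zero (pow_ne_zero _ ha) hs⟩

/-- If the height of the family of the minors of the maximal order is at most the height of the family
of the minors of the smaller order times the powers, then the degree of the smaller subspace is at most
the degree of the larger subspace. -/
theorem dg_le_of {k : Type v} {E : Type u} [Field k] [Field E] [Algebra k E] [FiniteDimensional E (Derivation k E E)]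
    {κ ρ α : Type} [Fintype κ] [Fintype ρ] [DecidableEq ρ] [Fintype α] [DecidableEq α] (H : Ht k E) (m : κ → E)
    (hm : IsMd k m) (v : ρ ⊕ α → Derivation k E E) (hv : LinearIndependent E v)
    (h : H.lam (NT m v) ≤ H.lam (DT m v)) :
    dg H m (Submodule.span E (Set.range fun i => v (Sum.inl i))) ≤ dg H m (Submodule.span E (Set.range v)) := by
  obtain ⟨⟨s, hs⟩, p, hp⟩ := NT_ne m hm v hv
  have hN : NT m v ≠ 0 := fun h0 => hs (congrFun h0 s)
  have hD : DT m v ≠ 0 := fun h0 => hp (congrFun h0 p)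
  have L1 := dv_dg H m hm v hv
  have L2 := dv_dg H m hm (fun j => v (Sum.inl j)) (hv.comp _ Sum.inl_injective)
  have L3 := Lm_div L1 L2
  have L4 := Lm_div (Lm_fam (H := H) (NT m v) hN) (Lm_fam (H := H) (DT m v) hD)
  have hfun : (fun A => dv m v A / dv m (fun j => v (Sum.inl j)) A) =
      fun A => nm k (NT m v) A / nm k (DT m v) A := by
    funext A
    have hm0 := nm_ne (k := k) m hm.1 A
    rw [O3_nm_DT m hm.1 v A]
    have e1 : dv m v A = nm k (NT m v) A / nm k m A ^ (2 * Fintype.card (ρ ⊕ α)) := rfl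
    have e2 : dv m (fun j => v (Sum.inl j)) A =
        nm k (fun s : ρ → κ × κ => (Matrix.of fun i j => ps m (s i) (v (Sum.inl j))).det) A /
          nm k m A ^ (2 * Fintype.card ρ) := rfl
    rw [e1, e2, Fintype.card_sum, mul_add, pow_add]
    have h1 : nm k m A ^ (2 * Fintype.card ρ) ≠ 0 := pow_ne_zero _ hm0
    have h2 : nm k m A ^ (2 * Fintype.card α) ≠ 0 := pow_ne_zero _ hm0
    rw [div_div_div_eq, mul_comm (nm k m A ^ (2 * Fintype.card ρ)) (nm k m A ^ (2 * Fintype.card α)),
      mul_right_comm, mul_div_mul_right _ _ h1]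
  rw [hfun] at L3
  have hu := Lm_uniq L3 L4
  linarith

end Pool.Agent.Lib.MP_17a322_nt.FL
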