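import Pool.Agent.Lib.MP_17a322_nt.JAC.F1
import Pool.Agent.Lib.MP_17a322_nt.JAC.B3
import Pool.Agent.Lib.MP_17a322_nt.JAC.B4
import Pool.Agent.Lib.MP_17a322_nt.JAC.B5c
import Pool.Agent.Lib.MP_17a322_nt.JAC.B6
import Pool.Agent.Lib.MP_17a322_nt.JAC.B10
import Pool.Agent.Lib.MP_17a322_nt.JAC.B11
import Pool.Agent.Lib.MP_17a322_nt.JAC.B12
import Pool.Agent.Lib.MP_17a322_nt.JAC.B13

/-!
The inequality for the Jacobian minors of polynomial maps, in the inhomogeneous form, implies Vojta's
conjecture for `D = 0` (the proof of `gauss_of_jac`).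
-/

universe u

namespace Pool.Agent.Lib.MP_17a322_nt.FL

open MvPolynomial hiding psum
open Height NumberField
open Pool.Agent.Lib.MP_17a322_nt.EQ
open Pool.Agent.Lib.MP_17a322_nt.JAC

/-- The inequality for polynomial maps, in the inhomogeneous form, implies Vojta's conjecture for
`D = 0`. -/
theorem gauss_of_aff {K : Type u} [Field K] [NumberField K] (h : JacAff K) : VojtaGauss K := by
  classical
  intro ι _ J hJp hJ ε hε
  by_cases hall : ∀ i, (X i : MvPolynomial ι K) ∈ J
  · refine ⟨1, 0, fun h1 => hJp.ne_top ((Ideal.eq_top_iff_one J).2 h1), ⟨0, isHomogeneous_one ι K⟩, ?_⟩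
    intro p hp _
    exfalso
    apply hp.1
    funext i
    have h1 := hp.2 _ (hall i)
    rwa [aeval_X] at h1
  push Not at hall
  obtain ⟨i₀, hi⟩ := hall
  set I : Ideal (MvPolynomial ι K) := dh J i₀ with hI
  have hIp : I.IsPrime := dh_prime J i₀
  obtain ⟨α, _, _, x, δ, halg, hfd, hδx, hu⟩ := exists_frame I
  have hgn1 : gn I i₀ = 1 := by
    have h1 := (aeval_gn_eq_zero I _).2 (dh_sub_one J i₀ hi)
    rw [map_sub, aeval_X, map_one, sub_eq_zero] at h1
    exact h1
  obtain ⟨N, t, S, ht, hS, hOk⟩ := FMV (k := K) δ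
    (Subfield.closure (Set.range (algebraMap K (FF I)) ∪ Set.range fun l => gn I (x l)))
    (gn I) ⟨i₀, by rw [hgn1]; exact one_ne_zero⟩
  obtain ⟨B₀, M, hB₀, hM⟩ := common_den I t
  have hB₀g : aeval (gn I) B₀ ≠ 0 := fun h1 => hB₀ ((aeval_gn_eq_zero I _).1 h1)
  have hMg : ∀ s, aeval (gn I) (M s) ≠ 0 := fun s => by
    rw [← hM s]
    exact mul_ne_zero (ht s) hB₀g
  have hMI : ∀ s, M s ∉ I := fun s h1 => hMg s ((aeval_gn_eq_zero I _).2 h1)
  let gS : Fin S.card → FF I × (Fin N → ℤ) := fun j => (S.equivFin.symm j : FF I × (Fin N → ℤ))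
  have hgS : ∀ j, gS j ∈ S := fun j => (S.equivFin.symm j).2
  have hrange : Set.range gS = (S : Set (FF I × (Fin N → ℤ))) := by
    ext g
    constructor
    · rintro ⟨j, rfl⟩
      exact hgS j
    · intro hg
      exact ⟨S.equivFin ⟨g, hg⟩, by simp [gS]⟩
  choose u v hrep using fun j : Fin S.card =>
    exists_rep δ (fun l => gn I (x l)) hδx (gS j) (hS _ (hgS j)).1 (hS _ (hgS j)).2
  -- the degrees
  set E : ℕ := B₀.totalDegree + 1 + ∑ s, (M s).totalDegree with hE
  set ε' : ℝ := ε / (E + 1) with hε'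
  have hε'0 : 0 < ε' := by positivity
  obtain ⟨G₁, C₁, hG₁, hjac⟩ := h (α ⊕ Fin N) (Fin S.card → Bool) (phiS u v) ε' hε'0
  obtain ⟨D, B₁, hD, hB₁, havoid⟩ := avoid I x halg B₀ hB₀ M hMI G₁ hG₁
  obtain ⟨BN, Nn, hBN, hNn, hcan⟩ := hCan_eq J hJ i₀ hi x δ hδx hu
  -- the constants for every `c`
  have hconst : ∀ c : Fin N → Fin (D + 1), ∃ (Q : MvPolynomial ι K) (C' : ℝ), Q ∉ I ∧
      ∀ z : ι → K, (∀ H ∈ I, eval z H = 0) → z i₀ = 1 → eval z Q ≠ 0 → eval z BN ≠ 0 →
        eval z B₀ ≠ 0 → (∀ s, eval z (M s) ≠ 0) → (∀ s, 1 ≤ (c s : ℕ)) →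
        eval (Sum.elim (fun l => z (x l)) fun s => ((c s : ℕ) : K) * (eval z (M s) / eval z B₀)) G₁ ≠ 0 →
        hCan J z ≤ ε * logHeight z + C' := by
    intro c
    by_cases hc : ∀ s, 1 ≤ (c s : ℕ)
    · have hc0 : ∀ s, ((c s : ℕ) : K) ≠ 0 := fun s => by
        have := hc s
        exact_mod_cast (by omega : (c s : ℕ) ≠ 0)
      set Mc : Fin N → MvPolynomial ι K := fun s => C ((c s : ℕ) : K) * M s with hMc
      have hMcg : ∀ s, aeval (gn I) (Mc s) / aeval (gn I) B₀ =
          algebraMap K (FF I) ((c s : ℕ) : K) * t s := by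
        intro s
        rw [hMc]
        simp only [map_mul, aeval_C]
        rw [mul_div_assoc, ← hM s, mul_div_cancel_right₀ _ hB₀g]
      have htc : ∀ s, algebraMap K (FF I) ((c s : ℕ) : K) * t s ≠ 0 := fun s =>
        mul_ne_zero (by rw [Ne, map_eq_zero]; exact hc0 s) (ht s)
      have hMcI : ∀ s, Mc s ∉ I := by
        intro s h1
        have h2 := hMcg s
        rw [(aeval_gn_eq_zero I _).2 h1, zero_div] at h2
        exact htc s h2.symm
      have hMcz : ∀ (z : ι → K) (s : Fin N), eval z (Mc s) / eval z B₀ =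
          ((c s : ℕ) : K) * (eval z (M s) / eval z B₀) := by
        intro z s
        rw [hMc]
        simp only [map_mul, eval_C]
        rw [mul_div_assoc]
      obtain ⟨Cc, hcomp⟩ := comparison I x δ u v gS hrep BN Nn hBN hNn B₀ hB₀ Mc hMcI (by
        intro A hA
        rw [hrange]
        have h1 := Ok_scale δ (gn I) t (S : Set (FF I × (Fin N → ℤ))) A hA
          (fun s => ((c s : ℕ) : K)) hc0 (hOk A hA)
        have h2 : (fun s => aeval (gn I) (Mc s) / aeval (gn I) B₀) =
            fun s => algebraMap K (FF I) ((c s : ℕ) : K) * t s := funext hMcg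
        rw [h2]
        exact h1)
      obtain ⟨Q, hQ, hQz⟩ := nonvanish I x B₀ hB₀ Mc (phiS u v fun _ => false) (by
        have h2 : (fun s => aeval (gn I) (Mc s) / aeval (gn I) B₀) =
            fun s => algebraMap K (FF I) ((c s : ℕ) : K) * t s := funext hMcg
        rw [h2, phiS, map_prod]
        refine Finset.prod_ne_zero_iff.2 fun j _ => ?_
        exact (hrep j _ htc).2.1)
      obtain ⟨C2, hpoly⟩ := height_poly (K := K) i₀ (κ := Option (α ⊕ Fin N))
        (fun o => o.elim B₀ (Sum.elim (fun l => B₀ * X (x l)) Mc)) E (by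
          rintro (_ | l | s)
          · change B₀.totalDegree ≤ E
            omega
          · change (B₀ * X (x l)).totalDegree ≤ E
            refine (totalDegree_mul _ _).trans ?_
            rw [totalDegree_X]
            omega
          · change (C ((c s : ℕ) : K) * M s).totalDegree ≤ E
            refine (totalDegree_mul _ _).trans ?_
            rw [totalDegree_C, zero_add]
            have h1 : (M s).totalDegree ≤ ∑ s, (M s).totalDegree :=
              Finset.single_le_sum (f := fun s => (M s).totalDegree) (fun _ _ => Nat.zero_le _)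
                (Finset.mem_univ s)
            omega)
      refine ⟨Q, ε' * C2 + C₁ + Cc, hQ, ?_⟩
      intro z hz hz1 hQ0 hBN0 hB₀0 hM0 _ hG₁0
      obtain ⟨hmin, hcz⟩ := hcan z hz hBN0
      have hz0 : z ≠ 0 := by
        intro h1
        rw [h1] at hz1
        exact zero_ne_one hz1
      have hw : (Sum.elim (fun l => z (x l)) fun s => ((c s : ℕ) : K) * (eval z (M s) / eval z B₀)) =
          Sum.elim (fun l => z (x l)) fun s => eval z (Mc s) / eval z B₀ := by
        congr 1
        funext s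
        exact (hMcz z s).symm
      rw [hw] at hG₁0
      have h1 := hjac _ hG₁0
      have h2 := hcomp z hz hz0 hBN0 hB₀0 (fun s => by
        rw [hMc]
        simp only [map_mul, eval_C]
        exact mul_ne_zero (hc0 s) (hM0 s)) (by
        intro h3
        have h4 := congrFun h3 fun _ => false
        exact hQz z hz hQ0 h4) hmin
      have h3 := hpoly z hz1
      have h4 : (fun o : Option (α ⊕ Fin N) =>
          eval z (o.elim B₀ (Sum.elim (fun l => B₀ * X (x l)) Mc))) =
          eval z B₀ • (fun o : Option (α ⊕ Fin N) => o.elim 1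
            (Sum.elim (fun l => z (x l)) fun s => eval z (Mc s) / eval z B₀)) := by
        funext o
        rcases o with _ | l | s
        · simp
        · simp
        · simp only [Option.elim_some, Sum.elim_inr, Pi.smul_apply, smul_eq_mul]
          rw [mul_div_cancel₀ _ hB₀0]
      rw [h4, logHeight_smul_eq_logHeight _ hB₀0] at h3
      rw [hcz]
      have h5 : logHeight (fun s : Option α → ι => (Matrix.of fun a b : Option α =>
          a.elim (z (s b)) fun l => eval z (Nn l (s b))).det) - (Fintype.card α + 1) * logHeight z ≤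
          ε' * logHeight (fun o : Option (α ⊕ Fin N) => o.elim 1
            (Sum.elim (fun l => z (x l)) fun s => eval z (Mc s) / eval z B₀)) + C₁ + Cc := by
        linarith
      have h6 : ε' * logHeight (fun o : Option (α ⊕ Fin N) => o.elim 1
            (Sum.elim (fun l => z (x l)) fun s => eval z (Mc s) / eval z B₀)) ≤
          ε' * (E * logHeight z + C2) := mul_le_mul_of_nonneg_left h3 hε'0.le
      have h7 : ε' * (E : ℝ) ≤ ε := by
        rw [hε', div_mul_eq_mul_div, div_le_iff₀ (by positivity)]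
        nlinarith
      have h8 : 0 ≤ logHeight z := logHeight_nonneg z
      have h9 : ε' * E * logHeight z ≤ ε * logHeight z := mul_le_mul_of_nonneg_right h7 h8
      have h10 : ε' * (E * logHeight z + C2) = ε' * E * logHeight z + ε' * C2 := by ring
      linarith
    · refine ⟨1, 0, fun h1 => hIp.ne_top ((Ideal.eq_top_iff_one I).2 h1), ?_⟩
      intro z _ _ _ _ _ _ h1
      exact absurd h1 hc
  choose Q C' hQI hfin using hconst
  have hG'I : BN * B₁ * B₀ * (∏ s, M s) * ∏ c, Q c ∉ I := by
    have hprod : ∀ {β : Type} [Fintype β] (f : β → MvPolynomial ι K), (∀ b, f b ∉ I) →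
        ∏ b, f b ∉ I := by
      intro β _ f hf h1
      obtain ⟨b, -, hb⟩ := (hIp.prod_mem_iff).1 h1
      exact hf b hb
    have hmul : ∀ {a b : MvPolynomial ι K}, a ∉ I → b ∉ I → a * b ∉ I := by
      intro a b ha hb h1
      rcases hIp.mem_or_mem h1 with h2 | h2
      · exact ha h2
      · exact hb h2
    exact hmul (hmul (hmul (hmul hBN hB₁) hB₀) (hprod M hMI)) (hprod Q hQI)
  obtain ⟨G, hGJ, hGh, hG⟩ := exists_form J i₀ hi _ hG'I
  refine ⟨G, ∑ c, |C' c|, hGJ, hGh, ?_⟩
  intro p hp hp0
  obtain ⟨hpi, hpG⟩ := hG p hp0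
  have hpJ : ∀ F ∈ J, eval p F = 0 := by
    intro F hF
    have h1 := hp.2 F hF
    have h2 : aeval p F = eval p F := DFunLike.congr_fun (coe_aeval_eq_eval p) F
    rwa [h2] at h1
  set z : ι → K := fun i => p i / p i₀ with hz
  have hzI : ∀ H ∈ I, eval z H = 0 := fun H hH => eval_dh J i₀ hi H hH p hpJ hpi
  have hz1 : z i₀ = 1 := div_self hpi
  simp only [map_mul, map_prod, mul_ne_zero_iff, Finset.prod_ne_zero_iff] at hpG
  obtain ⟨⟨⟨⟨h1, h2⟩, h3⟩, h4⟩, h5⟩ := hpG
  obtain ⟨c, hc, hcG⟩ := havoid z hzI h2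
  let c' : Fin N → Fin (D + 1) := fun s => ⟨c s, by have := (hc s).2; omega⟩
  have h6 := hfin c' z hzI hz1 (h5 c' (Finset.mem_univ _)) h1 h3 (fun s => h4 s (Finset.mem_univ _))
    (fun s => (hc s).1) hcG
  have hpz : p = fun i => p i₀ * z i := by
    funext i
    rw [hz]
    field_simp
  have hTan : Tan J p = Tan J z := by
    conv_lhs => rw [hpz]
    exact Tan_mul hJ hpi z
  have hlog : logHeight p = logHeight z := by
    have h7 : p = p i₀ • z := hpz
    conv_lhs => rw [h7]
    exact logHeight_smul_eq_logHeight _ hpi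
  have h8 : hCan J p = hCan J z := by
    rw [hCan, hCan, hTan, hlog]
  rw [h8, hlog]
  have h9 : C' c' ≤ ∑ c, |C' c| := (le_abs_self _).trans
    (Finset.single_le_sum (f := fun c => |C' c|) (fun _ _ => abs_nonneg _) (Finset.mem_univ c'))
  linarith

end Pool.Agent.Lib.MP_17a322_nt.FL
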