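import Pool.Agent.Lib.MP_17a322_nt.FL.L10
import Pool.Agent.Lib.MP_17a322_nt.ABN.N17
import Pool.Agent.Lib.MP_17a322_nt.ABN.N18

universe u

namespace Pool.Agent.Lib.MP_17a322_nt.FL

open MvPolynomial
open Pool.Agent.Lib.MP_17a322_nt.JAC
open Pool.Agent.Lib.MP_17a322_nt.ABN

/-- The finite family of polynomials for the quotient, with the uniform power. -/
theorem LS_power {K E : Type u} {α ρ ι : Type} [Field K] [CharZero K] [Field E] [Algebra K E] [Fintype α] [DecidableEq α]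
    [Fintype ρ] [DecidableEq ρ] [Fintype ι] (w : α → E) (hw : AlgebraicIndependent K w) (r : ℕ) (x : Fin r → E)
    (hx : ∀ z : E, IsAlgebraic (Subfield.closure ((F0 K w : Set E) ∪ Set.range x)) z) (v : ρ ⊕ α → Derivation K E E)
    (hv0 : ∀ i l, v (Sum.inl i) (w l) = 0) (hv1 : ∀ l l', v (Sum.inr l) (w l') = if l = l' then 1 else 0)
    (hρ : ∀ D : Derivation K E E, (∀ l, D (w l) = 0) → ∃ c : ρ → E, D = ∑ i, c i • v (Sum.inl i))
    (m : ι → E) (hD : ∃ p, DT m v p ≠ 0) (hN : ∃ s, NT m v s ≠ 0) :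
    ∃ (P : Finset (MvPolynomial α K)) (M : ℕ), (∀ p ∈ P, p ≠ 0 ∧ aeval w p ≠ 0) ∧ 0 < M ∧
      ∀ A : ValuationSubring E, (∀ c : K, algebraMap K E c ∈ A) →
        Le (fun l => v (Sum.inr l)) A (vals w (P : Set (MvPolynomial α K))) (NT m v) (DT m v) ∧
        ∃ (k : ι × (ρ → ι × ι)) (b : α → E), (∀ j, b j ∈ vals w (P : Set (MvPolynomial α K))) ∧ ∀ s, ∀ p ∈ P,
          A.valuation (NT m v s ^ M * aeval w p) ≤ A.valuation ((DT m v k * GG (fun l => v (Sum.inr l)) b) ^ M) ∧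
          A.valuation (NT m v s ^ M) ≤
            A.valuation ((DT m v k * GG (fun l => v (Sum.inr l)) b) ^ M * aeval w p) := by
  obtain ⟨P, hP, -, h⟩ := fam w hw (fun l => v (Sum.inr l)) hv1 (NT m v) (DT m v) (NT m v) (DT m v) hD
    (fun A hA => by
      obtain ⟨P, h1, h2, -⟩ := LS_fam w hw r x hx v hv0 hv1 hρ m hD A hA
      exact ⟨P, h1, h2⟩)
    (fun A hA => LS_fam w hw r x hx v hv0 hv1 hρ m hD A hA)
  obtain ⟨M, hM, h'⟩ := fam_power w (fun l => v (Sum.inr l)) (NT m v) (DT m v) hN P (fun p hp => (hP p hp).2)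
    (fun A hA => ⟨(h A hA).2.1, (h A hA).2.2⟩)
  exact ⟨P, M, hP, hM, fun A hA => ⟨(h A hA).1, h' A hA⟩⟩

end Pool.Agent.Lib.MP_17a322_nt.FL
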