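import Pool.Agent.Lib.MP_17a322_nt.FL.O0
import Pool.Agent.Lib.MP_17a322_nt.ABN.A1
import Pool.Agent.Lib.MP_17a322_nt.ABN.A4
import Pool.Agent.Lib.MP_17a322_nt.ABN.N0
import Pool.Agent.Lib.MP_17a322_nt.JAC.B12

universe u

namespace Pool.Agent.Lib.MP_17a322_nt.FL

open MvPolynomial hiding psum
open Height NumberField
open Pool.Agent.Lib.MP_17a322_nt.EQ
open Pool.Agent.Lib.MP_17a322_nt.ABN
open Pool.Agent.Lib.MP_17a322_nt.FQ (Evl)

section

variable {k B : Type u} [Field k] [NumberField k] [Field B] [Algebra k B] {I : Type} (X : Evl k B I)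

private theorem O1_zero : ∀ᶠ i in (X.U : Filter I), X.ev 0 i = 0 := by
  have h := X.alg 0
  rwa [map_zero] at h

private theorem O1_one : ∀ᶠ i in (X.U : Filter I), X.ev 1 i = 1 := by
  have h := X.alg 1
  rwa [map_one] at h

private theorem O1_neg (x : B) : ∀ᶠ i in (X.U : Filter I), X.ev (-x) i = -X.ev x i := by
  have h := X.add x (-x)
  rw [add_neg_cancel] at h
  filter_upwards [h, O1_zero X] with i h1 h2
  rw [h2] at h1
  exact eq_neg_of_add_eq_zero_right h1.symm

private theorem O1_ne {x : B} (hx : x ≠ 0) : ∀ᶠ i in (X.U : Filter I), X.ev x i ≠ 0 := by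
  have h := X.mul x x⁻¹
  rw [mul_inv_cancel₀ hx] at h
  filter_upwards [h, O1_one X] with i h1 h2 h3
  rw [h2, h3, zero_mul] at h1
  exact one_ne_zero h1

private theorem O1_inv (x : B) : ∀ᶠ i in (X.U : Filter I), X.ev x⁻¹ i = (X.ev x i)⁻¹ := by
  by_cases hx : x = 0
  · subst hx
    rw [inv_zero]
    filter_upwards [O1_zero X] with i h
    rw [h, inv_zero]
  · have h := X.mul x x⁻¹
    rw [mul_inv_cancel₀ hx] at h
    filter_upwards [h, O1_one X] with i h1 h2
    rw [h2] at h1
    exact eq_inv_of_mul_eq_one_right h1.symm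

private theorem O1_div (x y : B) : ∀ᶠ i in (X.U : Filter I), X.ev (x / y) i = X.ev x i / X.ev y i := by
  have h := X.mul x y⁻¹
  rw [← div_eq_mul_inv] at h
  filter_upwards [h, O1_inv X y] with i h1 h2
  rw [h1, h2, div_eq_mul_inv]

private theorem O1_sum {α : Type*} (s : Finset α) (f : α → B) :
    ∀ᶠ i in (X.U : Filter I), X.ev (∑ a ∈ s, f a) i = ∑ a ∈ s, X.ev (f a) i := by
  classical
  induction s using Finset.induction_on with
  | empty =>
    filter_upwards [O1_zero X] with i h
    rw [Finset.sum_empty, Finset.sum_empty, h]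
  | insert a s ha ih =>
    filter_upwards [ih, X.add (f a) (∑ b ∈ s, f b)] with i h1 h2
    rw [Finset.sum_insert ha, Finset.sum_insert ha, h2, h1]

private theorem O1_prod {α : Type*} (s : Finset α) (f : α → B) :
    ∀ᶠ i in (X.U : Filter I), X.ev (∏ a ∈ s, f a) i = ∏ a ∈ s, X.ev (f a) i := by
  classical
  induction s using Finset.induction_on with
  | empty =>
    filter_upwards [O1_one X] with i h
    rw [Finset.prod_empty, Finset.prod_empty, h]
  | insert a s ha ih =>
    filter_upwards [ih, X.mul (f a) (∏ b ∈ s, f b)] with i h1 h2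
    rw [Finset.prod_insert ha, Finset.prod_insert ha, h2, h1]

private theorem O1_pow (x : B) (n : ℕ) : ∀ᶠ i in (X.U : Filter I), X.ev (x ^ n) i = X.ev x i ^ n := by
  induction n with
  | zero =>
    filter_upwards [O1_one X] with i h
    rw [pow_zero, pow_zero, h]
  | succ n ih =>
    filter_upwards [ih, X.mul (x ^ n) x] with i h1 h2
    rw [pow_succ, pow_succ, h2, h1]

private theorem O1_unit (u : ℤˣ) (x : B) :
    ∀ᶠ i in (X.U : Filter I), X.ev (u • x) i = u • X.ev x i := by
  rcases Int.units_eq_one_or u with rfl | rfl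
  · exact Filter.Eventually.of_forall fun i => by rw [one_smul, one_smul]
  · filter_upwards [O1_neg X x] with i h
    rw [Units.neg_smul, one_smul, Units.neg_smul, one_smul, h]

private theorem O1_det {α : Type*} [Fintype α] [DecidableEq α] (M : Matrix α α B) :
    ∀ᶠ i in (X.U : Filter I), X.ev M.det i = (Matrix.of fun a b => X.ev (M a b) i).det := by
  have h1 : ∀ σ : Equiv.Perm α, ∀ᶠ i in (X.U : Filter I),
      X.ev (Equiv.Perm.sign σ • ∏ a, M (σ a) a) i =
        Equiv.Perm.sign σ • ∏ a, X.ev (M (σ a) a) i := by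
    intro σ
    filter_upwards [O1_unit X (Equiv.Perm.sign σ) (∏ a, M (σ a) a),
      O1_prod X Finset.univ fun a => M (σ a) a] with i h2 h3
    rw [h2, h3]
  have h2 := O1_sum X Finset.univ fun σ : Equiv.Perm α => Equiv.Perm.sign σ • ∏ a, M (σ a) a
  filter_upwards [h2, Filter.eventually_all.2 h1] with i h3 h4
  rw [Matrix.det_apply, Matrix.det_apply, h3]
  exact Finset.sum_congr rfl fun σ _ => h4 σ

private theorem O1_aeval {σ : Type*} (x : σ → B) (p : MvPolynomial σ k) :
    ∀ᶠ i in (X.U : Filter I), X.ev (aeval x p) i = eval (fun s => X.ev (x s) i) p := by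
  induction p using MvPolynomial.induction_on with
  | C a =>
    filter_upwards [X.alg a] with i h
    rw [aeval_C, eval_C, h]
  | add p r hp hr =>
    filter_upwards [hp, hr, X.add (aeval x p) (aeval x r)] with i h1 h2 h3
    rw [map_add, map_add, h3, h1, h2]
  | mul_X p s hp =>
    filter_upwards [hp, X.mul (aeval x p) (x s)] with i h1 h2
    rw [map_mul, map_mul, aeval_X, eval_X, h2, h1]

private theorem O1_fam {ι : Type*} {S : ι → B} (hS : ∃ a, S a ≠ 0) :
    ∀ᶠ i in (X.U : Filter I), (fun a => X.ev (S a) i) ≠ 0 := by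
  obtain ⟨a, ha⟩ := hS
  filter_upwards [O1_ne X ha] with i h1 h2
  exact h1 (congrFun h2 a)

private theorem O1_height {ι : Type*} [Fintype ι] (x : ι → k) :
    logHeight x ≤ ∑ a, logHeight₁ (x a) := by
  classical
  have hne : ∀ a, (![x a, 1] : Fin 2 → k) ≠ 0 := fun a h => by
    have := congrFun h 1
    simp at this
  have h1 := logHeight_fun_prod_eq (K := k) (x := fun a : ι => (![x a, 1] : Fin 2 → k)) hne
  have h2 : x = (fun J : ι → Fin 2 => ∏ a, (![x a, 1] : Fin 2 → k) (J a)) ∘
      (fun b : ι => fun a : ι => if a = b then (0 : Fin 2) else 1) := by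
    funext b
    simp only [Function.comp]
    rw [Finset.prod_eq_single b]
    · simp
    · intro c _ hc
      simp [hc]
    · intro h
      exact absurd (Finset.mem_univ b) h
  have h3 := logHeight_comp_le (K := k) (fun b : ι => fun a : ι => if a = b then (0 : Fin 2) else 1)
    (fun J : ι → Fin 2 => ∏ a, (![x a, 1] : Fin 2 → k) (J a))
  rw [← h2, h1] at h3
  refine h3.trans (le_of_eq ?_)
  refine Finset.sum_congr rfl fun a _ => ?_
  rw [logHeight₁_eq_logHeight]

private theorem O1_bdd {ι : Type*} [Finite ι] (S : ι → B) :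
    ∃ C : ℝ, ∀ᶠ i in (X.U : Filter I), logHeight (fun a => X.ev (S a) i) ≤ C * X.h i := by
  have := Fintype.ofFinite ι
  choose C hC using fun a => X.bdd (S a)
  refine ⟨∑ a, C a, ?_⟩
  filter_upwards [Filter.eventually_all.2 hC] with i hi
  refine (O1_height (fun a => X.ev (S a) i)).trans ?_
  rw [Finset.sum_mul]
  exact Finset.sum_le_sum fun a _ => hi a

private theorem O1_lim {ι : Type*} [Finite ι] (S : ι → B) :
    Filter.Tendsto (fun i => logHeight (fun a => X.ev (S a) i) / X.h i) (X.U : Filter I) (nhds (X.lm S)) := by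
  obtain ⟨C, hC⟩ := O1_bdd X S
  refine tendsto_nhds_limUnder ?_
  have hmem : ∀ᶠ i in (X.U : Filter I),
      logHeight (fun a => X.ev (S a) i) / X.h i ∈ Set.Icc (0 : ℝ) C := by
    filter_upwards [hC, X.top.eventually_gt_atTop 0] with i h1 h2
    exact ⟨div_nonneg (logHeight_nonneg _) h2.le, (div_le_iff₀ h2).2 h1⟩
  obtain ⟨a, -, ha⟩ := (isCompact_Icc (a := (0 : ℝ)) (b := C)).ultrafilter_le_nhds
    (X.U.map fun i => logHeight (fun a => X.ev (S a) i) / X.h i)
    (by
      rw [Filter.le_principal_iff]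
      exact hmem)
  exact ⟨a, ha⟩

private theorem O1_nonneg {ι : Type*} [Finite ι] (S : ι → B) : 0 ≤ X.lm S := by
  refine ge_of_tendsto (O1_lim X S) ?_
  filter_upwards [X.top.eventually_gt_atTop 0] with i hi
  exact div_nonneg (logHeight_nonneg _) hi.le

/-- The inequality of the limits. -/
private theorem O1_limit {ι κ τ : Type*} [Finite ι] [Finite κ] [Finite τ] (S : ι → B) (T : κ → B) (R : τ → B)
    (h : ∀ ε : ℝ, 0 < ε → ∃ C : ℝ, ∀ᶠ i in (X.U : Filter I), logHeight (fun a => X.ev (S a) i) ≤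
      logHeight (fun a => X.ev (T a) i) + ε * logHeight (fun a => X.ev (R a) i) + C) :
    X.lm S ≤ X.lm T := by
  have h1 : ∀ ε : ℝ, 0 < ε → X.lm S ≤ X.lm T + ε * X.lm R := by
    intro ε hε
    obtain ⟨C, hC⟩ := h ε hε
    have h0 : Filter.Tendsto (fun i => C / X.h i) (X.U : Filter I) (nhds 0) := X.top.const_div_atTop C
    have h2 := ((O1_lim X T).add ((O1_lim X R).const_mul ε)).add h0
    rw [add_zero] at h2
    refine le_of_tendsto_of_tendsto (O1_lim X S) h2 ?_
    filter_upwards [hC, X.top.eventually_gt_atTop 0] with i hi hp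
    rw [← mul_div_assoc, ← add_div, ← add_div]
    exact div_le_div_of_nonneg_right hi hp.le
  have hR := O1_nonneg X R
  refine le_of_forall_pos_le_add fun d hd => ?_
  have h2 := h1 (d / (X.lm R + 1)) (by positivity)
  have h3 : d / (X.lm R + 1) * X.lm R ≤ d := by
    rw [div_mul_eq_mul_div, div_le_iff₀ (by positivity)]
    nlinarith
  linarith

end

section

variable {k B E : Type u} [Field k] [NumberField k] [Field B] [Algebra k B] {I : Type} (X : Evl k B I)
    [Field E] [Algebra k E] [Algebra E B] [IsScalarTower k E B]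

/-- The values of the determinants of logarithmic differentials. -/
private theorem O1_GG {α : Type} [Fintype α] [DecidableEq α] (w : α → E) (δ : α → Derivation k E E)
    (hδ : ∀ l l', δ l (w l') = if l = l' then 1 else 0) (p : α → MvPolynomial α k) :
    ∀ᶠ i in (X.U : Filter I), X.ev (algebraMap E B (GG (fun l => δ l) fun j => aeval w (p j))) i =
      (Matrix.of fun j l => eval (fun s => X.ev (algebraMap E B (w s)) i) (pderiv l (p j)) /
        eval (fun s => X.ev (algebraMap E B (w s)) i) (p j)).det := by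
  have h1 : algebraMap E B (GG (fun l => δ l) fun j => aeval w (p j)) =
      (Matrix.of fun j l => aeval (fun s => algebraMap E B (w s)) (pderiv l (p j)) /
        aeval (fun s => algebraMap E B (w s)) (p j)).det := by
    rw [GG, RingHom.map_det]
    congr 1
    ext j l
    rw [RingHom.mapMatrix_apply, Matrix.map_apply, Matrix.of_apply, Matrix.of_apply,
      JAC.B12_deriv δ w hδ, map_div₀]
    rw [← MvPolynomial.aeval_algebraMap_apply, ← MvPolynomial.aeval_algebraMap_apply]
    rfl
  rw [h1]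
  have h2 : ∀ j l, ∀ᶠ i in (X.U : Filter I),
      X.ev (aeval (fun s => algebraMap E B (w s)) (pderiv l (p j)) /
        aeval (fun s => algebraMap E B (w s)) (p j)) i =
      eval (fun s => X.ev (algebraMap E B (w s)) i) (pderiv l (p j)) /
        eval (fun s => X.ev (algebraMap E B (w s)) i) (p j) := by
    intro j l
    filter_upwards [O1_div X (aeval (fun s => algebraMap E B (w s)) (pderiv l (p j)))
      (aeval (fun s => algebraMap E B (w s)) (p j)),
      O1_aeval X (fun s => algebraMap E B (w s)) (pderiv l (p j)),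
      O1_aeval X (fun s => algebraMap E B (w s)) (p j)] with i h3 h4 h5
    rw [h3, h4, h5]
  filter_upwards [O1_det X (Matrix.of fun j l => aeval (fun s => algebraMap E B (w s)) (pderiv l (p j)) /
        aeval (fun s => algebraMap E B (w s)) (p j)),
    Filter.eventually_all.2 fun j => Filter.eventually_all.2 (h2 j)] with i h3 h4
  rw [h3]
  congr 1
  ext j l
  rw [Matrix.of_apply, Matrix.of_apply, Matrix.of_apply]
  exact h4 j l

private theorem O1_sup {σ σ' : Type*} [Finite σ] [Finite σ'] [Nonempty σ] [Nonempty σ'] (a : σ → ℝ) (b : σ' → ℝ)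
    (ha : ∀ i, 0 ≤ a i) (hb : ∀ i, 0 ≤ b i) (M : ℕ) (c : ℝ) (hc : 0 ≤ c) :
    (⨆ j : σ × σ', (a j.1 * b j.2) ^ M * c) ≤ ((⨆ i, a i) * ⨆ i, b i) ^ M * c := by
  refine ciSup_le fun j => ?_
  have h1 : a j.1 ≤ ⨆ i, a i := le_ciSup (Set.finite_range a).bddAbove j.1
  have h2 : b j.2 ≤ ⨆ i, b i := le_ciSup (Set.finite_range b).bddAbove j.2
  have h3 := ha j.1
  have h4 := hb j.2
  have h5 : 0 ≤ ⨆ i, a i := h3.trans h1
  gcongr

end

/-- If the maximum of the values of the family `N` is bounded at every valuation ring by the one of the family `D` times the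
determinants of the logarithmic differentials of the values of the polynomials in `P`, then the abc inequality for forms
gives the inequality of the heights. -/
theorem lm_le_family {k B E : Type u} [Field k] [NumberField k] [Field B] [Algebra k B] {I : Type} (X : Evl k B I)
    [Field E] [Algebra k E] [Algebra E B] [IsScalarTower k E B] {α Λ Λ' : Type} [Fintype α] [DecidableEq α]
    [Fintype Λ] [Fintype Λ'] (n : ℕ) (hn : Fintype.card α = n) (hA : ABCForms k n) (w : α → E)
    (hw : AlgebraicIndependent k w) (δ : α → Derivation k E E) (hδ : ∀ l l', δ l (w l') = if l = l' then 1 else 0)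
    (N : Λ → E) (D : Λ' → E) (hN : ∃ s, N s ≠ 0) (P : Finset (MvPolynomial α k)) (hP : ∀ p ∈ P, p ≠ 0 ∧ aeval w p ≠ 0)
    (M : ℕ) (hM : 0 < M)
    (h : ∀ A : ValuationSubring E, (∀ c : k, algebraMap k E c ∈ A) →
        Le (fun l => δ l) A (vals w (P : Set (MvPolynomial α k))) N D ∧
        ∃ (q : Λ') (b : α → E), (∀ j, b j ∈ vals w (P : Set (MvPolynomial α k))) ∧ ∀ s, ∀ p ∈ P,
          A.valuation (N s ^ M * aeval w p) ≤ A.valuation ((D q * GG (fun l => δ l) b) ^ M) ∧
          A.valuation (N s ^ M) ≤ A.valuation ((D q * GG (fun l => δ l) b) ^ M * aeval w p)) :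
    X.lm (fun s => algebraMap E B (N s)) ≤ X.lm (fun s => algebraMap E B (D s)) := by
  classical
  subst hn
  -- reindexing
  obtain ⟨e, -⟩ : ∃ e : Fin P.card ≃ P, True := ⟨P.equivFin.symm, trivial⟩
  have hval : ∀ b : α → E, (∀ j, b j ∈ vals w (P : Set (MvPolynomial α k))) →
      ∃ I' : α → Fin P.card, (fun j => aeval w (e (I' j) : MvPolynomial α k)) = b := by
    intro b hb
    have hb' : ∀ j, ∃ i : Fin P.card, aeval w (e i : MvPolynomial α k) = b j := by
      intro j
      obtain ⟨q, hq, hqb⟩ := hb j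
      refine ⟨e.symm ⟨q, hq⟩, ?_⟩
      rw [Equiv.apply_symm_apply]
      exact hqb
    choose I' hI' using hb'
    exact ⟨I', funext hI'⟩
  obtain ⟨g, hg⟩ : ∃ g : (α → Fin P.card) → E,
      ∀ I', g I' = GG (fun l => δ l) fun j => aeval w (e (I' j) : MvPolynomial α k) := ⟨_, fun _ => rfl⟩
  have h1 : ∀ A : ValuationSubring E, (∀ c : k, algebraMap k E c ∈ A) → ∀ s,
      ∃ x : Λ' × (α → Fin P.card), A.valuation (N s) ≤ A.valuation (D x.1 * g x.2) := by
    intro A hA' s
    obtain ⟨q, b, hb, hle⟩ := (h A hA').1 s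
    obtain ⟨I', rfl⟩ := hval b hb
    exact ⟨(q, I'), by rw [hg]; exact hle⟩
  have h2 : ∀ A : ValuationSubring E, (∀ c : k, algebraMap k E c ∈ A) →
      ∃ x : Λ' × (α → Fin P.card), ∀ s, ∀ p ∈ P,
        A.valuation (N s ^ M * aeval w p) ≤ A.valuation ((D x.1 * g x.2) ^ M) ∧
        A.valuation (N s ^ M) ≤ A.valuation ((D x.1 * g x.2) ^ M * aeval w p) := by
    intro A hA'
    obtain ⟨q, b, hb, hle⟩ := (h A hA').2
    obtain ⟨I', rfl⟩ := hval b hb
    exact ⟨(q, I'), fun s p hp => by rw [hg]; exact hle s p hp⟩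
  -- nonzero elements
  obtain ⟨s₀, hs₀⟩ := hN
  obtain ⟨x₀, hx₀⟩ := h1 ⊤ (fun _ => ValuationSubring.mem_top _) s₀
  have hx₁ : D x₀.1 * g x₀.2 ≠ 0 := by
    intro h0
    rw [h0, map_zero, le_zero_iff, map_eq_zero] at hx₀
    exact hs₀ hx₀
  have : Nonempty (Λ' × (α → Fin P.card)) := ⟨x₀⟩
  have : Nonempty Λ' := ⟨x₀.1⟩
  have : Nonempty (α → Fin P.card) := ⟨x₀.2⟩
  have : Nonempty Λ := ⟨s₀⟩
  -- the places
  obtain ⟨C, hC1, hCf, hCv⟩ := transfer_place X N (fun x : Λ' × (α → Fin P.card) => D x.1 * g x.2) h1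
  have key2 : ∀ j : Fin P.card, ∃ C : Pl k → ℝ, (∀ v, 1 ≤ C v) ∧ {w : FinitePlace k | C (Sum.inr w) ≠ 1}.Finite ∧
      ∀ᶠ i in (X.U : Filter I), ∀ v : Pl k,
        (⨆ s, av v (X.ev (algebraMap E B (N s ^ M * aeval w (e j : MvPolynomial α k))) i)) ≤
        C v * ⨆ x : Λ' × (α → Fin P.card), av v (X.ev (algebraMap E B ((D x.1 * g x.2) ^ M)) i) := by
    intro j
    refine transfer_place X (fun s => N s ^ M * aeval w (e j : MvPolynomial α k))
      (fun x : Λ' × (α → Fin P.card) => (D x.1 * g x.2) ^ M) fun A hA' s => ?_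
    obtain ⟨x, hx⟩ := h2 A hA'
    exact ⟨x, (hx s _ (e j).2).1⟩
  have key3 : ∀ j : Fin P.card, ∃ C : Pl k → ℝ, (∀ v, 1 ≤ C v) ∧ {w : FinitePlace k | C (Sum.inr w) ≠ 1}.Finite ∧
      ∀ᶠ i in (X.U : Filter I), ∀ v : Pl k,
        (⨆ s, av v (X.ev (algebraMap E B (N s ^ M)) i)) ≤
        C v * ⨆ x : Λ' × (α → Fin P.card), av v (X.ev (algebraMap E B ((D x.1 * g x.2) ^ M *
          aeval w (e j : MvPolynomial α k))) i) := by
    intro j
    refine transfer_place X (fun s => N s ^ M)
      (fun x : Λ' × (α → Fin P.card) => (D x.1 * g x.2) ^ M * aeval w (e j : MvPolynomial α k)) fun A hA' s => ?_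
    obtain ⟨x, hx⟩ := h2 A hA'
    exact ⟨x, (hx s _ (e j).2).2⟩
  choose C2 hC21 hC22 hC23 using key2
  choose C3 hC31 hC32 hC33 using key3
  have hprod : ∀ (F : Fin P.card → Pl k → ℝ), (∀ j v, 1 ≤ F j v) → ∀ v, 1 ≤ ∏ j, F j v := fun F hF v => by
    rw [← Finset.prod_const_one (s := (Finset.univ : Finset (Fin P.card)))]
    exact Finset.prod_le_prod (fun _ _ => zero_le_one) (fun p _ => hF p v)
  have hone : ∀ (F : Fin P.card → Pl k → ℝ), (∀ j v, 1 ≤ F j v) → ∀ j v, F j v ≤ ∏ j, F j v := by
    intro F hF j v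
    rw [← Finset.mul_prod_erase Finset.univ (fun j => F j v) (Finset.mem_univ j)]
    have h1 : 1 ≤ ∏ j' ∈ Finset.univ.erase j, F j' v := by
      rw [← Finset.prod_const_one (s := (Finset.univ.erase j : Finset (Fin P.card)))]
      exact Finset.prod_le_prod (fun _ _ => zero_le_one) (fun p _ => hF p v)
    exact le_mul_of_one_le_right (zero_le_one.trans (hF j v)) h1
  have hfin : ∀ (F : Fin P.card → Pl k → ℝ), (∀ j, {w : FinitePlace k | F j (Sum.inr w) ≠ 1}.Finite) →
      {w : FinitePlace k | ∏ j, F j (Sum.inr w) ≠ 1}.Finite := by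
    intro F hF
    refine (Set.finite_iUnion hF).subset ?_
    intro w' hw'
    simp only [Set.mem_ofPred_eq] at hw'
    rw [Set.mem_iUnion]
    by_contra hcon
    push Not at hcon
    apply hw'
    refine Finset.prod_eq_one fun p _ => ?_
    by_contra h1
    exact hcon p h1
  obtain ⟨C', hC'⟩ : ∃ C' : Pl k → ℝ, ∀ v, C' v = (∏ j, C2 j v) * ∏ j, C3 j v := ⟨_, fun _ => rfl⟩
  have hC1' : ∀ v, 1 ≤ C' v := fun v => by
    rw [hC']
    exact one_le_mul_of_one_le_of_one_le (hprod C2 hC21 v) (hprod C3 hC31 v)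
  have hCf' : {w : FinitePlace k | C' (Sum.inr w) ≠ 1}.Finite := by
    refine ((hfin C2 hC22).union (hfin C3 hC32)).subset ?_
    intro w' hw'
    simp only [Set.mem_ofPred_eq] at hw'
    by_contra hcon
    simp only [Set.mem_union, Set.mem_ofPred_eq, not_or, not_not] at hcon
    apply hw'
    rw [hC', hcon.1, hcon.2, mul_one]
  have hC2' : ∀ j v, C2 j v ≤ C' v := fun j v => by
    rw [hC']
    exact (hone C2 hC21 j v).trans (le_mul_of_one_le_right (zero_le_one.trans (hprod C2 hC21 v)) (hprod C3 hC31 v))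
  have hC3' : ∀ j v, C3 j v ≤ C' v := fun j v => by
    rw [hC']
    exact (hone C3 hC31 j v).trans (le_mul_of_one_le_left (zero_le_one.trans (hprod C3 hC31 v)) (hprod C2 hC21 v))
  obtain ⟨C₀, hsum⟩ := sum_ineq (K := k) (ι := Λ') (Λ := Λ) (β := Empty) (κ := Unit) (ν := α → Fin P.card)
    (π := Fin P.card) ∅ 0 0 M hM C C' hC1 hCf hC1' hCf'
  -- the limit
  refine O1_limit X _ _ (fun o : Option α => o.elim 1 fun l => algebraMap E B (w l)) fun ε hε => ?_
  obtain ⟨G₁, C₁, hG₁, habc⟩ := abc_poly (Fintype.card α) rfl hA P (fun p hp => (hP p hp).1) ε hε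
  refine ⟨C₀ + C₁, ?_⟩
  have hwB : ∀ p : MvPolynomial α k, aeval (fun s => algebraMap E B (w s)) p = algebraMap E B (aeval w p) := by
    intro p
    rw [← MvPolynomial.aeval_algebraMap_apply]
    rfl
  have hG₁' : aeval (fun s => algebraMap E B (w s)) G₁ ≠ 0 := by
    rw [hwB]
    refine (map_ne_zero _).2 fun h0 => hG₁ ?_
    exact hw.eq_zero_of_aeval_eq_zero _ h0
  have hmulN : ∀ x : E, ∀ y : E, ∀ᶠ i in (X.U : Filter I), X.ev (algebraMap E B (x * y)) i =
      X.ev (algebraMap E B x) i * X.ev (algebraMap E B y) i := by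
    intro x y
    rw [map_mul]
    exact X.mul _ _
  have hpowN : ∀ x : E, ∀ᶠ i in (X.U : Filter I), X.ev (algebraMap E B (x ^ M)) i =
      X.ev (algebraMap E B x) i ^ M := by
    intro x
    rw [map_pow]
    exact O1_pow X _ _
  have hpol : ∀ p : MvPolynomial α k, ∀ᶠ i in (X.U : Filter I), X.ev (algebraMap E B (aeval w p)) i =
      eval (fun s => X.ev (algebraMap E B (w s)) i) p := by
    intro p
    rw [← hwB]
    exact O1_aeval X _ _
  have hGG : ∀ I' : α → Fin P.card, ∀ᶠ i in (X.U : Filter I), X.ev (algebraMap E B (g I')) i =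
      (Matrix.of fun j l => eval (fun s => X.ev (algebraMap E B (w s)) i) (pderiv l (e (I' j) : MvPolynomial α k)) /
        eval (fun s => X.ev (algebraMap E B (w s)) i) (e (I' j) : MvPolynomial α k)).det := by
    intro I'
    rw [hg]
    exact O1_GG X w δ hδ fun j => (e (I' j) : MvPolynomial α k)
  have hT : ∀ x : Λ' × (α → Fin P.card), ∀ᶠ i in (X.U : Filter I), X.ev (algebraMap E B ((D x.1 * g x.2) ^ M)) i =
      (X.ev (algebraMap E B (D x.1)) i * X.ev (algebraMap E B (g x.2)) i) ^ M := by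
    intro x
    filter_upwards [hpowN (D x.1 * g x.2), hmulN (D x.1) (g x.2)] with i h3 h4
    rw [h3, h4]
  have hT' : ∀ (x : Λ' × (α → Fin P.card)) (j : Fin P.card), ∀ᶠ i in (X.U : Filter I),
      X.ev (algebraMap E B ((D x.1 * g x.2) ^ M * aeval w (e j : MvPolynomial α k))) i =
      (X.ev (algebraMap E B (D x.1)) i * X.ev (algebraMap E B (g x.2)) i) ^ M *
        X.ev (algebraMap E B (aeval w (e j : MvPolynomial α k))) i := by
    intro x j
    filter_upwards [hT x, hmulN ((D x.1 * g x.2) ^ M) (aeval w (e j : MvPolynomial α k))] with i h3 h4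
    rw [h4, h3]
  have hS' : ∀ (s : Λ) (j : Fin P.card), ∀ᶠ i in (X.U : Filter I),
      X.ev (algebraMap E B (N s ^ M * aeval w (e j : MvPolynomial α k))) i =
      X.ev (algebraMap E B (N s)) i ^ M * X.ev (algebraMap E B (aeval w (e j : MvPolynomial α k))) i := by
    intro s j
    filter_upwards [hpowN (N s), hmulN (N s ^ M) (aeval w (e j : MvPolynomial α k))] with i h3 h4
    rw [h4, h3]
  have hane : ∀ᶠ i in (X.U : Filter I), (fun s => X.ev (algebraMap E B (N s)) i) ≠ 0 :=
    O1_fam X ⟨s₀, (map_ne_zero _).2 hs₀⟩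
  have hzne : ∀ᶠ i in (X.U : Filter I), (fun s => X.ev (algebraMap E B (D s)) i) ≠ 0 :=
    O1_fam X ⟨x₀.1, (map_ne_zero _).2 (left_ne_zero_of_mul hx₁)⟩
  have hgne : ∀ᶠ i in (X.U : Filter I), (fun I' => X.ev (algebraMap E B (g I')) i) ≠ 0 :=
    O1_fam X ⟨x₀.2, (map_ne_zero _).2 (right_ne_zero_of_mul hx₁)⟩
  have hpne : ∀ j : Fin P.card, ∀ᶠ i in (X.U : Filter I),
      X.ev (algebraMap E B (aeval w (e j : MvPolynomial α k))) i ≠ 0 :=
    fun j => O1_ne X ((map_ne_zero _).2 (hP _ (e j).2).2)
  filter_upwards [hCv, Filter.eventually_all.2 hC23, Filter.eventually_all.2 hC33, O1_one X, O1_ne X hG₁',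
    O1_aeval X (fun s => algebraMap E B (w s)) G₁, Filter.eventually_all.2 fun j => hpol (e j : MvPolynomial α k),
    Filter.eventually_all.2 hGG, Filter.eventually_all.2 hT,
    Filter.eventually_all.2 fun x => Filter.eventually_all.2 (hT' x),
    Filter.eventually_all.2 fun x => Filter.eventually_all.2 (hS' x), hane, hzne, hgne,
    Filter.eventually_all.2 hpne, Filter.eventually_all.2 fun s => hpowN (N s),
    Filter.eventually_all.2 fun x : Λ' × (α → Fin P.card) => hmulN (D x.1) (g x.2)] with i a1 a2 a3 a4 a5 a6 a7 a8 a9 a10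
      a11 a12 a13 a14 a15 a16 a17
  have hsum' := hsum (fun s => X.ev (algebraMap E B (N s)) i) (fun s => X.ev (algebraMap E B (D s)) i)
    (fun b _ => b.elim) (fun I' => X.ev (algebraMap E B (g I')) i)
    (fun j => X.ev (algebraMap E B (aeval w (e j : MvPolynomial α k))) i) a12 a13 (fun b => b.elim) a14 a15 (by
      intro v
      rw [Finset.univ_eq_empty, Finset.prod_empty, mul_one, zero_mul, pow_zero, mul_one, zero_add, pow_one]
      refine (a1 v).trans (mul_le_mul_of_nonneg_left ?_ (zero_le_one.trans (hC1 v)))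
      have h3 := O1_sup (fun s => av v (X.ev (algebraMap E B (D s)) i)) (fun I' => av v (X.ev (algebraMap E B (g I')) i))
        (fun i => (av v).nonneg _) (fun i => (av v).nonneg _) 1 1 zero_le_one
      rw [mul_one, pow_one] at h3
      refine le_trans (le_of_eq ?_) h3
      refine iSup_congr fun x => ?_
      rw [a17 x, map_mul, mul_one, pow_one]) (by
      intro v j
      obtain ⟨s, hs⟩ := exists_eq_ciSup_of_finite (f := fun s => av v (X.ev (algebraMap E B (N s)) i))
      rw [← hs, zero_add, pow_one]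
      constructor
      · have b1 := a2 j v
        have b2 : av v (X.ev (algebraMap E B (N s)) i) ^ M * av v (X.ev (algebraMap E B (aeval w (e j : MvPolynomial α k))) i) ≤
            ⨆ s, av v (X.ev (algebraMap E B (N s ^ M * aeval w (e j : MvPolynomial α k))) i) := by
          have b3 := le_ciSup (Set.finite_range fun s => av v (X.ev (algebraMap E B
            (N s ^ M * aeval w (e j : MvPolynomial α k))) i)).bddAbove s
          refine le_trans (le_of_eq ?_) b3
          rw [a11 s j, map_mul, map_pow]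
        refine b2.trans (b1.trans ?_)
        refine mul_le_mul (hC2' j v) ?_ (Real.iSup_nonneg fun i => (av v).nonneg _) (zero_le_one.trans (hC1' v))
        have h3 := O1_sup (fun s => av v (X.ev (algebraMap E B (D s)) i))
          (fun I' => av v (X.ev (algebraMap E B (g I')) i))
          (fun i => (av v).nonneg _) (fun i => (av v).nonneg _) M 1 zero_le_one
        rw [mul_one] at h3
        refine le_trans (le_of_eq ?_) h3
        refine iSup_congr fun x => ?_
        rw [a9 x, map_pow, map_mul, mul_one]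
      · have b1 := a3 j v
        have b2 : av v (X.ev (algebraMap E B (N s)) i) ^ M ≤
            ⨆ s, av v (X.ev (algebraMap E B (N s ^ M)) i) := by
          have b3 := le_ciSup (Set.finite_range fun s => av v (X.ev (algebraMap E B (N s ^ M)) i)).bddAbove s
          refine le_trans (le_of_eq ?_) b3
          rw [a16 s, map_pow]
        rw [mul_assoc]
        refine b2.trans (b1.trans ?_)
        refine mul_le_mul (hC3' j v) ?_ (Real.iSup_nonneg fun i => (av v).nonneg _) (zero_le_one.trans (hC1' v))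
        have h3 := O1_sup (fun s => av v (X.ev (algebraMap E B (D s)) i))
          (fun I' => av v (X.ev (algebraMap E B (g I')) i))
          (fun i => (av v).nonneg _) (fun i => (av v).nonneg _) M
          (av v (X.ev (algebraMap E B (aeval w (e j : MvPolynomial α k))) i)) ((av v).nonneg _)
        refine le_trans (le_of_eq ?_) h3
        refine iSup_congr fun x => ?_
        rw [a10 x j, map_mul, map_pow, map_mul])
  have hset : {v : FinitePlace k | ∃ j : Fin P.card,
      v (X.ev (algebraMap E B (aeval w (e j : MvPolynomial α k))) i) ≠ 1} =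
      {v : FinitePlace k | ∃ q ∈ P, v (eval (fun s => X.ev (algebraMap E B (w s)) i) q) ≠ 1} := by
    ext v
    constructor
    · rintro ⟨j, hj⟩
      rw [a7 j] at hj
      exact ⟨_, (e j).2, hj⟩
    · rintro ⟨q, hq, hj⟩
      refine ⟨e.symm ⟨q, hq⟩, ?_⟩
      rw [a7, Equiv.apply_symm_apply]
      exact hj
  have hempty : {v : FinitePlace k | v ∉ (∅ : Finset (FinitePlace k)) ∧ ∃ b : Empty,
      0 < ((0 : ℕ) : ℝ) * Real.log (⨆ s, v (X.ev (algebraMap E B (D s)) i)) -
        Real.log (⨆ j : Unit, v ((fun (b : Empty) (_ : Unit) => (b.elim : k)) b j))} = ∅ := by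
    rw [Set.eq_empty_iff_forall_notMem]
    rintro v ⟨-, b, -⟩
    exact b.elim
  rw [hset, hempty] at hsum'
  have habc' := (habc (fun s => X.ev (algebraMap E B (w s)) i) (by rw [← a6]; exact a5)).2
  let E' : (α → Fin P.card) ≃ (α → P) := Equiv.piCongrRight fun _ => e
  have hgl : logHeight (fun I' => X.ev (algebraMap E B (g I')) i) =
      logHeight (fun I : α → P => (Matrix.of fun k l => eval (fun s => X.ev (algebraMap E B (w s)) i) (pderiv l (I k).1) /
        eval (fun s => X.ev (algebraMap E B (w s)) i) (I k).1).det) := by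
    rw [← logHeight_comp_equiv (K := k) E']
    congr 1
    funext I'
    rw [a8 I']
    rfl
  rw [hgl] at hsum'
  have hy : (fun a : Option α => X.ev (a.elim 1 fun l => algebraMap E B (w l)) i) =
      fun o : Option α => o.elim 1 fun l => X.ev (algebraMap E B (w l)) i := by
    funext o
    rcases o with _ | l
    · exact a4
    · rfl
  rw [hy]
  simp only [Finset.univ_eq_empty, Finset.sum_empty, finsum_mem_empty, Nat.cast_zero, zero_add, one_mul, add_zero] at hsum'
  linarith

end Pool.Agent.Lib.MP_17a322_nt.FL
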