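import Pool.Agent.Lib.MP_17a322_nt.FQ.T5
import Pool.Agent.Lib.MP_17a322_nt.FQ.Z1
import Pool.Agent.Lib.MP_17a322_nt.FL.L11
import Pool.Agent.Lib.MP_17a322_nt.FL.O1
import Pool.Agent.Lib.MP_17a322_nt.FL.O2
import Pool.Agent.Lib.MP_17a322_nt.FL.O3

universe u

namespace Pool.Agent.Lib.MP_17a322_nt.FL

open Pool.Agent.Lib.MP_17a322_nt.ABN
open Pool.Agent.Lib.MP_17a322_nt.FQ

/-- The degree of the space of the derivations which kill algebraically independent elements is at most
the degree of the space of all derivations, for the heights of an ultrapower. -/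
theorem of_evl {k B E : Type u} [Field k] [NumberField k] [Field B] [Algebra k B] {I : Type} (X : Evl k B I)
    [Field E] [Algebra k E] [Algebra E B] [IsScalarTower k E B] [FiniteDimensional E (Derivation k E E)]
    (hA : ∀ n, ABCForms k n) {z : ℕ} (x : Fin z → E) (hx : IsTranscendenceBasis k x) : Of (X.ht E) := by
  intro l w hw F hF κ _ m hm
  obtain ⟨r, v, hv, hvF, hvT, h0, h1, hρ⟩ := exists_adapted w hw F hF
  obtain ⟨hN, hD⟩ := NT_ne m hm v hv
  obtain ⟨P, M, hP, hM, h⟩ := LS_power w hw z x (alg_closure x hx w) v h0 h1 hρ m hD hN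
  have h2 := lm_le_family X l (Fintype.card_fin l) (hA l) w hw (fun i => v (Sum.inr i)) h1 (NT m v) (DT m v) hN P hP
    M hM h
  have h3 := dg_le_of (X.ht E) m hm v hv h2
  rw [hvF, hvT] at h3
  exact h3

end Pool.Agent.Lib.MP_17a322_nt.FL
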