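import Pool.Agent.Lib.MP_17a322_nt.ABN.Main
import Pool.Agent.Lib.MP_17a322_nt.FL.B14
import Pool.Agent.Lib.MP_17a322_nt.FL.O4
import Pool.Agent.Lib.MP_17a322_nt.FQ.T6
import Pool.Agent.Lib.MP_17a322_nt.FQ.V7
import Pool.Agent.Lib.MP_17a322_nt.FQ.X14
import Pool.Agent.Lib.MP_17a322_nt.FQ.X15
import Pool.Agent.Lib.MP_17a322_nt.FQ.Y1

/-!
Vojta's conjecture over all number fields from its case over the rational numbers: the theorem.
-/

universe u v

namespace Pool.Agent.Lib.MP_17a322_nt.FL

open Pool.Agent.Lib.MP_17a322_nt.EQ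
open Pool.Agent.Lib.MP_17a322_nt.JAC
open Pool.Agent.Lib.MP_17a322_nt.ABN
open Pool.Agent.Lib.MP_17a322_nt.FQ
open Pool.Agent.Lib.MP_17a322_nt.RAT (VojtaGaussRat)

/-- A finitely generated field has a finite transcendence basis. -/
theorem exists_fin_basis {k E : Type*} [Field k] [Field E] [Algebra k E] (hE : (⊤ : IntermediateField k E).FG) :
    ∃ (z : ℕ) (x : Fin z → E), IsTranscendenceBasis k x := by
  obtain ⟨s, hs⟩ := hE
  have h1 : Algebra.IsAlgebraic (Algebra.adjoin k (s : Set E)) E := by
    have h2 : Algebra.IsAlgebraic (IntermediateField.adjoin k (s : Set E)) E := by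
      rw [hs]
      constructor
      intro y
      exact isAlgebraic_algebraMap (⟨y, IntermediateField.mem_top⟩ : (⊤ : IntermediateField k E))
    exact IntermediateField.isAlgebraic_adjoin_iff_top.1 h2
  obtain ⟨t, ht, hb⟩ := exists_isTranscendenceBasis_subset (R := k) (s : Set E)
  have : Finite t := Set.Finite.subset s.finite_toSet ht
  have : Fintype t := Fintype.ofFinite t
  exact ⟨Fintype.card t, _, hb.comp_equiv (Fintype.equivFin t).symm⟩

/-- The theorem on the slopes, for all finitely generated subfields of all big fields over `ℚ`. -/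
theorem semi_of_gauss (h : VojtaGauss ℚ) : SemiQ := by
  intro B _ _ X E _ _ _ _ _ hE κ _ m hm η hη
  obtain ⟨z, x, hx⟩ := exists_fin_basis hE
  have hA : ∀ n, ABCForms ℚ n := (forms_iff_jac ℚ).2 ((abc_iff_gauss ℚ).2.2 h)
  obtain ⟨κ', i', m', h1, h2, h3⟩ := exists_stable (X.ht E) (Vj_evl X h hE) (tens_ht X E) (of_evl X hA x hx) x hx m hm
    η hη
  exact ⟨κ', i', m', h1, h2, h3 m' h1 (fun _ _ => le_rfl)⟩

/-- Vojta's conjecture for `D = 0` over the rational numbers implies it over all number fields. -/
theorem gauss_all (h : VojtaGauss ℚ) (K : Type u) [Field K] [NumberField K] : VojtaGauss K :=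
  gauss_of_aff (jacAff_of_galois (fun L _ _ _ => jac_galois (semi_of_gauss h) L) K)

/-- Vojta's conjecture for `D = 0` over one number field implies it over all number fields. -/
theorem gauss_any (K : Type u) (L : Type v) [Field K] [NumberField K] [Field L] [NumberField L]
    (h : VojtaGauss K) : VojtaGauss L :=
  gauss_all ((abc_iff_gauss ℚ).2.1 (jac_down ((abc_iff_gauss K).2.2 h))) L

/-- The abc inequality for forms over one number field is equivalent to Vojta's conjecture for `D = 0`
and rational varieties over another. -/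
theorem forms_iff_rat (K : Type u) (L : Type v) [Field K] [NumberField K] [Field L] [NumberField L] :
    (∀ n, ABCForms K n) ↔ VojtaGaussRat L := by
  rw [forms_iff_jac K, (abc_iff_gauss K).2, rat_iff_gauss L]
  exact ⟨gauss_any K L, gauss_any L K⟩

/-- Vojta's conjecture for `D = 0` and rational varieties implies all of Vojta's conjecture. -/
theorem all_of_rat {L : Type u} [Field L] [NumberField L] (h : VojtaGaussRat L) (n : ℕ) :
    VojtaTrunc L n ∧ Vojta L n ∧ VojtaGaussDim L n :=
  vojta_of_forms n ((forms_iff_rat L L).2 h n)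

end Pool.Agent.Lib.MP_17a322_nt.FL
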