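import Pool.Agent.Lib.MP_17a322_nt.FL.LDefs
import Pool.Agent.Lib.MP_17a322_nt.JAC.S1a

universe u

namespace Pool.Agent.Lib.MP_17a322_nt.FL

open Pool.Agent.Lib.MP_17a322_nt.JAC (dext)

section

variable {M N α : Type*} [Field M] [CharZero M] [Field N] [Algebra M N]

open scoped IntermediateField.algebraAdjoinAdjoin in
/-- The field is formally etale over the ring generated by a transcendence basis. -/
private theorem L1_etale {y : α → N} (hb : IsTranscendenceBasis M y) :
    Algebra.FormallyEtale (Algebra.adjoin M (Set.range y)) N := by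
  have h0 : CharZero (IntermediateField.adjoin M (Set.range y)) :=
    charZero_of_injective_algebraMap
      (algebraMap M (IntermediateField.adjoin M (Set.range y))).injective
  have h1 : Algebra.FormallyEtale (Algebra.adjoin M (Set.range y))
      (IntermediateField.adjoin M (Set.range y)) :=
    .of_isLocalization (nonZeroDivisors _)
  have h2 := hb.isAlgebraic_field
  have h3 : Algebra.FormallyEtale (IntermediateField.adjoin M (Set.range y)) N :=
    Algebra.FormallyEtale.of_isSeparable _ N
  exact .comp _ (IntermediateField.adjoin M (Set.range y)) _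

/-- Derivations with prescribed values on a transcendence basis. -/
private theorem L1_exists {y : α → N} (hb : IsTranscendenceBasis M y) (w : α → N) :
    ∃ δ : Derivation M N N, ∀ l, δ (y l) = w l := by
  classical
  have := L1_etale hb
  let e := hb.1.aevalEquiv
  have he : ∀ l : α, e.symm ⟨y l, Algebra.subset_adjoin ⟨l, rfl⟩⟩ = MvPolynomial.X l := by
    intro l
    rw [AlgEquiv.symm_apply_eq]
    apply Subtype.ext
    rw [hb.1.aevalEquiv_apply_coe]
    simp
  let _ : Module (MvPolynomial α M) N := Module.compHom N (MvPolynomial.aeval y).toRingHom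
  have hsm : ∀ (q : MvPolynomial α M) (z : N), q • z = MvPolynomial.aeval y q * z :=
    fun _ _ => rfl
  have _ : IsScalarTower M (MvPolynomial α M) N := by
    constructor
    intro a q z
    rw [hsm, hsm, map_smul, smul_mul_assoc]
  let D₀ : Derivation M (MvPolynomial α M) N := MvPolynomial.mkDerivation M w
  let D : Derivation M (Algebra.adjoin M (Set.range y)) N :=
    Derivation.mk' (D₀.toLinearMap.comp e.symm.toLinearMap) (by
      intro a b
      show D₀ (e.symm (a * b)) = a • D₀ (e.symm b) + b • D₀ (e.symm a)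
      rw [map_mul, D₀.leibniz, hsm, hsm, ← hb.1.aevalEquiv_apply_coe, ← hb.1.aevalEquiv_apply_coe]
      show (e (e.symm a) : N) * _ + (e (e.symm b) : N) * _ = _
      rw [e.apply_symm_apply, e.apply_symm_apply]
      rfl)
  obtain ⟨δ, hδ⟩ := dext (S := N) D
  refine ⟨δ, fun l => ?_⟩
  have h1 := hδ ⟨y l, Algebra.subset_adjoin ⟨l, rfl⟩⟩
  have h2 : algebraMap (Algebra.adjoin M (Set.range y)) N
      ⟨y l, Algebra.subset_adjoin ⟨l, rfl⟩⟩ = y l := rfl
  rw [h2] at h1
  rw [h1]
  show D₀ (e.symm ⟨y l, Algebra.subset_adjoin ⟨l, rfl⟩⟩) = w l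
  rw [he l]
  show MvPolynomial.mkDerivation M w (MvPolynomial.X l) = w l
  rw [MvPolynomial.mkDerivation_X]

/-- A derivation over `M` with the value one at a transcendental element. -/
private theorem L1_one (s : N) (hs : ¬ IsAlgebraic M s) : ∃ δ : Derivation M N N, δ s = 1 := by
  classical
  have h1 : AlgebraicIndepOn M id ({s} : Set N) := by
    have h2 : Transcendental M s := hs
    exact (algebraicIndependent_unique_type_iff (R := M) (x := fun i : ({s} : Set N) => id (i : N))).2
      (by
        have h3 : ((default : ({s} : Set N)) : N) = s := (default : ({s} : Set N)).2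
        change Transcendental M ((default : ({s} : Set N)) : N)
        rw [h3]
        exact h2)
  obtain ⟨t, hst, ht⟩ := exists_isTranscendenceBasis_superset h1
  obtain ⟨δ, hδ⟩ := L1_exists ht (fun _ => 1)
  exact ⟨δ, hδ ⟨s, hst rfl⟩⟩

end

/-- Every derivation can be changed outside `L` so that it vanishes at a given element which is
transcendental over `L`. -/
theorem good_single (K : Type u) {Ω : Type u} [Field K] [CharZero K] [Field Ω] [Algebra K Ω] (L : Subfield Ω)
    (hK : ∀ c : K, algebraMap K Ω c ∈ L) (s : Ω) (hs : ¬ IsAlgebraic L s) : Good K L {s} := by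
  intro D₀
  have hc : CharZero Ω := charZero_of_injective_algebraMap (algebraMap K Ω).injective
  have hcL : CharZero L := by
    constructor
    intro a b h
    have h1 : ((a : ℕ) : Ω) = ((b : ℕ) : Ω) := congrArg (fun z : L => (z : Ω)) h
    exact Nat.cast_injective h1
  obtain ⟨δ, hδ⟩ := L1_one (M := L) s hs
  have h0 : ∀ z ∈ L, δ z = 0 := fun z hz => δ.map_algebraMap (⟨z, hz⟩ : L)
  let δ' : Derivation K Ω Ω := Derivation.mk'
    { toFun := fun z => δ z
      map_add' := fun a b => map_add δ a b
      map_smul' := fun c z => by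
        rw [Algebra.smul_def, δ.leibniz, h0 _ (hK c), smul_zero, add_zero, RingHom.id_apply,
          algebraMap_smul] }
    (fun a b => δ.leibniz a b)
  have h1 : ∀ z, δ' z = δ z := fun _ => rfl
  refine ⟨D₀ - D₀ s • δ', fun z hz => ?_, fun z hz => ?_⟩
  · rw [Derivation.sub_apply, Derivation.smul_apply, h1, h0 z hz, smul_zero, sub_zero]
  · rw [Set.mem_singleton_iff] at hz
    rw [hz, Derivation.sub_apply, Derivation.smul_apply, h1, hδ, smul_eq_mul, mul_one, sub_self]

/-- The property `Good` in a tower. -/
theorem good_trans (K : Type u) {Ω : Type u} [Field K] [Field Ω] [Algebra K Ω] (L L' : Subfield Ω) (hL : L ≤ L') (S S' : Set Ω)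
    (hS : S ⊆ (L' : Set Ω)) (h : Good K L S) (h' : Good K L' S') : Good K L (S ∪ S') := by
  intro D₀
  obtain ⟨D₁, h1, h2⟩ := h D₀
  obtain ⟨D₂, h3, h4⟩ := h' D₁
  refine ⟨D₂, fun z hz => ?_, fun s hs => ?_⟩
  · rw [h3 z (hL hz), h1 z hz]
  · rcases hs with hs | hs
    · rw [h3 s (hS hs), h2 s hs]
    · exact h4 s hs

/-- A derivation of `E` over `K` extends to every algebraic extension. -/
theorem deriv_ext {K E Ω : Type u} [Field K] [CharZero K] [Field E] [Field Ω] [Algebra K E] [Algebra K Ω] [Algebra E Ω]
    [IsScalarTower K E Ω] (halg : ∀ z : Ω, IsAlgebraic E z) (δ : Derivation K E E) :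
    ∃ D : Derivation K Ω Ω, ∀ f : E, D (algebraMap E Ω f) = algebraMap E Ω (δ f) := by
  have hE : CharZero E := charZero_of_injective_algebraMap (algebraMap K E).injective
  have halg' : Algebra.IsAlgebraic E Ω := ⟨halg⟩
  have hsep : Algebra.FormallyEtale E Ω := Algebra.FormallyEtale.of_isSeparable E Ω
  obtain ⟨D, hD⟩ := dext (S := Ω) ((Algebra.linearMap E Ω).compDer δ)
  exact ⟨D, fun f => hD f⟩

end Pool.Agent.Lib.MP_17a322_nt.FL
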