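import Pool.Agent.Lib.MP_17a322_nt.ABN.N12

universe u

namespace Pool.Agent.Lib.MP_17a322_nt.FL

open Pool.Agent.Lib.MP_17a322_nt.JAC
open Pool.Agent.Lib.MP_17a322_nt.ABN

/-- A matrix whose rows are unit vectors of the first block or vectors supported in the second block:
its determinant is up to the sign a determinant of vectors of the second kind. -/
private theorem L9_block {E ι ρ α : Type*} [Field E] [Fintype ρ] [DecidableEq ρ] [Fintype α] [DecidableEq α]
    (ω : ι → α → E) (w : ρ ⊕ α → ρ ⊕ α → E) (y : ρ ⊕ α → ρ ⊕ ι)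
    (hy : ∀ a, w a = Sum.elim (fun i : ρ => (Sum.elim (Pi.single i 1) 0 : ρ ⊕ α → E))
      (fun t : ι => (Sum.elim 0 (ω t) : ρ ⊕ α → E)) (y a))
    (hw : (Matrix.of w).det ≠ 0) :
    ∃ (t : α → ι) (ε : ℤˣ), (Matrix.of w).det = (ε : ℤ) * (Matrix.of fun l l' => ω (t l) l').det := by
  classical
  have h1 : ∀ i : ρ, ∃ a, y a = Sum.inl i := by
    intro i
    by_contra h
    push Not at h
    apply hw
    refine Matrix.det_eq_zero_of_column_eq_zero (Sum.inl i) fun a => ?_
    rw [Matrix.of_apply, hy a]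
    rcases hya : y a with i' | t
    · have h2 : i ≠ i' := by
        rintro rfl
        exact h a hya
      simp only [Sum.elim_inl]
      rw [Pi.single_apply, if_neg h2]
    · simp only [Sum.elim_inr, Sum.elim_inl, Pi.zero_apply]
  choose h hh using h1
  have hinj : Function.Injective h := by
    intro i i' hi
    have h2 := hh i
    rw [hi, hh i'] at h2
    exact (Sum.inl_injective h2).symm
  let e : {x : ρ ⊕ α // x ∈ Set.range (Sum.inl : ρ → ρ ⊕ α)} ≃ {x : ρ ⊕ α // x ∈ Set.range h} :=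
    (Equiv.ofInjective _ Sum.inl_injective).symm.trans (Equiv.ofInjective h hinj)
  let π : Equiv.Perm (ρ ⊕ α) := e.extendSubtype
  have hπ : ∀ i : ρ, π (Sum.inl i) = h i := by
    intro i
    have h2 := e.extendSubtype_apply_of_mem (Sum.inl i) ⟨i, rfl⟩
    rw [show π (Sum.inl i) = _ from h2]
    have h3 : (⟨Sum.inl i, ⟨i, rfl⟩⟩ : {x : ρ ⊕ α // x ∈ Set.range (Sum.inl : ρ → ρ ⊕ α)}) =
        Equiv.ofInjective _ Sum.inl_injective i := rfl
    rw [h3]
    simp only [e, Equiv.trans_apply, Equiv.ofInjective_apply]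
    rw [h3, Equiv.symm_apply_apply]
  have hM : (Matrix.of w).submatrix π id = Matrix.fromBlocks (1 : Matrix ρ ρ E) 0
      (Matrix.of fun l k => w (π (Sum.inr l)) (Sum.inl k))
      (Matrix.of fun l l' => w (π (Sum.inr l)) (Sum.inr l')) := by
    ext a b
    rcases a with i | l
    · rw [Matrix.submatrix_apply, Matrix.of_apply, hπ, hy, hh]
      rcases b with k | l'
      · simp only [Sum.elim_inl, id, Matrix.fromBlocks_apply₁₁, Matrix.one_apply, Pi.single_apply]
        by_cases hik : i = k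
        · rw [if_pos hik, if_pos hik.symm]
        · rw [if_neg hik, if_neg (Ne.symm hik)]
      · simp only [Sum.elim_inl, Sum.elim_inr, id, Matrix.fromBlocks_apply₁₂, Matrix.zero_apply,
          Pi.zero_apply]
    · rcases b with k | l' <;> rfl
  have hd := Matrix.det_permute π (Matrix.of w)
  rw [hM, Matrix.det_fromBlocks_zero₁₂, Matrix.det_one, one_mul] at hd
  have h2 : (Matrix.of fun l l' => w (π (Sum.inr l)) (Sum.inr l')).det ≠ 0 := by
    rw [hd]
    refine mul_ne_zero ?_ hw
    rcases Int.units_eq_one_or (Equiv.Perm.sign π) with h3 | h3 <;> rw [h3] <;> simp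
  have h3 : ∀ l : α, ∃ t : ι, y (π (Sum.inr l)) = Sum.inr t := by
    intro l
    rcases h4 : y (π (Sum.inr l)) with i | t
    · exfalso
      apply h2
      refine Matrix.det_eq_zero_of_row_eq_zero l fun l' => ?_
      rw [Matrix.of_apply, hy, h4]
      simp only [Sum.elim_inl, Sum.elim_inr, Pi.zero_apply]
    · exact ⟨t, rfl⟩
  choose t ht using h3
  refine ⟨t, Equiv.Perm.sign π, ?_⟩
  have h4 : (Matrix.of fun l l' => ω (t l) l') =
      (Matrix.of fun l l' => w (π (Sum.inr l)) (Sum.inr l') : Matrix α α E) := by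
    ext l l'
    rw [Matrix.of_apply, Matrix.of_apply, hy, ht]
    rfl
  rw [h4, hd, ← mul_assoc]
  have h5 : ((Equiv.Perm.sign π : ℤ) : E) * ((Equiv.Perm.sign π : ℤ) : E) = 1 := by
    rcases Int.units_eq_one_or (Equiv.Perm.sign π) with h3 | h3 <;> rw [h3] <;> simp
  rw [h5, one_mul]

/-- Minors adapted to a subspace. `Φ j` is the vector of the values of a linear form on a basis
`ρ ⊕ α`; the first part `ρ` of the basis spans the subspace. -/
theorem adapted {E ι ρ α : Type*} [Field E] [Fintype ρ] [DecidableEq ρ] [Fintype α] [DecidableEq α] (A : ValuationSubring E)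
    (Φ : ι → ρ ⊕ α → E) (j' : ρ → ι) (hj' : (Matrix.of fun i k => Φ (j' i) (Sum.inl k)).det ≠ 0)
    (hmax : ∀ t : ρ → ι, A.valuation (Matrix.of fun i k => Φ (t i) (Sum.inl k)).det ≤
      A.valuation (Matrix.of fun i k => Φ (j' i) (Sum.inl k)).det) :
    ∃ c : ι → ρ → E, (∀ j i, c j i ∈ A) ∧ (∀ j k, Φ j (Sum.inl k) = ∑ i, c j i * Φ (j' i) (Sum.inl k)) ∧
      ∀ s : ρ ⊕ α → ι, ∃ t : α → ι, A.valuation (Matrix.of fun a b => Φ (s a) b).det ≤
        A.valuation (Matrix.of fun i k => Φ (j' i) (Sum.inl k)).det *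
          A.valuation (Matrix.of fun l l' => Φ (t l) (Sum.inr l') - ∑ i, c (t l) i * Φ (j' i) (Sum.inr l')).det := by
  classical
  obtain ⟨B, hB⟩ : ∃ B : Matrix ρ ρ E, B = Matrix.of fun i k => Φ (j' i) (Sum.inl k) := ⟨_, rfl⟩
  rw [← hB] at hj'
  have hunit : IsUnit B.det := isUnit_iff_ne_zero.2 hj'
  obtain ⟨c, hc⟩ : ∃ c : ι → ρ → E, ∀ j, Matrix.vecMul (c j) B = fun k => Φ j (Sum.inl k) := by
    refine ⟨fun j => Matrix.vecMul (fun k => Φ j (Sum.inl k)) B⁻¹, fun j => ?_⟩
    rw [Matrix.vecMul_vecMul, Matrix.nonsing_inv_mul _ hunit, Matrix.vecMul_one]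
  have hc2 : ∀ j k, Φ j (Sum.inl k) = ∑ i, c j i * Φ (j' i) (Sum.inl k) := by
    intro j k
    have h1 := congrFun (hc j) k
    rw [← h1, Matrix.vecMul, dotProduct]
    refine Finset.sum_congr rfl fun i _ => ?_
    rw [hB, Matrix.of_apply]
  have hc1 : ∀ j i, c j i ∈ A := by
    intro j i
    have h1 : (B.updateRow i (∑ i', c j i' • B i')).det = c j i • B.det := Matrix.det_updateRow_sum B i (c j)
    have h2 : B.updateRow i (∑ i', c j i' • B i') =
        Matrix.of fun a k => Φ (Function.update j' i j a) (Sum.inl k) := by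
      ext a k
      by_cases ha : a = i
      · subst ha
        rw [Matrix.updateRow_self, Matrix.of_apply, Function.update_self, hc2 j k, Finset.sum_apply]
        refine Finset.sum_congr rfl fun i' _ => ?_
        rw [Pi.smul_apply, smul_eq_mul, hB, Matrix.of_apply]
      · rw [Matrix.updateRow_ne ha, Matrix.of_apply, Function.update_of_ne ha, hB, Matrix.of_apply]
    have h3 := hmax (Function.update j' i j)
    rw [← h2, h1, ← hB, smul_eq_mul, map_mul] at h3
    rw [← ValuationSubring.valuation_le_one_iff]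
    have h4 : 0 < A.valuation B.det := zero_lt_iff.2 ((map_ne_zero _).2 hj')
    exact (mul_le_iff_le_one_left h4).1 h3
  refine ⟨c, hc1, hc2, fun s => ?_⟩
  rw [← hB]
  rcases isEmpty_or_nonempty (ρ ⊕ α) with he | hne
  · have : IsEmpty α := ⟨fun l => he.false (Sum.inr l)⟩
    have : IsEmpty ρ := ⟨fun l => he.false (Sum.inl l)⟩
    refine ⟨fun l => isEmptyElim l, ?_⟩
    rw [Matrix.det_isEmpty, Matrix.det_isEmpty, Matrix.det_isEmpty, map_one, one_mul]
  obtain ⟨ω, hω⟩ : ∃ ω : ι → α → E, ω = fun t l' => Φ t (Sum.inr l') - ∑ i, c t i * Φ (j' i) (Sum.inr l') :=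
    ⟨_, rfl⟩
  obtain ⟨r, hr⟩ : ∃ r : ρ ⊕ α → ρ ⊕ α → E, r = fun a => Sum.elim (c (s a)) (ω (s a)) := ⟨_, rfl⟩
  obtain ⟨g, hg⟩ : ∃ g : ρ ⊕ ι → ρ ⊕ α → E, g =
      Sum.elim (fun i : ρ => (Sum.elim (Pi.single i 1) 0 : ρ ⊕ α → E))
        (fun t : ι => (Sum.elim 0 (ω t) : ρ ⊕ α → E)) := ⟨_, rfl⟩
  have hfac : (Matrix.of fun a b => Φ (s a) b) = Matrix.of r *
      Matrix.fromBlocks B (Matrix.of fun i l => Φ (j' i) (Sum.inr l)) 0 1 := by
    ext a b
    rw [Matrix.of_apply, Matrix.mul_apply, Fintype.sum_sum_type, hr]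
    rcases b with k | l'
    · simp only [Matrix.of_apply, Sum.elim_inl, Sum.elim_inr, Matrix.fromBlocks_apply₁₁,
        Matrix.fromBlocks_apply₂₁, Matrix.zero_apply, mul_zero, Finset.sum_const_zero, add_zero]
      rw [hc2]
      refine Finset.sum_congr rfl fun i _ => ?_
      rw [hB, Matrix.of_apply]
    · simp only [Matrix.of_apply, Sum.elim_inl, Sum.elim_inr, Matrix.fromBlocks_apply₁₂,
        Matrix.fromBlocks_apply₂₂]
      have h1 : ∑ x, ω (s a) x * (1 : Matrix α α E) x l' = ω (s a) l' := by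
        rw [Finset.sum_eq_single l']
        · rw [Matrix.one_apply_eq, mul_one]
        · intro x _ hx
          rw [Matrix.one_apply_ne hx, mul_zero]
        · intro hx
          exact absurd (Finset.mem_univ _) hx
      rw [h1, hω]
      ring
  have hdet : (Matrix.of fun a b => Φ (s a) b).det = (Matrix.of r).det * B.det := by
    rw [hfac, Matrix.det_mul, Matrix.det_fromBlocks_zero₂₁, Matrix.det_one, mul_one]
  have hspan : ∀ a, r a ∈ spn A (Set.range g) := by
    intro a
    have h1 : r a = ∑ i, c (s a) i • g (Sum.inl i) + g (Sum.inr (s a)) := by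
      funext b
      rw [Pi.add_apply, Finset.sum_apply, hr, hg]
      rcases b with k | l'
      · simp only [Sum.elim_inl, Sum.elim_inr, Pi.smul_apply, Pi.zero_apply, add_zero, smul_eq_mul]
        rw [Finset.sum_eq_single k]
        · rw [Pi.single_eq_same, mul_one]
        · intro x _ hx
          rw [Pi.single_eq_of_ne (Ne.symm hx), mul_zero]
        · intro hx
          exact absurd (Finset.mem_univ _) hx
      · simp only [Sum.elim_inl, Sum.elim_inr, Pi.smul_apply, Pi.zero_apply, smul_zero,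
          Finset.sum_const_zero, zero_add]
    rw [h1]
    refine AddSubgroup.add_mem _ (AddSubgroup.sum_mem _ fun i _ => ?_) (mem_spn A _ ⟨_, rfl⟩)
    exact subset_spn A _ (hc1 _ _) ⟨_, rfl⟩
  obtain ⟨w, hw, hle⟩ := det_spn A (Set.range g) ⟨g (Sum.inr (s hne.some)), ⟨_, rfl⟩⟩ r hspan
  choose y hy using hw
  have hle2 : A.valuation (Matrix.of fun a b => Φ (s a) b).det ≤
      A.valuation B.det * A.valuation (Matrix.of w).det := by
    rw [hdet, map_mul, mul_comm]
    exact mul_le_mul' le_rfl hle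
  by_cases hw0 : (Matrix.of w).det = 0
  · refine ⟨fun _ => s hne.some, le_trans hle2 ?_⟩
    rw [hw0, map_zero, mul_zero]
    exact zero_le
  · obtain ⟨t, ε, ht⟩ := L9_block ω w y (fun a => by rw [← hy a, hg]) hw0
    refine ⟨t, le_trans hle2 ?_⟩
    rw [ht, map_mul]
    have h1 : A.valuation ((ε : ℤ) : E) = 1 := by
      rcases Int.units_eq_one_or ε with h3 | h3
      · rw [h3]
        simp
      · rw [h3]
        simp
    rw [h1, one_mul, hω]

end Pool.Agent.Lib.MP_17a322_nt.FL
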