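import Pool.Agent.Lib.MP_17a322_nt.FL.L7
import Pool.Agent.Lib.MP_17a322_nt.FL.L9
import Pool.Agent.Lib.MP_17a322_nt.FL.LM

universe u

namespace Pool.Agent.Lib.MP_17a322_nt.FL

open MvPolynomial
open Pool.Agent.Lib.MP_17a322_nt.JAC
open Pool.Agent.Lib.MP_17a322_nt.ABN

private theorem L10_psi {K E ι : Type*} [Field K] [Field E] [Algebra K E] (m y : ι → E) (e : E)
    (hm : ∀ j, m j = e * y j) (D : Derivation K E E) (p : ι × ι) :
    psi m D p = e ^ 2 * (y p.1 * D (y p.2) - y p.2 * D (y p.1)) := by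
  have h : ∀ j, D (m j) = e * D (y j) + y j * D e := by
    intro j
    rw [hm j, Derivation.leibniz, smul_eq_mul, smul_eq_mul]
  unfold psi
  rw [h, h, hm p.1, hm p.2]
  ring

private theorem L10_psi1 {K E ι : Type*} [Field K] [Field E] [Algebra K E] (m y : ι → E) (i₁ : ι)
    (hm : ∀ j, m j = m i₁ * y j) (D : Derivation K E E) (j : ι) :
    psi m D (i₁, j) = m i₁ ^ 2 * D (y j) := by
  have h : D (m j) = m i₁ * D (y j) + y j * D (m i₁) := by
    rw [hm j, Derivation.leibniz, smul_eq_mul, smul_eq_mul]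
  change m i₁ * D (m j) - m j * D (m i₁) = _
  rw [h, hm j]
  ring

private theorem L10_det {E β : Type*} [Field E] [Fintype β] [DecidableEq β] (e : E) (M : β → β → E) :
    (Matrix.of fun a b => e ^ 2 * M a b).det = e ^ (2 * Fintype.card β) * (Matrix.of M).det := by
  have h : (Matrix.of fun a b => e ^ 2 * M a b) = (e ^ 2) • Matrix.of M := by
    ext a b
    rw [Matrix.smul_apply, Matrix.of_apply, Matrix.of_apply, smul_eq_mul]
  rw [h, Matrix.det_smul, ← pow_mul]

private theorem L10_minor {K E ι β : Type*} [Field K] [Field E] [Algebra K E] [Fintype β] [DecidableEq β]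
    (m y : ι → E) (e : E) (hm : ∀ j, m j = e * y j) (hι : Nonempty ι) (A : ValuationSubring E)
    (hy : ∀ j, y j ∈ A) (u : β → Derivation K E E) (s : β → ι × ι) :
    ∃ t : β → ι, A.valuation (Matrix.of fun a b => psi m (u b) (s a)).det ≤
      A.valuation e ^ (2 * Fintype.card β) * A.valuation (Matrix.of fun a b => u b (y (t a))).det := by
  obtain ⟨w, hw, hle⟩ := det_spn A (Set.range fun j : ι => fun b : β => u b (y j)) (Set.range_nonempty _)
    (fun a b => y (s a).1 * u b (y (s a).2) - y (s a).2 * u b (y (s a).1)) (by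
      intro a
      have h1 := smul_mem_spn A (Set.range fun j : ι => fun b : β => u b (y j)) (hy (s a).1)
        (mem_spn A (Set.range fun j : ι => fun b : β => u b (y j)) ⟨(s a).2, rfl⟩)
      have h2 := smul_mem_spn A (Set.range fun j : ι => fun b : β => u b (y j)) (hy (s a).2)
        (mem_spn A (Set.range fun j : ι => fun b : β => u b (y j)) ⟨(s a).1, rfl⟩)
      exact sub_mem h1 h2)
  choose t ht using hw
  refine ⟨t, ?_⟩
  have h3 : (Matrix.of fun a b => psi m (u b) (s a)) =
      Matrix.of fun a b => e ^ 2 * (y (s a).1 * u b (y (s a).2) - y (s a).2 * u b (y (s a).1)) := by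
    ext a b
    rw [Matrix.of_apply, Matrix.of_apply, L10_psi m y e hm]
  have h4 : w = fun a b => u b (y (t a)) := by
    funext a
    exact (ht a).symm
  rw [h3, L10_det, map_mul, map_pow]
  rw [h4] at hle
  exact mul_le_mul_right hle _

private theorem L10_sum {K E ρ : Type*} [Field K] [Field E] [Algebra K E] [Fintype ρ] (c : ρ → E)
    (u : ρ → Derivation K E E) (z : E) : (∑ i, c i • u i) z = ∑ i, c i * u i z := by
  have h := congrFun (map_sum (Derivation.coeFnAddMonoidHom (R := K) (A := E) (M := E)) (fun i => c i • u i)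
    Finset.univ) z
  have h1 : (∑ i, c i • u i) z = (∑ i, Derivation.coeFnAddMonoidHom (c i • u i)) z := h
  rw [h1, Finset.sum_apply]
  refine Finset.sum_congr rfl fun i _ => ?_
  change (c i • u i) z = _
  rw [Derivation.smul_apply, smul_eq_mul]

private theorem L10_idx {K E : Type u} {α ρ ι : Type} [Field K] [CharZero K] [Field E] [Algebra K E] [Fintype α]
    [DecidableEq α] [Fintype ρ] [DecidableEq ρ] [Fintype ι] (w : α → E) (hw : AlgebraicIndependent K w) (r : ℕ)
    (x : Fin r → E) (hx : ∀ z : E, IsAlgebraic (Subfield.closure ((F0 K w : Set E) ∪ Set.range x)) z)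
    (v : ρ ⊕ α → Derivation K E E)
    (hv1 : ∀ l l', v (Sum.inr l) (w l') = if l = l' then 1 else 0)
    (hρ : ∀ D : Derivation K E E, (∀ l, D (w l) = 0) → ∃ c : ρ → E, D = ∑ i, c i • v (Sum.inl i))
    (m : ι → E) (hD : ∃ p, DT m v p ≠ 0) (A : ValuationSubring E) (hA : ∀ c : K, algebraMap K E c ∈ A)
    (s : ρ ⊕ α → ι × ι) :
    ∃ (k : ι × (ρ → ι × ι)) (b : α → E), (∀ j, b j ∈ F0 K w ∧ b j ≠ 0) ∧
      A.valuation (NT m v s) ≤ A.valuation (DT m v k * GG (fun l => v (Sum.inr l)) b) ∧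
      ((∃ f ∈ F0 K w, f ≠ 0 ∧ ¬ Un A f) →
        A.valuation (NT m v s) < A.valuation (DT m v k * GG (fun l => v (Sum.inr l)) b)) := by
  classical
  obtain ⟨p, hp⟩ := hD
  have : Nonempty ι := ⟨p.1⟩
  obtain ⟨i₁, hi₁⟩ := Finite.exists_max fun i => A.valuation (m i)
  have hmy : ∀ j, m j = m i₁ * (m j / m i₁) := by
    intro j
    by_cases h0 : m i₁ = 0
    · have h1 := hi₁ j
      rw [h0, map_zero] at h1
      have h2 : m j = 0 := (map_eq_zero A.valuation).mp (le_zero_iff.mp h1)
      rw [h2, h0, zero_mul]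
    · rw [mul_div_cancel₀ _ h0]
  have hy : ∀ j, m j / m i₁ ∈ A := by
    intro j
    by_cases h0 : m i₁ = 0
    · rw [h0, div_zero]
      exact A.zero_mem
    · rw [← A.valuation_le_one_iff, map_div₀]
      exact div_le_one_of_le₀ (hi₁ j) zero_le
  obtain ⟨y, hyd⟩ : ∃ y : ι → E, y = fun j => m j / m i₁ := ⟨_, rfl⟩
  have hm : ∀ j, m j = m i₁ * y j := by
    intro j
    rw [hyd]
    exact hmy j
  have hyA : ∀ j, y j ∈ A := by
    intro j
    rw [hyd]
    exact hy j
  obtain ⟨j', hj'⟩ := Finite.exists_max fun t : ρ → ι =>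
    A.valuation (Matrix.of fun i k => v (Sum.inl k) (y (t i))).det
  obtain ⟨t₀, ht₀⟩ := L10_minor m y (m i₁) hm ⟨i₁⟩ A hyA (fun k : ρ => v (Sum.inl k)) p.2
  have hp2 : A.valuation (DT m v p) ≠ 0 := (map_ne_zero A.valuation).mpr hp
  have hp3 : A.valuation (DT m v p) ≤ A.valuation (m i₁) ^ (2 * Fintype.card α) *
      (A.valuation (m i₁) ^ (2 * Fintype.card ρ) *
        A.valuation (Matrix.of fun a b => v (Sum.inl b) (y (t₀ a))).det) := by
    unfold DT
    rw [map_mul, map_pow]
    exact mul_le_mul' (pow_le_pow_left' (hi₁ p.1) _) ht₀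
  have hne : A.valuation (m i₁) ^ (2 * Fintype.card α) *
      (A.valuation (m i₁) ^ (2 * Fintype.card ρ) *
        A.valuation (Matrix.of fun a b => v (Sum.inl b) (y (t₀ a))).det) ≠ 0 := by
    intro h0
    rw [h0] at hp3
    exact hp2 (le_zero_iff.mp hp3)
  have hne1 : A.valuation (m i₁) ^ (2 * Fintype.card α) ≠ 0 := left_ne_zero_of_mul hne
  have hne2 : A.valuation (m i₁) ^ (2 * Fintype.card ρ) ≠ 0 := left_ne_zero_of_mul (right_ne_zero_of_mul hne)
  have hne3 : A.valuation (Matrix.of fun a b => v (Sum.inl b) (y (t₀ a))).det ≠ 0 :=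
    right_ne_zero_of_mul (right_ne_zero_of_mul hne)
  have hne4 : A.valuation (Matrix.of fun a b => v (Sum.inl b) (y (j' a))).det ≠ 0 := by
    intro h0
    have h1 := hj' t₀
    rw [h0] at h1
    exact hne3 (le_zero_iff.mp h1)
  obtain ⟨c, hc, hc2, hc3⟩ := adapted A (fun j b => v b (y j)) j'
    (by
      intro h0
      apply hne4
      rw [h0, map_zero]) hj'
  obtain ⟨s', hs'⟩ := L10_minor m y (m i₁) hm ⟨i₁⟩ A hyA v s
  obtain ⟨t, ht⟩ := hc3 s'
  have hsum : ∀ (D : Derivation K E E) (l : α),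
      ∑ k, ((if k = t l then 1 else 0) - ∑ i, if j' i = k then c (t l) i else 0) * D (y k) =
        D (y (t l)) - ∑ i, c (t l) i * D (y (j' i)) := by
    intro D l
    have e1 : ∀ k : ι, ((if k = t l then 1 else 0) - ∑ i, if j' i = k then c (t l) i else 0) * D (y k) =
        (if k = t l then D (y k) else 0) - ∑ i, if j' i = k then c (t l) i * D (y k) else 0 := by
      intro k
      rw [sub_mul, ite_mul, one_mul, zero_mul, Finset.sum_mul]
      congr 1
      refine Finset.sum_congr rfl fun i _ => ?_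
      rw [ite_mul, zero_mul]
    rw [Finset.sum_congr rfl fun k _ => e1 k, Finset.sum_sub_distrib, Finset.sum_comm]
    rw [Finset.sum_ite_eq' Finset.univ (t l) fun k => D (y k), if_pos (Finset.mem_univ _)]
    congr 1
    refine Finset.sum_congr rfl fun i _ => ?_
    rw [Finset.sum_ite_eq Finset.univ (j' i) fun k => c (t l) i * D (y k), if_pos (Finset.mem_univ _)]
  obtain ⟨b, hb, hb1, hb2⟩ := LS_core w hw r x hx (fun l => v (Sum.inr l)) hv1 A hA y hyA
    (fun l k => (if k = t l then 1 else 0) - ∑ i, if j' i = k then c (t l) i else 0)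
    (by
      intro l k
      refine sub_mem ?_ ?_
      · split_ifs
        · exact A.one_mem
        · exact A.zero_mem
      · refine sum_mem fun i _ => ?_
        split_ifs
        · exact hc _ _
        · exact A.zero_mem)
    (by
      intro D hDw l
      rw [hsum D l]
      obtain ⟨c', hc'⟩ := hρ D hDw
      have e2 : ∀ z : E, D z = ∑ i, c' i * v (Sum.inl i) z := by
        intro z
        rw [hc', L10_sum]
      rw [e2 (y (t l))]
      have e3 : ∀ i, v (Sum.inl i) (y (t l)) = ∑ i', c (t l) i' * v (Sum.inl i) (y (j' i')) :=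
        fun i => hc2 (t l) i
      have e4 : ∑ i, c (t l) i * D (y (j' i)) = ∑ i, ∑ i', c (t l) i * (c' i' * v (Sum.inl i') (y (j' i))) := by
        refine Finset.sum_congr rfl fun i _ => ?_
        rw [e2, Finset.mul_sum]
      rw [e4, Finset.sum_comm, ← Finset.sum_sub_distrib]
      refine Finset.sum_eq_zero fun i _ => ?_
      rw [e3 i, Finset.mul_sum, sub_eq_zero]
      refine Finset.sum_congr rfl fun i' _ => ?_
      ring)
  have hdet : (Matrix.of fun j l => ∑ k, ((if k = t j then 1 else 0) - ∑ i, if j' i = k then c (t j) i else 0) *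
      v (Sum.inr l) (y k)).det =
      (Matrix.of fun l l' => v (Sum.inr l') (y (t l)) - ∑ i, c (t l) i * v (Sum.inr l') (y (j' i))).det := by
    congr 1
    ext l l'
    rw [Matrix.of_apply, Matrix.of_apply, hsum]
  have hDT : A.valuation (DT m v (i₁, fun a => (i₁, j' a))) =
      A.valuation (m i₁) ^ (2 * Fintype.card (ρ ⊕ α)) *
        A.valuation (Matrix.of fun a b => v (Sum.inl b) (y (j' a))).det := by
    unfold DT
    have e5 : (Matrix.of fun a b => psi m (v (Sum.inl b)) (i₁, j' a)) =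
        Matrix.of fun (a b : ρ) => m i₁ ^ 2 * v (Sum.inl b) (y (j' a)) := by
      ext a b
      exact L10_psi1 m y i₁ hm (v (Sum.inl b)) (j' a)
    change A.valuation (m i₁ ^ (2 * Fintype.card α) * (Matrix.of fun a b => psi m (v (Sum.inl b)) (i₁, j' a)).det) = _
    rw [e5, L10_det (m i₁) fun a b : ρ => v (Sum.inl b) (y (j' a)), map_mul, map_mul, map_pow, map_pow, ← mul_assoc,
      ← pow_add, Fintype.card_sum, mul_add, add_comm (2 * Fintype.card ρ)]
  have hne5 : A.valuation (m i₁) ^ (2 * Fintype.card (ρ ⊕ α)) *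
      A.valuation (Matrix.of fun a b => v (Sum.inl b) (y (j' a))).det ≠ 0 := by
    refine mul_ne_zero ?_ hne4
    rw [Fintype.card_sum, mul_add, pow_add]
    exact mul_ne_zero hne2 hne1
  rw [hdet] at hb1 hb2
  have hfin : A.valuation (NT m v s) ≤ A.valuation (m i₁) ^ (2 * Fintype.card (ρ ⊕ α)) *
      A.valuation (Matrix.of fun a b => v (Sum.inl b) (y (j' a))).det *
        A.valuation (Matrix.of fun l l' => v (Sum.inr l') (y (t l)) - ∑ i, c (t l) i * v (Sum.inr l') (y (j' i))).det := by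
    refine hs'.trans ?_
    rw [mul_assoc]
    exact mul_le_mul_right ht _
  refine ⟨(i₁, fun a => (i₁, j' a)), b, hb, ?_, fun hf => ?_⟩
  · rw [map_mul, hDT]
    exact hfin.trans (mul_le_mul_right hb1 _)
  · rw [map_mul, hDT]
    exact hfin.trans_lt (mul_lt_mul_of_pos_left (hb2 hf) (zero_lt_iff.mpr hne5))

/-- The inequality for the quotient at one valuation ring: the minors of order `card ρ + card α` of a model against the
minors of order `card ρ` adapted to the subspace of the derivations which kill `w`, by `adapted` and `LS_core`. -/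
theorem LS_fam {K E : Type u} {α ρ ι : Type} [Field K] [CharZero K] [Field E] [Algebra K E] [Fintype α] [DecidableEq α]
    [Fintype ρ] [DecidableEq ρ] [Fintype ι] (w : α → E) (hw : AlgebraicIndependent K w) (r : ℕ) (x : Fin r → E)
    (hx : ∀ z : E, IsAlgebraic (Subfield.closure ((F0 K w : Set E) ∪ Set.range x)) z) (v : ρ ⊕ α → Derivation K E E)
    (hv0 : ∀ i l, v (Sum.inl i) (w l) = 0) (hv1 : ∀ l l', v (Sum.inr l) (w l') = if l = l' then 1 else 0)
    (hρ : ∀ D : Derivation K E E, (∀ l, D (w l) = 0) → ∃ c : ρ → E, D = ∑ i, c i • v (Sum.inl i))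
    (m : ι → E) (hD : ∃ p, DT m v p ≠ 0) (A : ValuationSubring E) (hA : ∀ c : K, algebraMap K E c ∈ A) :
    ∃ P : Finset (MvPolynomial α K), (∀ p ∈ P, p ≠ 0 ∧ aeval w p ≠ 0) ∧
      Le (fun l => v (Sum.inr l)) A (vals w (P : Set (MvPolynomial α K))) (NT m v) (DT m v) ∧
      ((∃ f ∈ F0 K w, f ≠ 0 ∧ ¬ Un A f) →
        Lt (fun l => v (Sum.inr l)) A (vals w (P : Set (MvPolynomial α K))) (NT m v) (DT m v)) := by
  classical
  by_cases hf : ∃ f ∈ F0 K w, f ≠ 0 ∧ ¬ Un A f
  · obtain ⟨P, hP, hlt⟩ := Lt_of w (fun l => v (Sum.inr l)) A (NT m v) (DT m v) fun s => by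
      obtain ⟨k, b, hb, _, h2⟩ := L10_idx w hw r x hx v hv1 hρ m hD A hA s
      exact ⟨k, b, hb, h2 hf⟩
    refine ⟨P, hP, fun i => ?_, fun _ => hlt⟩
    obtain ⟨k, b, hb, h2⟩ := hlt i
    exact ⟨k, b, hb, h2.le⟩
  · obtain ⟨P, hP, hle⟩ := Le_of w (fun l => v (Sum.inr l)) A (NT m v) (DT m v) fun s => by
      obtain ⟨k, b, hb, h1, _⟩ := L10_idx w hw r x hx v hv1 hρ m hD A hA s
      exact ⟨k, b, hb, h1⟩
    exact ⟨P, hP, hle, fun h => absurd h hf⟩

end Pool.Agent.Lib.MP_17a322_nt.FL
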