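import Pool.Agent.Lib.MP_17a322_nt.FL.L1

universe u

namespace Pool.Agent.Lib.MP_17a322_nt.FL

open Pool.Agent.Lib.MP_17a322_nt.JAC (spn)
open Pool.Agent.Lib.MP_17a322_nt.ABN (Un)

section

variable {K : Type u} {Ω : Type u} [Field K] [Field Ω] [Algebra K Ω] {O : ValuationSubring Ω}
  {L : Subfield Ω} {S : Set Ω}

private theorem L2_le : LG0 K O L S ≤ LG1 K O L S := by
  refine JAC.spn_mono O ?_
  rintro v ⟨a, b, hb, hb0, ha, -, rfl⟩
  rw [mul_smul]
  exact JAC.subset_spn O _ ha ⟨b, hb, hb0, rfl⟩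

private theorem L2_mem {a b : Ω} (hb : b ∈ L) (hb0 : b ≠ 0) (ha : a ∈ O)
    (h : O.valuation a < 1 ∨ Un O b) : (a * b⁻¹) • dd K S b ∈ LG0 K O L S :=
  JAC.mem_spn O _ ⟨a, b, hb, hb0, ha, h, rfl⟩

private theorem L2_un {b : Ω} (h : O.valuation b = 1) : Un O b := by
  refine ⟨(O.valuation_le_one_iff b).1 h.le, (O.valuation_le_one_iff _).1 ?_⟩
  rw [map_inv₀, h, inv_one]

private theorem L2_mul {a b : Ω} (ha : a ≠ 0) (hb : b ≠ 0) :
    (a * b)⁻¹ • dd K S (a * b) = a⁻¹ • dd K S a + b⁻¹ • dd K S b := by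
  rw [Derivation.leibniz, smul_add, smul_smul, smul_smul, add_comm]
  congr 2
  · field_simp
  · field_simp

private theorem L2_inv {a : Ω} (ha : a ≠ 0) :
    (a⁻¹)⁻¹ • dd K S a⁻¹ = -(a⁻¹ • dd K S a) := by
  have h := L2_mul (K := K) (S := S) ha (inv_ne_zero ha)
  rw [mul_inv_cancel₀ ha, Derivation.map_one_eq_zero, smul_zero] at h
  exact (neg_eq_of_add_eq_zero_right h.symm).symm

private theorem L2_self {t : Ω} : dd K {t} t = 0 := by
  funext D
  exact D.2 t rfl

private theorem L2_zpow {t : Ω} (ht : t ≠ 0) (n : ℤ) : dd K {t} (t ^ n) = 0 := by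
  have h1 : ∀ m : ℕ, dd K {t} (t ^ m) = 0 := by
    intro m
    rw [Derivation.leibniz_pow, L2_self, smul_zero, smul_zero]
  have h2 : ∀ m : ℕ, dd K {t} (t ^ m)⁻¹ = 0 := by
    intro m
    have h3 := L2_inv (K := K) (S := {t}) (pow_ne_zero m ht)
    rw [h1, smul_zero, neg_zero, inv_inv] at h3
    exact (smul_eq_zero_iff_right (pow_ne_zero m ht)).1 h3
  obtain ⟨m, rfl | rfl⟩ := n.eq_nat_or_neg
  · rw [zpow_natCast]
    exact h1 m
  · rw [zpow_neg, zpow_natCast]
    exact h2 m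

/-- the elements which are products of an element of `L`, a power of `t` and a unit -/
private def L2_Q (K : Type u) {Ω : Type u} [Field K] [Field Ω] [Algebra K Ω]
    (O : ValuationSubring Ω) (L : Subfield Ω) (t y : Ω) : Prop :=
  ∃ κ ∈ L, κ ≠ 0 ∧ ∃ (n : ℤ) (u : Ω), O.valuation u = 1 ∧
    u⁻¹ • dd K {t} u ∈ LG0 K O L {t} ∧ y = κ * t ^ n * u

private theorem L2_u {u : Ω} (h : O.valuation u = 1) : u ≠ 0 := by
  rintro rfl
  rw [map_zero] at h
  exact zero_ne_one h

private theorem L2_one {t : Ω} : (1 : Ω)⁻¹ • dd K {t} 1 ∈ LG0 K O L {t} := by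
  rw [Derivation.map_one_eq_zero, smul_zero]
  exact zero_mem _

private theorem L2_Qmul {t : Ω} (ht : t ≠ 0) {y z : Ω} (hy : L2_Q K O L t y)
    (hz : L2_Q K O L t z) : L2_Q K O L t (y * z) := by
  obtain ⟨κ, hκ, hκ0, n, u, hu, hu2, rfl⟩ := hy
  obtain ⟨κ', hκ', hκ0', n', u', hu', hu2', rfl⟩ := hz
  refine ⟨κ * κ', mul_mem hκ hκ', mul_ne_zero hκ0 hκ0', n + n', u * u', ?_, ?_, ?_⟩
  · rw [map_mul, hu, hu', one_mul]
  · rw [L2_mul (L2_u hu) (L2_u hu')]
    exact add_mem hu2 hu2'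
  · rw [zpow_add₀ ht]
    ring

private theorem L2_Qinv {t : Ω} {y : Ω} (hy : L2_Q K O L t y) : L2_Q K O L t y⁻¹ := by
  obtain ⟨κ, hκ, hκ0, n, u, hu, hu2, rfl⟩ := hy
  refine ⟨κ⁻¹, inv_mem hκ, inv_ne_zero hκ0, -n, u⁻¹, ?_, ?_, ?_⟩
  · rw [map_inv₀, hu, inv_one]
  · rw [L2_inv (L2_u hu)]
    exact neg_mem hu2
  · rw [mul_inv, mul_inv, zpow_neg]

private theorem L2_QL {t κ : Ω} (hκ : κ ∈ L) (hκ0 : κ ≠ 0) : L2_Q K O L t κ :=
  ⟨κ, hκ, hκ0, 0, 1, map_one _, L2_one, by rw [zpow_zero, mul_one, mul_one]⟩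

/-- the elements `t - c` -/
private theorem L2_Qsub {t : Ω} (ht : t ≠ 0)
    (H : ∀ κ ∈ L, κ ≠ 0 → ∀ n : ℤ, O.valuation (κ * t ^ n) = 1 → O.valuation κ = 1) {c : Ω}
    (hc : c ∈ L) (hM : O.valuation t ≤ O.valuation (t - c)) : L2_Q K O L t (t - c) := by
  rcases eq_or_ne c 0 with rfl | hc0
  · exact ⟨1, one_mem L, one_ne_zero, 1, 1, map_one _, L2_one, by
      rw [zpow_one, one_mul, mul_one, sub_zero]⟩
  have hvt : O.valuation t ≠ 0 := (Valuation.ne_zero_iff _).2 ht
  have hvc : O.valuation c ≠ 0 := (Valuation.ne_zero_iff _).2 hc0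
  have hDt : dd K {t} t = 0 := L2_self
  rcases lt_trichotomy (O.valuation c) (O.valuation t) with h | h | h
  · have h1 : O.valuation (c / t) < 1 := by
      rw [map_div₀]
      exact (div_lt_one₀ (zero_lt_iff.2 hvt)).2 h
    have hu : O.valuation (1 - c / t) = 1 := Valuation.map_one_sub_of_lt _ h1
    refine ⟨1, one_mem L, one_ne_zero, 1, 1 - c / t, hu, ?_, ?_⟩
    · have e1 : (1 - c / t)⁻¹ • dd K {t} (1 - c / t) =
          ((-(1 - c / t)⁻¹ * (c / t)) * c⁻¹) • dd K {t} c := by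
        have e2 : dd K {t} t⁻¹ = 0 := by
          have h3 := L2_zpow (K := K) ht (-1)
          rwa [zpow_neg_one] at h3
        rw [map_sub, Derivation.map_one_eq_zero, zero_sub, div_eq_mul_inv, Derivation.leibniz, e2,
          smul_zero, zero_add, smul_neg, smul_smul, ← neg_smul]
        congr 1
        field_simp
      rw [e1]
      refine L2_mem hc hc0 ?_ (Or.inl ?_)
      · refine (O.valuation_le_one_iff _).1 (le_of_lt ?_)
        rw [map_mul, Valuation.map_neg, map_inv₀, hu, inv_one, one_mul]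
        exact h1
      · rw [map_mul, Valuation.map_neg, map_inv₀, hu, inv_one, one_mul]
        exact h1
    · rw [zpow_one]
      field_simp
  · have h0 : O.valuation (c⁻¹ * t ^ (1 : ℤ)) = 1 := by
      rw [zpow_one, map_mul, map_inv₀, h, inv_mul_cancel₀ hvt]
    have h1 := H c⁻¹ (inv_mem hc) (inv_ne_zero hc0) 1 h0
    rw [map_inv₀, inv_eq_one] at h1
    have h2 : O.valuation t = 1 := by rw [← h, h1]
    have hu : O.valuation (t - c) = 1 := by
      refine le_antisymm ?_ (by rw [← h2]; exact hM)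
      exact (O.valuation.map_sub _ _).trans (max_le h2.le h1.le)
    refine ⟨1, one_mem L, one_ne_zero, 0, t - c, hu, ?_, ?_⟩
    · have e1 : (t - c)⁻¹ • dd K {t} (t - c) = ((-(t - c)⁻¹ * c) * c⁻¹) • dd K {t} c := by
        rw [map_sub, hDt, zero_sub, smul_neg, ← neg_smul]
        congr 1
        field_simp
      rw [e1]
      refine L2_mem hc hc0 ?_ (Or.inr (L2_un h1))
      refine (O.valuation_le_one_iff _).1 ?_
      rw [map_mul, Valuation.map_neg, map_inv₀, hu, inv_one, one_mul, h1]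
    · rw [zpow_zero, one_mul, one_mul]
  · have h1 : O.valuation (t / c) < 1 := by
      rw [map_div₀]
      exact (div_lt_one₀ (zero_lt_iff.2 hvc)).2 h
    have hu : O.valuation (1 - t / c) = 1 := Valuation.map_one_sub_of_lt _ h1
    refine ⟨-c, neg_mem hc, neg_ne_zero.2 hc0, 0, 1 - t / c, hu, ?_, ?_⟩
    · have e1 : (1 - t / c)⁻¹ • dd K {t} (1 - t / c) =
          (((1 - t / c)⁻¹ * (t / c)) * c⁻¹) • dd K {t} c := by
        have e2 : dd K {t} c⁻¹ = -((c⁻¹ * c⁻¹) • dd K {t} c) := by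
          have h3 := L2_inv (K := K) (S := {t}) hc0
          have h4 := congrArg (fun x => c⁻¹ • x) h3
          simp only [smul_smul, smul_neg] at h4
          rw [mul_inv_cancel₀ (inv_ne_zero hc0), one_smul] at h4
          exact h4
        rw [map_sub, Derivation.map_one_eq_zero, zero_sub, div_eq_mul_inv, Derivation.leibniz, e2,
          hDt, smul_zero, add_zero]
        simp only [smul_neg, neg_neg, smul_smul]
        congr 1
        ring
      rw [e1]
      refine L2_mem hc hc0 ?_ (Or.inl ?_)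
      · refine (O.valuation_le_one_iff _).1 (le_of_lt ?_)
        rw [map_mul, map_inv₀, hu, inv_one, one_mul]
        exact h1
      · rw [map_mul, map_inv₀, hu, inv_one, one_mul]
        exact h1
    · rw [zpow_zero, mul_one]
      field_simp
      ring

/-- the differentials of the elements -/
private theorem L2_Qdd {t : Ω} (ht : t ≠ 0)
    (H : ∀ κ ∈ L, κ ≠ 0 → ∀ n : ℤ, O.valuation (κ * t ^ n) = 1 → O.valuation κ = 1) {y : Ω}
    (h : L2_Q K O L t y) : (y ∈ O → dd K {t} y ∈ LG0 K O L {t}) ∧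
      y⁻¹ • dd K {t} y ∈ LG1 K O L {t} := by
  obtain ⟨κ, hκ, hκ0, n, u, hu, hu2, hy⟩ := h
  have hu0 := L2_u hu
  have hy0 : y ≠ 0 := by
    rw [hy]
    exact mul_ne_zero (mul_ne_zero hκ0 (zpow_ne_zero n ht)) hu0
  have e1 : y⁻¹ • dd K {t} y = κ⁻¹ • dd K {t} κ + u⁻¹ • dd K {t} u := by
    rw [hy, L2_mul (mul_ne_zero hκ0 (zpow_ne_zero n ht)) hu0, L2_mul hκ0 (zpow_ne_zero n ht),
      L2_zpow ht, smul_zero, add_zero]
  refine ⟨fun hO => ?_, ?_⟩
  · have e2 : dd K {t} y = (y * κ⁻¹) • dd K {t} κ + y • (u⁻¹ • dd K {t} u) := by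
      rw [mul_smul, ← smul_add, ← e1, smul_smul, mul_inv_cancel₀ hy0, one_smul]
    rw [e2]
    refine add_mem (L2_mem hκ hκ0 hO ?_) (JAC.smul_mem_spn O _ hO hu2)
    rcases ((O.valuation_le_one_iff y).2 hO).lt_or_eq with h1 | h1
    · exact Or.inl h1
    · refine Or.inr (L2_un (H κ hκ hκ0 n ?_))
      rw [hy, map_mul, hu, mul_one] at h1
      exact h1
  · rw [e1]
    exact add_mem (JAC.mem_spn O _ ⟨κ, hκ, hκ0, rfl⟩) (L2_le hu2)

end

section

variable {Ω : Type u} [Field Ω] [IsAlgClosed Ω]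

/-- partial fractions: one element -/
private theorem L2_C1 (L : Subfield Ω) (hL : ∀ z : Ω, IsAlgebraic L z → z ∈ L) (s y : Ω)
    (hy : y ∈ Subfield.closure ((L : Set Ω) ∪ {s})) : ∃ C : Finset Ω, (∀ c ∈ C, c ∈ L) ∧
      ∀ G : Ω → Prop, (∀ κ ∈ L, κ ≠ 0 → G κ) → (∀ c ∈ C, G (s - c)) →
        (∀ a b, G a → G b → G (a * b)) → (∀ a, G a → G a⁻¹) → y ≠ 0 → G y := by
  classical
  have h1 : y ∈ IntermediateField.adjoin L {s} := by
    have h2 : (IntermediateField.adjoin L {s}).toSubfield = Subfield.closure ((L : Set Ω) ∪ {s}) := by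
      show Subfield.closure _ = _
      congr 2
      exact Subtype.range_coe
    have h3 : y ∈ (IntermediateField.adjoin L {s}).toSubfield := by
      rw [h2]
      exact hy
    exact h3
  rw [IntermediateField.mem_adjoin_simple_iff] at h1
  obtain ⟨p, q, hpq⟩ := h1
  have hroot : ∀ r : Polynomial L, ∀ c ∈ r.aroots Ω, c ∈ L := by
    intro r c hc
    rw [Polynomial.mem_aroots] at hc
    exact hL c ⟨r, hc.1, hc.2⟩
  have hprod : ∀ r : Polynomial L, Polynomial.aeval s r =
      (r.leadingCoeff : Ω) * ((r.aroots Ω).map fun c => s - c).prod := by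
    intro r
    have h4 : (r.map (algebraMap L Ω)).Splits := IsAlgClosed.splits _
    have h5 := h4.eval_eq_prod_roots s
    rw [Polynomial.eval_map_algebraMap, Polynomial.leadingCoeff_map] at h5
    exact h5
  refine ⟨(p.aroots Ω).toFinset ∪ (q.aroots Ω).toFinset, ?_, ?_⟩
  · intro c hc
    rcases Finset.mem_union.1 hc with h | h
    · exact hroot p c (Multiset.mem_toFinset.1 h)
    · exact hroot q c (Multiset.mem_toFinset.1 h)
  · intro G g1 g2 g3 g4 hy0
    have key : ∀ M : Multiset Ω, (∀ c ∈ M, G (s - c)) → G ((M.map fun c => s - c).prod) := by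
      intro M
      induction M using Multiset.induction_on with
      | empty =>
        intro _
        rw [Multiset.map_zero, Multiset.prod_zero]
        exact g1 1 (one_mem L) one_ne_zero
      | cons a M ih =>
        intro hM
        rw [Multiset.map_cons, Multiset.prod_cons]
        exact g3 _ _ (hM a (Multiset.mem_cons_self a M))
          (ih fun c hc => hM c (Multiset.mem_cons_of_mem hc))
    have key2 : ∀ r : Polynomial L, (∀ c ∈ r.aroots Ω, G (s - c)) → Polynomial.aeval s r ≠ 0 →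
        G (Polynomial.aeval s r) := by
      intro r hr h0
      rw [hprod r] at h0 ⊢
      refine g3 _ _ (g1 _ r.leadingCoeff.2 ?_) (key _ hr)
      exact left_ne_zero_of_mul h0
    have hp0 : Polynomial.aeval s p ≠ 0 := by
      intro h
      rw [hpq, h, zero_div] at hy0
      exact hy0 rfl
    have hq0 : Polynomial.aeval s q ≠ 0 := by
      intro h
      rw [hpq, h, div_zero] at hy0
      exact hy0 rfl
    rw [hpq, div_eq_mul_inv]
    refine g3 _ _ (key2 p (fun c hc => g2 c ?_) hp0) (g4 _ (key2 q (fun c hc => g2 c ?_) hq0))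
    · exact Finset.mem_union_left _ (Multiset.mem_toFinset.2 hc)
    · exact Finset.mem_union_right _ (Multiset.mem_toFinset.2 hc)

/-- partial fractions -/
private theorem L2_C (L : Subfield Ω) (hL : ∀ z : Ω, IsAlgebraic L z → z ∈ L) (s : Ω)
    (Y : Finset Ω) (hY : ∀ y ∈ Y, y ∈ Subfield.closure ((L : Set Ω) ∪ {s})) :
    ∃ C : Finset Ω, (∀ c ∈ C, c ∈ L) ∧
      ∀ G : Ω → Prop, (∀ κ ∈ L, κ ≠ 0 → G κ) → (∀ c ∈ C, G (s - c)) →
        (∀ a b, G a → G b → G (a * b)) → (∀ a, G a → G a⁻¹) → ∀ y ∈ Y, y ≠ 0 → G y := by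
  classical
  induction Y using Finset.induction_on with
  | empty => exact ⟨∅, by simp, by simp⟩
  | insert y Y _ ih =>
    obtain ⟨C, hC, h⟩ := ih fun z hz => hY z (Finset.mem_insert_of_mem hz)
    obtain ⟨C', hC', h'⟩ := L2_C1 L hL s y (hY y (Finset.mem_insert_self y Y))
    refine ⟨C ∪ C', ?_, ?_⟩
    · intro c hc
      rcases Finset.mem_union.1 hc with h1 | h1
      · exact hC c h1
      · exact hC' c h1
    · intro G g1 g2 g3 g4 z hz hz0
      rcases Finset.mem_insert.1 hz with rfl | hz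
      · exact h' G g1 (fun c hc => g2 c (Finset.mem_union_right _ hc)) g3 g4 hz0
      · exact h G g1 (fun c hc => g2 c (Finset.mem_union_left _ hc)) g3 g4 z hz hz0

end

/-- Adjoining one transcendental element to an algebraically closed field. -/
theorem PP_single (K : Type u) {Ω : Type u} [Field K] [CharZero K] [Field Ω] [IsAlgClosed Ω] [Algebra K Ω] (O : ValuationSubring Ω)
    (hO : ∀ c : K, algebraMap K Ω c ∈ O) (L : Subfield Ω) (hK : ∀ c : K, algebraMap K Ω c ∈ L)
    (hL : ∀ z : Ω, IsAlgebraic L z → z ∈ L) (s : Ω) (hs : s ∉ L) :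
    PP K O L (Subfield.closure ((L : Set Ω) ∪ {s})) := by
  classical
  intro Y hY
  obtain ⟨C, hC, hG⟩ := L2_C L hL s Y hY
  obtain ⟨c₁, hc₁, hmin⟩ : ∃ c₁ ∈ L, ∀ c ∈ C, O.valuation (s - c₁) ≤ O.valuation (s - c) := by
    obtain ⟨c₁, h1, h2⟩ := Finset.exists_min_image (insert 0 C) (fun c => O.valuation (s - c))
      ⟨0, Finset.mem_insert_self 0 C⟩
    refine ⟨c₁, ?_, fun c hc => h2 c (Finset.mem_insert_of_mem hc)⟩
    rcases Finset.mem_insert.1 h1 with rfl | h1
    · exact zero_mem L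
    · exact hC c₁ h1
  have hsc : ∀ c ∈ L, s - c ≠ 0 := by
    intro c hc h
    exact hs (by rw [sub_eq_zero.1 h]; exact hc)
  obtain ⟨e, he, he0, H⟩ : ∃ e ∈ L, e ≠ 0 ∧ ∀ κ ∈ L, κ ≠ 0 → ∀ n : ℤ,
      O.valuation (κ * ((s - c₁) / e) ^ n) = 1 → O.valuation κ = 1 := by
    by_cases hcase : ∃ e ∈ L, e ≠ 0 ∧ O.valuation (s - c₁) = O.valuation e
    · obtain ⟨e, he, he0, h1⟩ := hcase
      refine ⟨e, he, he0, fun κ _ _ n h => ?_⟩
      rw [map_mul, map_zpow₀, map_div₀, h1, div_self, one_zpow, mul_one] at h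
      · exact h
      · exact (Valuation.ne_zero_iff _).2 he0
    · refine ⟨1, one_mem L, one_ne_zero, fun κ hκ hκ0 n h => ?_⟩
      rw [div_one] at h
      have hv0 : O.valuation (s - c₁) ≠ 0 := (Valuation.ne_zero_iff _).2 (hsc c₁ hc₁)
      have hvκ : O.valuation κ ≠ 0 := (Valuation.ne_zero_iff _).2 hκ0
      have key : ∀ m : ℕ, m ≠ 0 → ∀ b ∈ L, b ≠ 0 → O.valuation (s - c₁) ^ m ≠ O.valuation b := by
        intro m hm b hb hb0 h1
        obtain ⟨e, he⟩ := IsAlgClosed.exists_pow_nat_eq b (Nat.pos_of_ne_zero hm)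
        apply hcase
        refine ⟨e, hL e ?_, ?_, ?_⟩
        · refine ⟨Polynomial.X ^ m - Polynomial.C ⟨b, hb⟩,
            Polynomial.X_pow_sub_C_ne_zero (Nat.pos_of_ne_zero hm) _, ?_⟩
          rw [map_sub, map_pow, Polynomial.aeval_X, Polynomial.aeval_C, he]
          exact sub_self _
        · rintro rfl
          rw [zero_pow hm] at he
          exact hb0 he.symm
        · rw [← he, map_pow] at h1
          exact (pow_left_inj₀ zero_le zero_le hm).1 h1
      obtain ⟨m, hm | hm⟩ := n.eq_nat_or_neg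
      · rcases eq_or_ne m 0 with h0 | h0
        · rw [hm, h0, Nat.cast_zero, zpow_zero, mul_one] at h
          exact h
        · exfalso
          refine key m h0 κ⁻¹ (inv_mem hκ) (inv_ne_zero hκ0) ?_
          rw [hm, zpow_natCast, map_mul, map_pow] at h
          rw [map_inv₀]
          exact eq_inv_of_mul_eq_one_right h
      · rcases eq_or_ne m 0 with h0 | h0
        · rw [hm, h0, Nat.cast_zero, neg_zero, zpow_zero, mul_one] at h
          exact h
        · exfalso
          refine key m h0 κ hκ hκ0 ?_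
          rw [hm, zpow_neg, zpow_natCast, map_mul, map_inv₀, map_pow] at h
          exact (eq_of_mul_inv_eq_one h).symm
  obtain ⟨t, ht⟩ : ∃ t, t = (s - c₁) / e := ⟨_, rfl⟩
  rw [← ht] at H
  have hst : s = e * t + c₁ := by
    rw [ht]
    field_simp
    ring
  have ht0 : t ≠ 0 := by
    rw [ht]
    exact div_ne_zero (hsc c₁ hc₁) he0
  have htL : t ∉ L := by
    intro h
    apply hs
    rw [hst]
    exact add_mem (mul_mem he h) hc₁
  have hve : 0 < O.valuation e := zero_lt_iff.2 ((Valuation.ne_zero_iff _).2 he0)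
  refine ⟨{t}, ?_, good_single K L hK t (fun h => htL (hL t h)), ?_⟩
  · rw [Set.singleton_subset_iff, ht]
    have h1 : ∀ c ∈ L, c ∈ Subfield.closure ((L : Set Ω) ∪ {s}) := fun c hc =>
      Subfield.subset_closure (Or.inl hc)
    exact div_mem (sub_mem (Subfield.subset_closure (Or.inr rfl)) (h1 c₁ hc₁)) (h1 e he)
  · have hQ : ∀ y ∈ Y, y ≠ 0 → L2_Q K O L t y := by
      refine hG (L2_Q K O L t) (fun κ hκ hκ0 => L2_QL hκ hκ0) (fun c hc => ?_)
        (fun a b ha hb => L2_Qmul ht0 ha hb) (fun a ha => L2_Qinv ha)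
      have e1 : s - c = e * (t - (c - c₁) / e) := by
        rw [hst]
        field_simp
        ring
      rw [e1]
      refine L2_Qmul ht0 (L2_QL he he0) (L2_Qsub ht0 H (div_mem (sub_mem (hC c hc) hc₁) he) ?_)
      have h1 := hmin c hc
      rw [e1, map_mul] at h1
      have e2 : s - c₁ = e * t := by
        rw [hst]
        ring
      rw [e2, map_mul] at h1
      exact le_of_mul_le_mul_left h1 hve
    intro y hy
    rcases eq_or_ne y 0 with rfl | hy0
    · refine ⟨fun _ => ?_, fun h => absurd rfl h⟩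
      rw [map_zero]
      exact zero_mem _
    · obtain ⟨h1, h2⟩ := L2_Qdd ht0 H (hQ y hy hy0)
      exact ⟨h1, fun _ => h2⟩

end Pool.Agent.Lib.MP_17a322_nt.FL
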