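import Pool.Agent.Lib.MP_17a322_nt.FL.LDefs
import Pool.Agent.Lib.MP_17a322_nt.JAC.T1a

universe u

namespace Pool.Agent.Lib.MP_17a322_nt.FL

open Pool.Agent.Lib.MP_17a322_nt.ABN (Un)

/-- The properties of the subgroups to which Zorn's lemma is applied. -/
private def L3_Q {G : Type*} [CommGroup G] (U R0 R : Subgroup G) : Prop :=
  R0 ≤ R ∧ (∀ u ∈ R, ∃ n : ℕ, 0 < n ∧ u ^ n ∈ R0) ∧ ∀ u ∈ R, u ∈ U → u ∈ R0

private theorem L3_zorn {G : Type*} [CommGroup G] (U R0 : Subgroup G) :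
    ∃ R : Subgroup G, Maximal (L3_Q U R0) R := by
  have hzorn : ∀ c ⊆ {R : Subgroup G | L3_Q U R0 R}, IsChain (· ≤ ·) c → ∀ y ∈ c,
      ∃ ub ∈ {R : Subgroup G | L3_Q U R0 R}, ∀ z ∈ c, z ≤ ub := by
    intro c hc hch y hy
    have hmem : ∀ x, x ∈ sSup c ↔ ∃ s ∈ c, x ∈ s := fun x =>
      Subgroup.mem_sSup_of_directedOn ⟨y, hy⟩ hch.directedOn
    refine ⟨sSup c, ⟨(hc hy).1.trans (le_sSup hy), ?_, ?_⟩, fun z hz => le_sSup hz⟩
    · intro u hu
      obtain ⟨s, hs, hus⟩ := (hmem u).1 hu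
      exact (hc hs).2.1 u hus
    · intro u hu hU
      obtain ⟨s, hs, hus⟩ := (hmem u).1 hu
      exact (hc hs).2.2 u hus hU
  obtain ⟨R, -, hR⟩ := zorn_le_nonempty₀ {R : Subgroup G | L3_Q U R0 R} hzorn R0
    ⟨le_rfl, fun u hu => ⟨1, one_pos, by rwa [pow_one]⟩, fun u hu _ => hu⟩
  exact ⟨R, hR⟩

private theorem L3_claim {G : Type*} [CommGroup G] (U R0 R : Subgroup G)
    (hdiv : ∀ w ∈ U, ∀ p : ℕ, 0 < p → ∃ w' ∈ U, w' ^ p = w) (hR : Maximal (L3_Q U R0) R)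
    (g : G) (p : ℕ) (hp : p.Prime) (r : G) (hr : r ∈ R) (h : g ^ p * r⁻¹ ∈ U) :
    ∃ r' ∈ R, g * r'⁻¹ ∈ U := by
  by_contra hcon
  push Not at hcon
  obtain ⟨hQ1, hQ2, hQ3⟩ := hR.prop
  obtain ⟨w', hw'U, hw'⟩ := hdiv _ h p hp.pos
  set γ : G := g * w'⁻¹ with hγ
  have hγp : γ ^ p = r := by
    rw [hγ, mul_pow, inv_pow, hw', mul_inv_rev, inv_inv, mul_comm r, mul_inv_cancel_left]
  have hγU : ∀ r' ∈ R, γ * r'⁻¹ ∉ U := by
    intro r' hr' h1
    apply hcon r' hr'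
    have h2 : g * r'⁻¹ = (γ * r'⁻¹) * w' := by
      rw [hγ, mul_right_comm g, mul_assoc (g * r'⁻¹), inv_mul_cancel, mul_one]
    rw [h2]
    exact U.mul_mem h1 hw'U
  have hle : R ≤ R ⊔ Subgroup.zpowers γ := le_sup_left
  have hQ' : L3_Q U R0 (R ⊔ Subgroup.zpowers γ) := by
    refine ⟨hQ1.trans hle, ?_, ?_⟩
    · intro u hu
      obtain ⟨y, hy, z, hz, rfl⟩ := Subgroup.mem_sup.1 hu
      obtain ⟨k, rfl⟩ := Subgroup.mem_zpowers_iff.1 hz
      obtain ⟨n, hn, hyn⟩ := hQ2 y hy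
      obtain ⟨n', hn', hrn⟩ := hQ2 r hr
      refine ⟨n * (p * n'), Nat.mul_pos hn (Nat.mul_pos hp.pos hn'), ?_⟩
      have h1 : (y * γ ^ k) ^ (n * (p * n')) = (y ^ n) ^ (p * n') * ((r ^ n') ^ k) ^ n := by
        rw [mul_pow, pow_mul y, ← hγp]
        congr 1
        simp only [← zpow_natCast, ← zpow_mul]
        congr 1
        push_cast
        ring
      rw [h1]
      exact R0.mul_mem (R0.pow_mem hyn _) (R0.pow_mem (R0.zpow_mem hrn _) _)
    · intro u hu hU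
      obtain ⟨y, hy, z, hz, rfl⟩ := Subgroup.mem_sup.1 hu
      obtain ⟨k, rfl⟩ := Subgroup.mem_zpowers_iff.1 hz
      by_cases hk : (p : ℤ) ∣ k
      · obtain ⟨k', rfl⟩ := hk
        have h1 : γ ^ ((p : ℤ) * k') = r ^ k' := by
          rw [zpow_mul, zpow_natCast, hγp]
        rw [h1] at hU ⊢
        exact hQ3 _ (R.mul_mem hy (R.zpow_mem hr _)) hU
      · exfalso
        have hco : IsCoprime (p : ℤ) k :=
          ((Nat.prime_iff_prime_int.1 hp).coprime_iff_not_dvd).2 hk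
        obtain ⟨b, a, hab⟩ := hco
        refine hγU ((y⁻¹) ^ a * r ^ b) (R.mul_mem (R.zpow_mem (R.inv_mem hy) _) (R.zpow_mem hr _)) ?_
        have h1 : γ * ((y⁻¹) ^ a * r ^ b)⁻¹ = (y * γ ^ k) ^ a := by
          have h2 : γ = (γ ^ k) ^ a * r ^ b := by
            rw [← hγp, ← zpow_natCast, ← zpow_mul, ← zpow_mul, ← zpow_add]
            have h3 : k * a + (p : ℤ) * b = 1 := by rw [← hab]; ring
            rw [h3, zpow_one]
          have h4 : γ * ((y⁻¹) ^ a * r ^ b)⁻¹ =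
              (γ ^ k) ^ a * r ^ b * ((y⁻¹) ^ a * r ^ b)⁻¹ := by rw [← h2]
          have h5 : ∀ t : G, t ^ a * r ^ b * ((y⁻¹) ^ a * r ^ b)⁻¹ = (y * t) ^ a := by
            intro t
            rw [mul_zpow, mul_inv_rev, inv_zpow, inv_inv, mul_assoc, mul_inv_cancel_left, mul_comm]
          rw [h4, h5]
        rw [h1]
        exact U.zpow_mem hU _
  have hmem : γ ∈ R := by
    have h1 := hR.le_of_ge hQ' hle
    exact h1 (Subgroup.mem_sup_right (Subgroup.mem_zpowers γ))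
  exact hγU γ hmem (by rw [mul_inv_cancel]; exact U.one_mem)

private theorem L3_group {G : Type*} [CommGroup G] (U R0 : Subgroup G)
    (hdiv : ∀ w ∈ U, ∀ p : ℕ, 0 < p → ∃ w' ∈ U, w' ^ p = w) :
    ∃ R : Subgroup G, R0 ≤ R ∧ (∀ u ∈ R, ∃ n : ℕ, 0 < n ∧ u ^ n ∈ R0) ∧
      (∀ u ∈ R, u ∈ U → u ∈ R0) ∧
      ∀ (q : ℕ) (g : G), 0 < q → (∃ r ∈ R, g ^ q * r⁻¹ ∈ U) → ∃ r ∈ R, g * r⁻¹ ∈ U := by
  obtain ⟨R, hR⟩ := L3_zorn U R0
  refine ⟨R, hR.prop.1, hR.prop.2.1, hR.prop.2.2, ?_⟩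
  intro q
  induction q using Nat.strong_induction_on with
  | _ q ih =>
    intro g hq hex
    by_cases hq1 : q = 1
    · subst hq1
      simpa using hex
    · have hp : (Nat.minFac q).Prime := Nat.minFac_prime hq1
      obtain ⟨q', hq'⟩ := Nat.minFac_dvd q
      have hq'0 : 0 < q' := by
        rcases Nat.eq_zero_or_pos q' with h | h
        · rw [h, mul_zero] at hq'
          omega
        · exact h
      have hlt : q' < q := by
        have h2 := hp.two_le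
        have h3 : 2 * q' ≤ Nat.minFac q * q' := Nat.mul_le_mul_right _ h2
        omega
      obtain ⟨r, hr, h⟩ := hex
      refine ih q' hlt g hq'0 (L3_claim U R0 R hdiv hR (g ^ q') (Nat.minFac q) hp r hr ?_)
      rw [← pow_mul, mul_comm q', ← hq']
      exact h

private theorem L3_un {Ω : Type u} [Field Ω] (O : ValuationSubring Ω) (u : Ωˣ) :
    Un O (u : Ω) ↔ u ∈ O.unitGroup := by
  rw [ValuationSubring.mem_unitGroup_iff]
  unfold Un
  rw [← O.valuation_le_one_iff, ← O.valuation_le_one_iff, map_inv₀]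
  have h0 : O.valuation (u : Ω) ≠ 0 := (O.valuation.ne_zero_iff).2 u.ne_zero
  constructor
  · rintro ⟨h1, h2⟩
    refine le_antisymm h1 ?_
    exact (inv_le_one₀ (zero_lt_iff.2 h0)).1 h2
  · intro h
    rw [h]
    simp

/-- A group of radicals which represents the values of the algebraic elements. -/
theorem exists_rad {Ω : Type u} [Field Ω] [IsAlgClosed Ω] (O : ValuationSubring Ω) (L : Subfield Ω) :
    ∃ R : Subgroup Ωˣ, (∀ u : Ωˣ, (u : Ω) ∈ L → u ∈ R) ∧ (∀ u ∈ R, ∃ n : ℕ, 0 < n ∧ (u : Ω) ^ n ∈ L) ∧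
      (∀ u ∈ R, Un O (u : Ω) → (u : Ω) ∈ L) ∧
      ∀ f : Ω, f ≠ 0 → IsAlgebraic L f → ∃ u ∈ R, Un O (f / (u : Ω)) := by
  let R0 : Subgroup Ωˣ :=
    { carrier := {u | (u : Ω) ∈ L}
      mul_mem' := fun {a b} ha hb => by
        simp only [Set.mem_ofPred_eq, Units.val_mul] at ha hb ⊢
        exact L.mul_mem ha hb
      one_mem' := by simp only [Set.mem_ofPred_eq, Units.val_one]; exact L.one_mem
      inv_mem' := fun {a} ha => by
        simp only [Set.mem_ofPred_eq, Units.val_inv_eq_inv_val] at ha ⊢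
        exact L.inv_mem ha }
  have hR0 : ∀ u : Ωˣ, u ∈ R0 ↔ (u : Ω) ∈ L := fun u => Iff.rfl
  have hdiv : ∀ w ∈ O.unitGroup, ∀ p : ℕ, 0 < p → ∃ w' ∈ O.unitGroup, w' ^ p = w := by
    intro w hw p hp
    obtain ⟨z, hz⟩ := IsAlgClosed.exists_pow_nat_eq (w : Ω) hp
    have hz0 : z ≠ 0 := by
      rintro rfl
      rw [zero_pow hp.ne'] at hz
      exact w.ne_zero hz.symm
    refine ⟨Units.mk0 z hz0, ?_, ?_⟩
    · rw [ValuationSubring.mem_unitGroup_iff] at hw ⊢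
      have h1 : O.valuation z ^ p = 1 := by rw [← map_pow, hz, hw]
      exact (pow_eq_one_iff_of_nonneg zero_le hp.ne').1 h1
    · ext
      simpa using hz
  obtain ⟨R, h1, h2, h3, h4⟩ := L3_group O.unitGroup R0 hdiv
  refine ⟨R, fun u hu => h1 ((hR0 u).2 hu), ?_, ?_, ?_⟩
  · intro u hu
    obtain ⟨n, hn, h⟩ := h2 u hu
    refine ⟨n, hn, ?_⟩
    have h5 := (hR0 _).1 h
    rwa [Units.val_pow_eq_pow_val] at h5
  · intro u hu hU
    exact (hR0 u).1 (h3 u hu ((L3_un O u).1 hU))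
  · intro f hf hfa
    obtain ⟨b, q, hbL, hb0, hq, hm1, hm2⟩ := JAC.torsion O L f hfa hf
    set g : Ωˣ := Units.mk0 f hf with hg
    set c : Ωˣ := Units.mk0 b hb0 with hc
    have h5 : g ^ q * (c⁻¹)⁻¹ ∈ O.unitGroup := by
      rw [← L3_un, inv_inv]
      have h6 : ((g ^ q * c : Ωˣ) : Ω) = b * f ^ q := by
        rw [Units.val_mul, Units.val_pow_eq_pow_val, hg, hc, Units.val_mk0, Units.val_mk0, mul_comm]
      rw [h6]
      exact ⟨hm1, hm2⟩
    obtain ⟨r, hr, h7⟩ := h4 q g hq ⟨c⁻¹, R.inv_mem (h1 ((hR0 c).2 hbL)), h5⟩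
    refine ⟨r, hr, ?_⟩
    rw [← L3_un] at h7
    have h8 : ((g * r⁻¹ : Ωˣ) : Ω) = f / (r : Ω) := by
      rw [Units.val_mul, Units.val_inv_eq_inv_val, hg, Units.val_mk0, div_eq_mul_inv]
    rw [← h8]
    exact h7

end Pool.Agent.Lib.MP_17a322_nt.FL
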