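import Pool.Agent.Lib.MP_17a322_nt.FL.LDefs

universe u

namespace Pool.Agent.Lib.MP_17a322_nt.FL

open Pool.Agent.Lib.MP_17a322_nt.ABN (Un)
open Pool.Agent.Lib.MP_17a322_nt.JAC (spn subset_spn)

/-- The elements of the field generated by a group of radicals are sums of elements of the group. -/
private theorem L4_sum {Ω : Type u} [Field Ω] (L : Subfield Ω) (R : Subgroup Ωˣ)
    (hR1 : ∀ u : Ωˣ, (u : Ω) ∈ L → u ∈ R) (hR2 : ∀ u ∈ R, ∃ n : ℕ, 0 < n ∧ (u : Ω) ^ n ∈ L) (z : Ω)
    (hz : z ∈ Subfield.closure {x : Ω | ∃ u ∈ R, (u : Ω) = x}) :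
    ∃ s : Multiset Ωˣ, (∀ u ∈ s, u ∈ R) ∧ (s.map (fun u : Ωˣ => (u : Ω))).sum = z := by
  set X : Set Ω := {x : Ω | ∃ u ∈ R, (u : Ω) = x} with hX
  have h1 : (1 : Ω) ∈ X := ⟨1, R.one_mem, rfl⟩
  have hmul : ∀ x y : Ω, x ∈ X → y ∈ X → x * y ∈ X := by
    rintro x y ⟨a, ha, rfl⟩ ⟨b, hb, rfl⟩
    exact ⟨a * b, R.mul_mem ha hb, by push_cast; ring⟩
  have hneg : ∀ u ∈ R, -u ∈ R := by
    intro u hu
    have : (-1 : Ωˣ) ∈ R := hR1 (-1) (by
      push_cast
      exact L.neg_mem L.one_mem)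
    have h2 := R.mul_mem this hu
    rwa [neg_one_mul] at h2
  have hint : ∀ x ∈ Subring.closure X, IsIntegral L x := by
    intro x hx
    induction hx using Subring.closure_induction with
    | mem x hx =>
      obtain ⟨u, hu, rfl⟩ := hx
      obtain ⟨n, hn, hun⟩ := hR2 u hu
      refine IsIntegral.of_pow hn ?_
      exact isIntegral_algebraMap (R := L) (A := Ω) (x := ⟨(u : Ω) ^ n, hun⟩)
    | zero => exact isIntegral_zero
    | one => exact isIntegral_one
    | add x y _ _ hx hy => exact hx.add hy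
    | neg x _ hx => exact hx.neg
    | mul x y _ _ hx hy => exact hx.mul hy
  have hL : ∀ x ∈ L, x ∈ Subring.closure X := by
    intro x hx
    by_cases h0 : x = 0
    · rw [h0]; exact zero_mem _
    · exact Subring.subset_closure ⟨Units.mk0 x h0, hR1 _ (by simpa using hx), rfl⟩
  let A : Subalgebra L Ω :=
    { Subring.closure X with
      algebraMap_mem' := fun r => hL r.1 r.2 }
  have hA : ∀ x, x ∈ A ↔ x ∈ Subring.closure X := fun x => Iff.rfl
  have hinv : ∀ x ∈ Subring.closure X, x⁻¹ ∈ Subring.closure X := by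
    intro x hx
    have h3 : IsAlgebraic L x := (hint x hx).isAlgebraic
    exact (hA _).1 (Subalgebra.inv_mem_of_algebraic A (x := ⟨x, (hA x).2 hx⟩) h3)
  let Fd : Subfield Ω := { Subring.closure X with inv_mem' := hinv }
  have hz2 : z ∈ Subring.closure X := by
    have : Subfield.closure X ≤ Fd := (Subfield.closure_le).2 (fun x hx => Subring.subset_closure hx)
    exact this hz
  rw [Subring.mem_closure_iff] at hz2
  clear hz
  have hsub : ∀ x ∈ Submonoid.closure X, x ∈ X := by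
    intro x hx
    induction hx using Submonoid.closure_induction with
    | mem x hx => exact hx
    | one => exact h1
    | mul x y _ _ hx hy => exact hmul x y hx hy
  induction hz2 using AddSubgroup.closure_induction with
  | mem x hx =>
    obtain ⟨u, hu, rfl⟩ := hsub x hx
    refine ⟨{u}, ?_, by simp⟩
    intro v hv
    rw [Multiset.mem_singleton.1 hv]
    exact hu
  | zero => exact ⟨0, by simp, by simp⟩
  | add x y hx hy ihx ihy =>
    obtain ⟨s, hs, rfl⟩ := ihx
    obtain ⟨t, ht, rfl⟩ := ihy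
    refine ⟨s + t, ?_, by simp⟩
    intro v hv
    rcases Multiset.mem_add.1 hv with h | h
    · exact hs v h
    · exact ht v h
  | neg x hx ihx =>
    obtain ⟨s, hs, rfl⟩ := ihx
    refine ⟨s.map (fun u => -u), ?_, ?_⟩
    · intro v hv
      obtain ⟨w, hw, rfl⟩ := Multiset.mem_map.1 hv
      exact hneg w (hs w hw)
    · rw [Multiset.map_map]
      simp only [Function.comp_def, Units.val_neg]
      rw [Multiset.sum_map_neg]

/-- A sum of elements of value less than `g` has value less than `g`. -/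
private theorem L4_lt {Ω : Type u} [Field Ω] (O : ValuationSubring Ω) (g : O.ValueGroup) (hg : 0 < g)
    (t : Multiset Ωˣ) (ht : ∀ u ∈ t, O.valuation (u : Ω) < g) :
    O.valuation (t.map (fun u : Ωˣ => (u : Ω))).sum < g := by
  induction t using Multiset.induction with
  | empty => simpa using hg
  | cons a t ih =>
    rw [Multiset.map_cons, Multiset.sum_cons]
    exact Valuation.map_add_lt _ (ht a (Multiset.mem_cons_self a t))
      (ih fun u hu => ht u (Multiset.mem_cons_of_mem hu))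

/-- The minimal representation: every term is at most the sum. -/
private theorem L4_min {Ω : Type u} [Field Ω] (O : ValuationSubring Ω) (L : Subfield Ω) (R : Subgroup Ωˣ)
    (hR1 : ∀ u : Ωˣ, (u : Ω) ∈ L → u ∈ R) (hR2 : ∀ u ∈ R, ∃ n : ℕ, 0 < n ∧ (u : Ω) ^ n ∈ L)
    (hR3 : ∀ u ∈ R, Un O (u : Ω) → (u : Ω) ∈ L) (z : Ω)
    (hz : z ∈ Subfield.closure {x : Ω | ∃ u ∈ R, (u : Ω) = x}) :
    ∃ s : Multiset Ωˣ, (∀ u ∈ s, u ∈ R ∧ O.valuation (u : Ω) ≤ O.valuation z) ∧
      (s.map (fun u : Ωˣ => (u : Ω))).sum = z := by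
  classical
  have hex : ∃ m : ℕ, ∃ s : Multiset Ωˣ, Multiset.card s = m ∧ (∀ u ∈ s, u ∈ R) ∧
      (s.map (fun u : Ωˣ => (u : Ω))).sum = z := by
    obtain ⟨s, hs, hsz⟩ := L4_sum L R hR1 hR2 z hz
    exact ⟨_, s, rfl, hs, hsz⟩
  obtain ⟨s, hcard, hs, hsz⟩ := Nat.find_spec hex
  have hmin : ∀ t : Multiset Ωˣ, (∀ u ∈ t, u ∈ R) → (t.map (fun u : Ωˣ => (u : Ω))).sum = z →
      Multiset.card s ≤ Multiset.card t := by
    intro t ht htz
    rw [hcard]
    exact Nat.find_min' hex ⟨t, rfl, ht, htz⟩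
  have hne : ∀ (u v : Ωˣ) (t : Multiset Ωˣ), s = u ::ₘ v ::ₘ t →
      O.valuation (u : Ω) ≠ O.valuation (v : Ω) := by
    intro u v t hst huv
    have hu : u ∈ R := hs u (by rw [hst]; exact Multiset.mem_cons_self _ _)
    have hv : v ∈ R := hs v (by
      rw [hst]; exact Multiset.mem_cons_of_mem (Multiset.mem_cons_self _ _))
    have ht : ∀ w ∈ t, w ∈ R := fun w hw => hs w (by
      rw [hst]; exact Multiset.mem_cons_of_mem (Multiset.mem_cons_of_mem hw))
    have hr : u * v⁻¹ ∈ R := R.mul_mem hu (R.inv_mem hv)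
    have hv0 : O.valuation (v : Ω) ≠ 0 := (Valuation.ne_zero_iff _).2 v.ne_zero
    have hval : O.valuation ((u * v⁻¹ : Ωˣ) : Ω) = 1 := by
      rw [Units.val_mul, Units.val_inv_eq_inv_val, map_mul, map_inv₀, huv, mul_inv_cancel₀ hv0]
    have hU : Un O ((u * v⁻¹ : Ωˣ) : Ω) := by
      refine ⟨?_, ?_⟩
      · rw [← O.valuation_le_one_iff, hval]
      · rw [← O.valuation_le_one_iff, map_inv₀, hval, inv_one]
    have hl := hR3 _ hr hU
    have hsum : (u : Ω) + (v : Ω) = (1 + ((u * v⁻¹ : Ωˣ) : Ω)) * (v : Ω) := by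
      rw [Units.val_mul, add_mul, one_mul, mul_assoc, Units.inv_mul, mul_one, add_comm]
    have hcs : Multiset.card s = Multiset.card t + 2 := by
      rw [hst, Multiset.card_cons, Multiset.card_cons]
    rw [hst, Multiset.map_cons, Multiset.sum_cons, Multiset.map_cons, Multiset.sum_cons,
      ← add_assoc] at hsz
    by_cases h0 : (1 + ((u * v⁻¹ : Ωˣ) : Ω)) = 0
    · rw [hsum, h0, zero_mul, zero_add] at hsz
      have := hmin t ht hsz
      omega
    · have hmem : (1 + ((u * v⁻¹ : Ωˣ) : Ω)) ∈ L := L.add_mem L.one_mem hl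
      have h5 : Units.mk0 _ h0 ∈ R := hR1 _ (by simpa using hmem)
      have h6 : Units.mk0 _ h0 * v ∈ R := R.mul_mem h5 hv
      have := hmin ((Units.mk0 _ h0 * v) ::ₘ t) (by
        intro w hw
        rcases Multiset.mem_cons.1 hw with h | h
        · rw [h]; exact h6
        · exact ht w h) (by
        rw [Multiset.map_cons, Multiset.sum_cons, Units.val_mul, Units.val_mk0, ← hsum]
        exact hsz)
      rw [Multiset.card_cons] at this
      omega
  refine ⟨s, ?_, hsz⟩
  intro u hu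
  refine ⟨hs u hu, ?_⟩
  obtain ⟨m, hm, hmax⟩ := s.toFinset.exists_max_image (fun u : Ωˣ => O.valuation (u : Ω))
    ⟨u, Multiset.mem_toFinset.2 hu⟩
  rw [Multiset.mem_toFinset] at hm
  obtain ⟨t, rfl⟩ := Multiset.exists_cons_of_mem hm
  have hlt : ∀ v ∈ t, O.valuation (v : Ω) < O.valuation (m : Ω) := by
    intro v hv
    obtain ⟨t', rfl⟩ := Multiset.exists_cons_of_mem hv
    refine lt_of_le_of_ne (hmax v (Multiset.mem_toFinset.2 (Multiset.mem_cons_of_mem hv))) ?_
    exact fun h => hne m v t' rfl h.symm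
  have hpos : 0 < O.valuation (m : Ω) :=
    zero_lt_iff.2 ((Valuation.ne_zero_iff _).2 m.ne_zero)
  have h7 := L4_lt O _ hpos t hlt
  have h8 : O.valuation z = O.valuation (m : Ω) := by
    rw [← hsz, Multiset.map_cons, Multiset.sum_cons]
    exact Valuation.map_add_eq_of_lt_left _ h7
  rw [h8]
  exact hmax u (Multiset.mem_toFinset.2 hu)

/-- The differential of a radical. -/
private theorem L4_one (K : Type u) {Ω : Type u} [Field K] [CharZero K] [Field Ω] [Algebra K Ω]
    (O : ValuationSubring Ω) (hO : ∀ c : K, algebraMap K Ω c ∈ O) (L : Subfield Ω) (S : Set Ω)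
    (u : Ωˣ) (hu : ∃ n : ℕ, 0 < n ∧ (u : Ω) ^ n ∈ L) :
    ∃ a b : Ω, b ∈ L ∧ b ≠ 0 ∧ O.valuation a = O.valuation (u : Ω) ∧
      (O.valuation (u : Ω) = 1 → Un O b) ∧ dd K S (u : Ω) = (a * b⁻¹) • dd K S b := by
  obtain ⟨n, hn, hl⟩ := hu
  have : CharZero Ω := charZero_of_injective_algebraMap (algebraMap K Ω).injective
  have hn0 : (n : Ω) ≠ 0 := by exact_mod_cast hn.ne'
  have hnO : (n : Ω) ∈ O := natCast_mem O n
  have hnO' : (n : Ω)⁻¹ ∈ O := by
    have := hO ((n : K)⁻¹)
    rwa [map_inv₀, map_natCast] at this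
  have hvn : O.valuation (n : Ω) = 1 := by
    refine le_antisymm ((O.valuation_le_one_iff _).2 hnO) ?_
    have h1 := (O.valuation_le_one_iff _).2 hnO'
    rw [map_inv₀] at h1
    have h0 : 0 < O.valuation (n : Ω) := zero_lt_iff.2 ((Valuation.ne_zero_iff _).2 hn0)
    exact (inv_le_one₀ h0).1 h1
  refine ⟨(u : Ω) * (n : Ω)⁻¹, (u : Ω) ^ n, hl, pow_ne_zero _ u.ne_zero, ?_, ?_, ?_⟩
  · rw [map_mul, map_inv₀, hvn, inv_one, mul_one]
  · intro h1
    refine ⟨?_, ?_⟩
    · rw [← O.valuation_le_one_iff, map_pow, h1, one_pow]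
    · rw [← O.valuation_le_one_iff, map_inv₀, map_pow, h1, one_pow, inv_one]
  · rw [Derivation.leibniz_pow, ← Nat.cast_smul_eq_nsmul Ω, smul_smul, smul_smul]
    have h2 : (u : Ω) * (n : Ω)⁻¹ * ((u : Ω) ^ n)⁻¹ * (n : Ω) * (u : Ω) ^ (n - 1) = 1 := by
      have h3 : (u : Ω) ^ n = (u : Ω) ^ (n - 1) * (u : Ω) := by
        rw [← pow_succ]
        congr 1
        omega
      rw [h3]
      have h4 := u.ne_zero
      field_simp
    rw [h2, one_smul]

/-- The elements of the field generated by a group of radicals: their differentials are combinations of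
logarithmic differentials of elements of `L`. -/
theorem rad_dd (K : Type u) {Ω : Type u} [Field K] [CharZero K] [Field Ω] [Algebra K Ω] (O : ValuationSubring Ω)
    (hO : ∀ c : K, algebraMap K Ω c ∈ O) (L : Subfield Ω) (S : Set Ω) (R : Subgroup Ωˣ) (hR1 : ∀ u : Ωˣ, (u : Ω) ∈ L → u ∈ R)
    (hR2 : ∀ u ∈ R, ∃ n : ℕ, 0 < n ∧ (u : Ω) ^ n ∈ L) (hR3 : ∀ u ∈ R, Un O (u : Ω) → (u : Ω) ∈ L) (z : Ω)
    (hz : z ∈ Subfield.closure {x : Ω | ∃ u ∈ R, (u : Ω) = x}) :
    (z ∈ O → dd K S z ∈ LG0 K O L S) ∧ (z ≠ 0 → z⁻¹ • dd K S z ∈ LG1 K O L S) := by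
  obtain ⟨s, hs, hsz⟩ := L4_min O L R hR1 hR2 hR3 z hz
  constructor
  · intro hzO
    have key : ∀ t : Multiset Ωˣ, (∀ u ∈ t, u ∈ R ∧ O.valuation (u : Ω) ≤ O.valuation z) →
        dd K S (t.map (fun u : Ωˣ => (u : Ω))).sum ∈ LG0 K O L S := by
      intro t ht
      induction t using Multiset.induction with
      | empty =>
        rw [Multiset.map_zero, Multiset.sum_zero, map_zero]
        exact zero_mem _
      | cons a t ih =>
        rw [Multiset.map_cons, Multiset.sum_cons, map_add]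
        refine add_mem ?_ (ih fun u hu => ht u (Multiset.mem_cons_of_mem hu))
        obtain ⟨haR, haz⟩ := ht a (Multiset.mem_cons_self a t)
        obtain ⟨c, b, hb, hb0, hc, hUn, hd⟩ := L4_one K O hO L S a (hR2 a haR)
        rw [hd]
        have hz1 : O.valuation z ≤ 1 := (O.valuation_le_one_iff _).2 hzO
        have ha1 : O.valuation (a : Ω) ≤ 1 := haz.trans hz1
        refine Pool.Agent.Lib.MP_17a322_nt.JAC.mem_spn O _ ⟨c, b, hb, hb0, ?_, ?_, rfl⟩
        · rw [← O.valuation_le_one_iff, hc]; exact ha1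
        · rcases lt_or_eq_of_le ha1 with h | h
          · left; rw [hc]; exact h
          · right; exact hUn h
    rw [← hsz]
    exact key s hs
  · intro hz0
    have key : ∀ t : Multiset Ωˣ, (∀ u ∈ t, u ∈ R ∧ O.valuation (u : Ω) ≤ O.valuation z) →
        z⁻¹ • dd K S (t.map (fun u : Ωˣ => (u : Ω))).sum ∈ LG1 K O L S := by
      intro t ht
      induction t using Multiset.induction with
      | empty =>
        rw [Multiset.map_zero, Multiset.sum_zero, map_zero, smul_zero]
        exact zero_mem _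
      | cons a t ih =>
        rw [Multiset.map_cons, Multiset.sum_cons, map_add, smul_add]
        refine add_mem ?_ (ih fun u hu => ht u (Multiset.mem_cons_of_mem hu))
        obtain ⟨haR, haz⟩ := ht a (Multiset.mem_cons_self a t)
        obtain ⟨c, b, hb, hb0, hc, hUn, hd⟩ := L4_one K O hO L S a (hR2 a haR)
        rw [hd, smul_smul, ← mul_assoc, ← smul_smul]
        refine subset_spn O _ ?_ ⟨b, hb, hb0, rfl⟩
        rw [← O.valuation_le_one_iff, map_mul, map_inv₀, hc]
        have h0 : 0 < O.valuation z := zero_lt_iff.2 ((Valuation.ne_zero_iff _).2 hz0)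
        rw [inv_mul_le_iff₀ h0, mul_one]
        exact haz
    have := key s hs
    rwa [hsz] at this

end Pool.Agent.Lib.MP_17a322_nt.FL
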