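import Pool.Agent.Lib.MP_17a322_nt.FL.L3
import Pool.Agent.Lib.MP_17a322_nt.FL.L4
import Pool.Agent.Lib.MP_17a322_nt.JAC.E6

universe u

namespace Pool.Agent.Lib.MP_17a322_nt.FL

open Pool.Agent.Lib.MP_17a322_nt.ABN (Un)
open Pool.Agent.Lib.MP_17a322_nt.JAC (spn subset_spn mem_spn smul_mem_spn spn_mono E6)

private theorem L5_le (K : Type u) {Ω : Type u} [Field K] [Field Ω] [Algebra K Ω]
    (O : ValuationSubring Ω) (L : Subfield Ω) (S : Set Ω) : LG0 K O L S ≤ LG1 K O L S := by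
  refine spn_mono O ?_
  rintro v ⟨a, b, hb, hb0, ha, -, rfl⟩
  rw [← smul_smul]
  exact subset_spn O _ ha ⟨b, hb, hb0, rfl⟩

private theorem L5_alg {Ω : Type u} [Field Ω] (L L' : Subfield Ω) (E0 : Subfield L')
    (h : ∀ z ∈ L, ∃ c : L', c ∈ E0 ∧ (c : Ω) = z) (f : L') (hf : IsAlgebraic L (f : Ω)) :
    IsAlgebraic E0 f := by
  have hLL : ∀ z ∈ L, z ∈ L' := by
    intro z hz
    obtain ⟨c, -, rfl⟩ := h z hz
    exact c.2
  have hE : ∀ (z : Ω) (hz : z ∈ L), (⟨z, hLL z hz⟩ : L') ∈ E0 := by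
    intro z hz
    obtain ⟨c, hc, hcz⟩ := h z hz
    have : (⟨z, hLL z hz⟩ : L') = c := Subtype.ext hcz.symm
    rw [this]
    exact hc
  obtain ⟨P, hP, hPf⟩ := hf
  let g : L →+* E0 :=
    { toFun := fun a => ⟨⟨a.1, hLL _ a.2⟩, hE _ a.2⟩
      map_one' := rfl
      map_mul' := fun a b => rfl
      map_zero' := rfl
      map_add' := fun a b => rfl }
  refine ⟨P.map g, ?_, ?_⟩
  · rwa [Ne, Polynomial.map_eq_zero_iff g.injective]
  · have hinj : Function.Injective (algebraMap L' Ω) := (algebraMap L' Ω).injective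
    apply hinj
    rw [map_zero, Polynomial.aeval_def, Polynomial.eval₂_map, Polynomial.hom_eval₂]
    exact hPf

/-- Algebraic extensions: the differentials of the elements of an algebraic extension of `L` are combinations
of logarithmic differentials of elements of `L`. -/
theorem PP_alg (K : Type u) {Ω : Type u} [Field K] [CharZero K] [Field Ω] [IsAlgClosed Ω] [Algebra K Ω] (O : ValuationSubring Ω)
    (hO : ∀ c : K, algebraMap K Ω c ∈ O) (L L' : Subfield Ω) (hLL : L ≤ L') (hL'1 : ∀ z ∈ L', IsAlgebraic L z)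
    (hL'2 : ∀ z : Ω, IsAlgebraic L z → z ∈ L') : PP K O L L' := by
  have hcz : CharZero Ω := charZero_of_injective_algebraMap (algebraMap K Ω).injective
  have hcz' : CharZero L' := (algebraMap L' Ω).charZero
  obtain ⟨R, hR1, hR2, hR3, hR4⟩ := exists_rad O L
  have hRL : ∀ u ∈ R, (u : Ω) ∈ L' := by
    intro u hu
    obtain ⟨n, hn, hl⟩ := hR2 u hu
    refine hL'2 _ (IsIntegral.isAlgebraic (IsIntegral.of_pow hn ?_))
    exact isIntegral_algebraMap (R := L) (A := Ω) (x := ⟨(u : Ω) ^ n, hl⟩)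
  set X : Set Ω := {x : Ω | ∃ u ∈ R, (u : Ω) = x} with hX
  have hrad := fun z hz => rad_dd K O hO L ∅ R hR1 hR2 hR3 z hz
  let OE : ValuationSubring L' := O.comap (algebraMap L' Ω)
  have hOE : ∀ x : L', x ∈ OE ↔ (x : Ω) ∈ O := fun x => Iff.rfl
  let E0 : Subfield L' := (Subfield.closure X).comap (algebraMap L' Ω)
  have hE0 : ∀ x : L', x ∈ E0 ↔ (x : Ω) ∈ Subfield.closure X := fun x => Iff.rfl
  let D : Derivation ℤ L' (DK K (∅ : Set Ω) → Ω) :=
    Derivation.mk' (AddMonoidHom.toIntLinearMap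
      { toFun := fun x : L' => dd K (∅ : Set Ω) (x : Ω)
        map_zero' := by
          change dd K (∅ : Set Ω) (0 : Ω) = 0
          rw [map_zero]
        map_add' := fun a b => by
          change dd K (∅ : Set Ω) ((a : Ω) + (b : Ω)) = _
          rw [map_add] }) (by
      intro a b
      change dd K (∅ : Set Ω) ((a : Ω) * (b : Ω)) = _
      rw [Derivation.leibniz]
      rfl)
  have hD : ∀ x : L', D x = dd K (∅ : Set Ω) (x : Ω) := fun x => rfl
  have hLX : ∀ z ∈ L, z ∈ Subfield.closure X := by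
    intro z hz
    by_cases h0 : z = 0
    · rw [h0]; exact zero_mem _
    · exact Subfield.subset_closure ⟨Units.mk0 z h0, hR1 _ (by simpa using hz), rfl⟩
  have hOn : ∀ n : ℕ, n ≠ 0 → (n : L')⁻¹ ∈ OE := by
    intro n _
    rw [hOE]
    have h1 := hO ((n : K)⁻¹)
    rw [map_inv₀, map_natCast] at h1
    have h2 : (((n : L')⁻¹ : L') : Ω) = (n : Ω)⁻¹ := by push_cast; rfl
    rw [h2]
    exact h1
  have halg : ∀ f : L', IsAlgebraic E0 f := by
    intro f
    refine L5_alg L L' E0 ?_ f (hL'1 _ f.2)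
    intro z hz
    exact ⟨⟨z, hLL hz⟩, hLX z hz, rfl⟩
  have hv : ∀ f : L', f ≠ 0 → ∃ b ∈ E0, b ≠ 0 ∧ f / b ∈ OE ∧ b / f ∈ OE := by
    intro f hf
    have hf' : (f : Ω) ≠ 0 := fun h => hf (Subtype.ext h)
    obtain ⟨u, hu, h1, h2⟩ := hR4 (f : Ω) hf' (hL'1 _ f.2)
    refine ⟨⟨(u : Ω), hRL u hu⟩, Subfield.subset_closure ⟨u, hu, rfl⟩, ?_, ?_, ?_⟩
    · intro h
      exact u.ne_zero (congrArg Subtype.val h)
    · exact h1
    · rw [inv_div] at h2
      exact h2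
  have key : ∀ y : Ω, y ∈ L' → y ∈ O → dd K (∅ : Set Ω) y ∈ LG0 K O L ∅ := by
    intro y hyL hyO
    have h := E6 OE hOn E0 halg hv D ⟨y, hyL⟩ hyO
    rw [hD] at h
    have hle : spn OE (D '' {b | b ∈ E0 ∧ b ∈ OE}) ≤ LG0 K O L ∅ := by
      refine (AddSubgroup.closure_le _).2 ?_
      rintro v ⟨a, ha, w, ⟨b, ⟨hb, hbO⟩, rfl⟩, rfl⟩
      rw [hD]
      exact smul_mem_spn O _ (a := (a : Ω)) ha ((hrad (b : Ω) hb).1 hbO)
    exact hle h
  intro Y hY
  refine ⟨∅, Set.empty_subset _, fun D₀ => ⟨D₀, fun z _ => rfl, fun s hs => hs.elim⟩, ?_⟩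
  intro y hy
  refine ⟨key y (hY y hy), fun hy0 => ?_⟩
  obtain ⟨u, hu, h1, h2⟩ := hR4 y hy0 (hL'1 _ (hY y hy))
  have hu0 : (u : Ω) ≠ 0 := u.ne_zero
  have hw : y / (u : Ω) ∈ L' := L'.div_mem (hY y hy) (hRL u hu)
  have hw0 : y / (u : Ω) ≠ 0 := div_ne_zero hy0 hu0
  have hd : y⁻¹ • dd K (∅ : Set Ω) y = (y / (u : Ω))⁻¹ • dd K (∅ : Set Ω) (y / (u : Ω)) +
      (u : Ω)⁻¹ • dd K (∅ : Set Ω) (u : Ω) := by
    have h3 : y = (y / (u : Ω)) * (u : Ω) := (div_mul_cancel₀ y hu0).symm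
    have h4 : dd K (∅ : Set Ω) y = (y / (u : Ω)) • dd K (∅ : Set Ω) (u : Ω) +
        (u : Ω) • dd K (∅ : Set Ω) (y / (u : Ω)) := by
      conv_lhs => rw [h3]
      rw [Derivation.leibniz]
    rw [h4, smul_add, smul_smul, smul_smul, add_comm]
    congr 2
    · field_simp
    · field_simp
  rw [hd]
  refine add_mem ?_ ?_
  · exact smul_mem_spn O _ h2 (L5_le K O L ∅ (key _ hw h1))
  · exact (hrad (u : Ω) (Subfield.subset_closure ⟨u, hu, rfl⟩)).2 hu0

end Pool.Agent.Lib.MP_17a322_nt.FL
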