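import Pool.Agent.Lib.MP_17a322_nt.FL.L2
import Pool.Agent.Lib.MP_17a322_nt.FL.L5

universe u

namespace Pool.Agent.Lib.MP_17a322_nt.FL

open Pool.Agent.Lib.MP_17a322_nt.JAC (spn smul_mem_spn mem_spn)
open Pool.Agent.Lib.MP_17a322_nt.ABN (Un)

/-- Linear maps and spans. -/
private theorem L6_map {Ω V W : Type*} [Field Ω] [AddCommGroup V] [Module Ω V] [AddCommGroup W]
    [Module Ω W] (T : V →ₗ[Ω] W) (O : ValuationSubring Ω) {X : Set V} {Y : Set W}
    (h : ∀ b ∈ X, T b ∈ spn O Y) {v : V} (hv : v ∈ spn O X) : T v ∈ spn O Y := by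
  induction hv using AddSubgroup.closure_induction with
  | mem v hv =>
    obtain ⟨a, ha, b, hb, rfl⟩ := hv
    rw [map_smul]
    exact smul_mem_spn O Y ha (h b hb)
  | zero => rw [map_zero]; exact zero_mem _
  | add v w _ _ hv hw => rw [map_add]; exact add_mem hv hw
  | neg v _ hv => rw [map_neg]; exact neg_mem hv

section

variable (K : Type u) {Ω : Type u} [Field K] [Field Ω] [Algebra K Ω]

/-- The restriction to the derivations which vanish on a larger set. -/
private noncomputable def L6_r {S S' : Set Ω} (h : S ⊆ S') : (DK K S → Ω) →ₗ[Ω] (DK K S' → Ω) :=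
  LinearMap.funLeft Ω Ω fun D => ⟨D.1, fun s hs => D.2 s (h hs)⟩

private theorem L6_r_dd {S S' : Set Ω} (h : S ⊆ S') (y : Ω) : L6_r K h (dd K S y) = dd K S' y := rfl

private theorem L6_r_LG0 {S S' : Set Ω} (h : S ⊆ S') (O : ValuationSubring Ω) (L : Subfield Ω)
    {v : DK K S → Ω} (hv : v ∈ LG0 K O L S) : L6_r K h v ∈ LG0 K O L S' := by
  refine L6_map (L6_r K h) O ?_ hv
  rintro _ ⟨a, b, hb, hb0, ha, hab, rfl⟩
  rw [map_smul, L6_r_dd]
  exact mem_spn O _ ⟨a, b, hb, hb0, ha, hab, rfl⟩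

private theorem L6_r_LG1 {S S' : Set Ω} (h : S ⊆ S') (O : ValuationSubring Ω) (L : Subfield Ω)
    {v : DK K S → Ω} (hv : v ∈ LG1 K O L S) : L6_r K h v ∈ LG1 K O L S' := by
  refine L6_map (L6_r K h) O ?_ hv
  rintro _ ⟨b, hb, hb0, rfl⟩
  rw [map_smul, L6_r_dd]
  exact mem_spn O _ ⟨b, hb, hb0, rfl⟩

/-- The multiples of the second span by elements of the maximal ideal are in the first. -/
private theorem L6_small (O : ValuationSubring Ω) (L : Subfield Ω) (S : Set Ω) {a : Ω}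
    (ha : O.valuation a < 1) {v : DK K S → Ω} (hv : v ∈ LG1 K O L S) : a • v ∈ LG0 K O L S := by
  have haO : a ∈ O := (O.valuation_le_one_iff a).1 ha.le
  have h1 := L6_map (a • (LinearMap.id : (DK K S → Ω) →ₗ[Ω] (DK K S → Ω))) O
    (Y := {v | ∃ a b : Ω, b ∈ L ∧ b ≠ 0 ∧ a ∈ O ∧ (O.valuation a < 1 ∨ Un O b) ∧
      v = (a * b⁻¹) • dd K S b}) (by
        rintro _ ⟨b, hb, hb0, rfl⟩
        refine mem_spn O _ ⟨a, b, hb, hb0, haO, Or.inl ha, ?_⟩
        rw [LinearMap.smul_apply, LinearMap.id_apply, smul_smul]) hv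
  exact h1

/-- The condition on the element `b`. -/
private def L6_P (O : ValuationSubring Ω) (L : Subfield Ω) (S : Set Ω) (b : Ω) : Prop :=
  (b ∈ O → dd K S b ∈ LG0 K O L S) ∧ (b ≠ 0 → b⁻¹ • dd K S b ∈ LG1 K O L S)

private theorem L6_fin0 (O : ValuationSubring Ω) (L L' : Subfield Ω) (S : Set Ω) {v : DK K S → Ω}
    (hv : v ∈ LG0 K O L' S) : ∃ T : Finset Ω, (∀ b ∈ T, b ∈ L') ∧
      ∀ (S' : Set Ω) (h : S ⊆ S'), (∀ b ∈ T, L6_P K O L S' b) → L6_r K h v ∈ LG0 K O L S' := by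
  classical
  induction hv using AddSubgroup.closure_induction with
  | mem v hv =>
    obtain ⟨a, ha, w, ⟨a', b, hb, hb0, ha', hab, rfl⟩, rfl⟩ := hv
    refine ⟨{b}, fun y hy => ?_, fun S' h hT => ?_⟩
    · rw [Finset.mem_singleton.1 hy]
      exact hb
    · obtain ⟨h1, h2⟩ := hT b (Finset.mem_singleton_self b)
      rw [map_smul, map_smul, L6_r_dd]
      refine smul_mem_spn O _ ha ?_
      rcases hab with hab | hab
      · rw [mul_smul]
        exact L6_small K O L S' hab (h2 hb0)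
      · exact smul_mem_spn O _ (O.mul_mem _ _ ha' hab.2) (h1 hab.1)
  | zero =>
    refine ⟨∅, fun y hy => absurd hy (Finset.notMem_empty y), fun S' h _ => ?_⟩
    rw [map_zero]
    exact zero_mem _
  | add v w _ _ hv hw =>
    obtain ⟨T, hT, h1⟩ := hv
    obtain ⟨T', hT', h2⟩ := hw
    refine ⟨T ∪ T', fun y hy => ?_, fun S' h hP => ?_⟩
    · rcases Finset.mem_union.1 hy with hy | hy
      · exact hT y hy
      · exact hT' y hy
    · rw [map_add]
      exact add_mem (h1 S' h fun b hb => hP b (Finset.mem_union_left _ hb))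
        (h2 S' h fun b hb => hP b (Finset.mem_union_right _ hb))
  | neg v _ hv =>
    obtain ⟨T, hT, h1⟩ := hv
    refine ⟨T, hT, fun S' h hP => ?_⟩
    rw [map_neg]
    exact neg_mem (h1 S' h hP)

private theorem L6_fin1 (O : ValuationSubring Ω) (L L' : Subfield Ω) (S : Set Ω) {v : DK K S → Ω}
    (hv : v ∈ LG1 K O L' S) : ∃ T : Finset Ω, (∀ b ∈ T, b ∈ L') ∧
      ∀ (S' : Set Ω) (h : S ⊆ S'), (∀ b ∈ T, L6_P K O L S' b) → L6_r K h v ∈ LG1 K O L S' := by
  classical
  induction hv using AddSubgroup.closure_induction with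
  | mem v hv =>
    obtain ⟨a, ha, w, ⟨b, hb, hb0, rfl⟩, rfl⟩ := hv
    refine ⟨{b}, fun y hy => ?_, fun S' h hT => ?_⟩
    · rw [Finset.mem_singleton.1 hy]
      exact hb
    · rw [map_smul, map_smul, L6_r_dd]
      exact smul_mem_spn O _ ha ((hT b (Finset.mem_singleton_self b)).2 hb0)
  | zero =>
    refine ⟨∅, fun y hy => absurd hy (Finset.notMem_empty y), fun S' h _ => ?_⟩
    rw [map_zero]
    exact zero_mem _
  | add v w _ _ hv hw =>
    obtain ⟨T, hT, h1⟩ := hv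
    obtain ⟨T', hT', h2⟩ := hw
    refine ⟨T ∪ T', fun y hy => ?_, fun S' h hP => ?_⟩
    · rcases Finset.mem_union.1 hy with hy | hy
      · exact hT y hy
      · exact hT' y hy
    · rw [map_add]
      exact add_mem (h1 S' h fun b hb => hP b (Finset.mem_union_left _ hb))
        (h2 S' h fun b hb => hP b (Finset.mem_union_right _ hb))
  | neg v _ hv =>
    obtain ⟨T, hT, h1⟩ := hv
    refine ⟨T, hT, fun S' h hP => ?_⟩
    rw [map_neg]
    exact neg_mem (h1 S' h hP)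

/-- The finitely many elements needed for one `y`. -/
private theorem L6_one (O : ValuationSubring Ω) (L L' : Subfield Ω) (S : Set Ω) (y : Ω)
    (hy : L6_P K O L' S y) : ∃ T : Finset Ω, (∀ b ∈ T, b ∈ L') ∧
      ∀ S' : Set Ω, S ⊆ S' → (∀ b ∈ T, L6_P K O L S' b) → L6_P K O L S' y := by
  classical
  obtain ⟨T, hT, h1⟩ : ∃ T : Finset Ω, (∀ b ∈ T, b ∈ L') ∧
      ∀ S' : Set Ω, S ⊆ S' → (∀ b ∈ T, L6_P K O L S' b) → y ∈ O → dd K S' y ∈ LG0 K O L S' := by
    by_cases hO : y ∈ O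
    · obtain ⟨T, hT, h1⟩ := L6_fin0 K O L L' S (hy.1 hO)
      exact ⟨T, hT, fun S' h hP _ => h1 S' h hP⟩
    · exact ⟨∅, fun b hb => absurd hb (Finset.notMem_empty b), fun S' _ _ h => absurd h hO⟩
  obtain ⟨T', hT', h2⟩ : ∃ T : Finset Ω, (∀ b ∈ T, b ∈ L') ∧
      ∀ S' : Set Ω, S ⊆ S' → (∀ b ∈ T, L6_P K O L S' b) → y ≠ 0 →
        y⁻¹ • dd K S' y ∈ LG1 K O L S' := by
    by_cases h0 : y = 0
    · exact ⟨∅, fun b hb => absurd hb (Finset.notMem_empty b), fun S' _ _ h => absurd h0 h⟩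
    · obtain ⟨T, hT, h1⟩ := L6_fin1 K O L L' S (hy.2 h0)
      refine ⟨T, hT, fun S' h hP _ => ?_⟩
      have h2 := h1 S' h hP
      rwa [map_smul, L6_r_dd] at h2
  refine ⟨T ∪ T', fun b hb => ?_, fun S' h hP => ⟨h1 S' h fun b hb => hP b (Finset.mem_union_left _ hb),
    h2 S' h fun b hb => hP b (Finset.mem_union_right _ hb)⟩⟩
  rcases Finset.mem_union.1 hb with hb | hb
  · exact hT b hb
  · exact hT' b hb

end

/-- Monotonicity of algebraicity in the field. -/
private theorem L6_mono {Ω : Type u} [Field Ω] {A B : Subfield Ω} (h : A ≤ B) {z : Ω}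
    (hz : IsAlgebraic A z) : IsAlgebraic B z := by
  let _ : Algebra A B := (Subfield.inclusion h).toAlgebra
  have _ : IsScalarTower A B Ω := IsScalarTower.of_algebraMap_eq fun _ => rfl
  exact hz.tower_top B

/-- The algebraic closure of a subfield. -/
private theorem L6_closure {Ω : Type u} [Field Ω] (L : Subfield Ω) :
    ∃ L₁ : Subfield Ω, L ≤ L₁ ∧ (∀ z ∈ L₁, IsAlgebraic L z) ∧ (∀ z : Ω, IsAlgebraic L z → z ∈ L₁) ∧
      ∀ z : Ω, IsAlgebraic L₁ z → z ∈ L₁ := by
  refine ⟨(algebraicClosure L Ω).toSubfield, fun z hz => ?_, fun z hz => ?_, fun z hz => ?_,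
    fun z hz => ?_⟩
  · exact mem_algebraicClosure_iff.2 (isAlgebraic_algebraMap (⟨z, hz⟩ : L))
  · exact mem_algebraicClosure_iff.1 hz
  · exact mem_algebraicClosure_iff.2 hz
  · have h1 : IsAlgebraic (algebraicClosure L Ω) z := hz
    exact mem_algebraicClosure_iff.2 (h1.restrictScalars L)

/-- Transitivity. -/
theorem PP_trans (K : Type u) {Ω : Type u} [Field K] [Field Ω] [Algebra K Ω] (O : ValuationSubring Ω) (L L' L'' : Subfield Ω)
    (hL : L ≤ L') (hL' : L' ≤ L'') (h : PP K O L L') (h' : PP K O L' L'') : PP K O L L'' := by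
  classical
  intro Y hY
  obtain ⟨S'', hS'', hG'', hP''⟩ := h' Y hY
  have h1 : ∀ y : Y, ∃ T : Finset Ω, (∀ b ∈ T, b ∈ L') ∧
      ∀ S' : Set Ω, S'' ⊆ S' → (∀ b ∈ T, L6_P K O L S' b) → L6_P K O L S' (y : Ω) := fun y =>
    L6_one K O L L' S'' y (hP'' y y.2)
  choose T hT hT' using h1
  obtain ⟨S', hS', hG', hP'⟩ := h (Finset.univ.biUnion T) (fun b hb => by
    obtain ⟨y, -, hy⟩ := Finset.mem_biUnion.1 hb
    exact hT y b hy)
  refine ⟨S' ∪ S'', Set.union_subset (fun s hs => hL' (hS' hs)) hS'',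
    good_trans K L L' hL S' S'' hS' hG' hG'', fun y hy => ?_⟩
  refine hT' ⟨y, hy⟩ (S' ∪ S'') Set.subset_union_right fun b hb => ?_
  obtain ⟨h2, h3⟩ := hP' b (Finset.mem_biUnion.2 ⟨⟨y, hy⟩, Finset.mem_univ _, hb⟩)
  refine ⟨fun hbO => ?_, fun hb0 => ?_⟩
  · have h4 := L6_r_LG0 K (Set.subset_union_left (s := S') (t := S'')) O L (h2 hbO)
    rwa [L6_r_dd] at h4
  · have h4 := L6_r_LG1 K (Set.subset_union_left (s := S') (t := S'')) O L (h3 hb0)
    rwa [map_smul, L6_r_dd] at h4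

/-- Extensions of finite transcendence degree. -/
theorem PP_top (K : Type u) {Ω : Type u} [Field K] [CharZero K] [Field Ω] [IsAlgClosed Ω] [Algebra K Ω] (O : ValuationSubring Ω)
    (hO : ∀ c : K, algebraMap K Ω c ∈ O) (r : ℕ) : ∀ (L : Subfield Ω) (_ : ∀ c : K, algebraMap K Ω c ∈ L) (x : Fin r → Ω)
    (_ : ∀ z : Ω, IsAlgebraic (Subfield.closure ((L : Set Ω) ∪ Set.range x)) z), PP K O L ⊤ := by
  induction r with
  | zero =>
    intro L hK x hx
    refine PP_alg K O hO L ⊤ le_top (fun z _ => ?_) fun z _ => Subfield.mem_top z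
    have h1 : Subfield.closure ((L : Set Ω) ∪ Set.range x) ≤ L := by
      refine Subfield.closure_le.2 (Set.union_subset (fun _ h => h) ?_)
      rintro _ ⟨i, rfl⟩
      exact i.elim0
    exact L6_mono h1 (hx z)
  | succ r ih =>
    intro L hK x hx
    obtain ⟨L₁, h1, h2, h3, h4⟩ := L6_closure L
    have hPL : PP K O L L₁ := PP_alg K O hO L L₁ h1 h2 h3
    have hK1 : ∀ c : K, algebraMap K Ω c ∈ L₁ := fun c => h1 (hK c)
    -- the induction hypothesis for a field which contains `L₁` and `x 0`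
    have key : ∀ M : Subfield Ω, L₁ ≤ M → x 0 ∈ M → PP K O M ⊤ := by
      intro M hM h0
      refine ih M (fun c => hM (hK1 c)) (fun i => x i.succ) fun z => ?_
      have h5 : Subfield.closure ((L : Set Ω) ∪ Set.range x) ≤
          Subfield.closure ((M : Set Ω) ∪ Set.range fun i : Fin r => x i.succ) := by
        refine Subfield.closure_le.2 (Set.union_subset (fun y hy => ?_) ?_)
        · exact Subfield.subset_closure (Or.inl (hM (h1 hy)))
        · rintro _ ⟨i, rfl⟩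
          refine Fin.cases ?_ (fun j => ?_) i
          · exact Subfield.subset_closure (Or.inl h0)
          · exact Subfield.subset_closure (Or.inr ⟨j, rfl⟩)
      exact L6_mono h5 (hx z)
    by_cases h0 : x 0 ∈ L₁
    · exact PP_trans K O L L₁ ⊤ h1 le_top hPL (key L₁ le_rfl h0)
    · have h5 : L₁ ≤ Subfield.closure ((L₁ : Set Ω) ∪ {x 0}) := fun y hy =>
        Subfield.subset_closure (Or.inl hy)
      have h6 := PP_single K O hO L₁ hK1 h4 (x 0) h0
      exact PP_trans K O L L₁ ⊤ h1 le_top hPL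
        (PP_trans K O L₁ _ ⊤ h5 le_top h6 (key _ h5 (Subfield.subset_closure (Or.inr rfl))))

end Pool.Agent.Lib.MP_17a322_nt.FL
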