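import Pool.Agent.Lib.MP_17a322_nt.ABN.N5

universe u

namespace Pool.Agent.Lib.MP_17a322_nt.FL

open MvPolynomial
open Pool.Agent.Lib.MP_17a322_nt.JAC
open Pool.Agent.Lib.MP_17a322_nt.ABN

/-- The elements of `F0 K x` are algebraically dependent if there are more of them than `x`. -/
private theorem L8_dep {K F α : Type*} [Field K] [Field F] [Algebra K F] [Fintype α] (x : α → F)
    (hx : AlgebraicIndependent K x) (g : F) (hg : g ∈ F0 K x) (b : α → F) (hb : ∀ k, b k ∈ F0 K x) :
    ∃ p : Polynomial (MvPolynomial α K), p ≠ 0 ∧ p.eval₂ (aeval b : MvPolynomial α K →ₐ[K] F).toRingHom g = 0 := by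
  have hle : ∀ a : F, a ∈ F0 K x → a ∈ IntermediateField.adjoin K (Set.range x) := fun a ha => ha
  have hge : ∀ a : F, a ∈ IntermediateField.adjoin K (Set.range x) → a ∈ F0 K x := fun a ha => ha
  obtain ⟨x', hx'⟩ : ∃ x' : α → IntermediateField.adjoin K (Set.range x), ∀ k, (x' k : F) = x k :=
    ⟨fun k => ⟨x k, IntermediateField.subset_adjoin K _ ⟨k, rfl⟩⟩, fun _ => rfl⟩
  have hxi : AlgebraicIndependent K x' := by
    refine AlgebraicIndependent.of_comp (IntermediateField.adjoin K (Set.range x)).val ?_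
    have h1 : (IntermediateField.adjoin K (Set.range x)).val ∘ x' = x := funext hx'
    rw [h1]
    exact hx
  have htop : ∀ z : IntermediateField.adjoin K (Set.range x), z ∈ F0 K x' := by
    intro z
    have h1 : (F0 K x').map (IntermediateField.adjoin K (Set.range x)).val.toRingHom = F0 K x := by
      unfold F0
      rw [RingHom.map_field_closure, Set.image_union]
      congr 2
      · ext a
        constructor
        · rintro ⟨_, ⟨c, rfl⟩, rfl⟩
          exact ⟨c, rfl⟩
        · rintro ⟨c, rfl⟩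
          exact ⟨_, ⟨c, rfl⟩, rfl⟩
      · ext a
        constructor
        · rintro ⟨_, ⟨k, rfl⟩, rfl⟩
          exact ⟨k, (hx' k).symm⟩
        · rintro ⟨k, rfl⟩
          exact ⟨_, ⟨k, rfl⟩, hx' k⟩
    have h2 : (z : F) ∈ (F0 K x').map (IntermediateField.adjoin K (Set.range x)).val.toRingHom := by
      rw [h1]
      exact hge _ z.2
    obtain ⟨y, hy, hyz⟩ := Subfield.mem_map.1 h2
    have h3 : y = z := Subtype.ext hyz
    rw [← h3]
    exact hy
  have hb' : IsTranscendenceBasis K x' :=
    N5_basis x' hxi fun z => isAlgebraic_algebraMap (⟨z, htop z⟩ : F0 K x')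
  obtain ⟨b', hbb⟩ : ∃ b' : α → IntermediateField.adjoin K (Set.range x), ∀ k, (b' k : F) = b k :=
    ⟨fun k => ⟨b k, hle _ (hb k)⟩, fun _ => rfl⟩
  obtain ⟨p, hp0, hp⟩ := N5_dep x' hb' ⟨g, hle g hg⟩ b'
  have key : ∀ Q : MvPolynomial α K, aeval b Q = ((aeval b' Q : IntermediateField.adjoin K (Set.range x)) : F) := by
    intro Q
    have h2 : b = fun k => (IntermediateField.adjoin K (Set.range x)).val (b' k) := funext fun k => (hbb k).symm
    rw [h2, ← comp_aeval_apply]
    rfl
  refine ⟨p, hp0, ?_⟩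
  have h1 := congrArg (IntermediateField.adjoin K (Set.range x)).val.toRingHom hp
  rw [Polynomial.hom_eval₂, map_zero] at h1
  rw [← h1]
  congr 1
  refine RingHom.ext fun Q => ?_
  exact key Q

/-- A strictly larger determinant of logarithmic differentials exists if some element of the field
generated by the `x l` is not a unit. -/
theorem ST2 {K F α : Type*} [Field K] [CharZero K] [Field F] [Algebra K F] [Fintype α] [DecidableEq α] (x : α → F)
    (hx : AlgebraicIndependent K x) (δ : α → Derivation K F F) (A : ValuationSubring F)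
    (hA : ∀ c : K, algebraMap K F c ∈ A) (b : α → F) (hb : ∀ k, b k ∈ F0 K x) (hu : ∀ k, Un A (b k)) (f : F) (hf : f ∈ F0 K x)
    (hf0 : f ≠ 0) (hfu : ¬ Un A f) :
    GG (fun l => δ l) b = 0 ∨ ∃ b' : α → F, (∀ k, b' k ∈ F0 K x ∧ b' k ≠ 0) ∧
      A.valuation (GG (fun l => δ l) b) < A.valuation (GG (fun l => δ l) b') := by
  by_cases hb0 : ∀ k, b k ≠ 0
  swap
  · left
    push Not at hb0
    obtain ⟨k, hk⟩ := hb0
    unfold GG
    refine Matrix.det_eq_zero_of_row_eq_zero k fun l => ?_
    rw [Matrix.of_apply, hk, div_zero]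
  by_cases hG : GG (fun l => δ l) b = 0
  · exact Or.inl hG
  right
  have hvb : ∀ k, A.valuation (b k) = 1 := by
    intro k
    refine le_antisymm ((A.valuation_le_one_iff _).2 (hu k).1) ?_
    have h2 : A.valuation (b k)⁻¹ ≤ 1 := (A.valuation_le_one_iff _).2 (hu k).2
    have h3 : A.valuation (b k) * A.valuation (b k)⁻¹ = 1 := by
      rw [← map_mul, mul_inv_cancel₀ (hb0 k), map_one]
    calc (1 : A.ValueGroup) = A.valuation (b k) * A.valuation (b k)⁻¹ := h3.symm
      _ ≤ A.valuation (b k) := mul_le_of_le_one_right' h2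
  -- an element of the maximal ideal
  obtain ⟨g, hgF, hg0, hg⟩ : ∃ g : F, g ∈ F0 K x ∧ g ≠ 0 ∧ A.valuation g < 1 := by
    by_cases h1 : f ∈ A
    · refine ⟨f, hf, hf0, lt_of_le_of_ne ((A.valuation_le_one_iff _).2 h1) fun h2 => hfu ⟨h1, ?_⟩⟩
      rw [← A.valuation_le_one_iff, map_inv₀, h2, inv_one]
    · refine ⟨f⁻¹, (F0 K x).inv_mem hf, inv_ne_zero hf0, ?_⟩
      have h2 : 1 < A.valuation f := by
        rw [← not_le, A.valuation_le_one_iff]
        exact h1
      rw [map_inv₀]
      exact (inv_lt_one₀ (lt_trans zero_lt_one h2)).2 h2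
  obtain ⟨p, hp0, hp⟩ := L8_dep x hx g hgF b hb
  obtain ⟨Q₀, hQ₀, hvQ₀⟩ := N5_exists A hA b (fun k => (hu k).1) g hg0 hg p.natDegree p le_rfl hp0 hp
  obtain ⟨Q, i, hQ, hQi⟩ := N5_min A hA b (fun k => (hu k).1) Q₀.totalDegree Q₀ le_rfl hQ₀ hvQ₀
  obtain ⟨c, hc⟩ : ∃ c : F, c = aeval b Q := ⟨_, rfl⟩
  obtain ⟨M, hM⟩ : ∃ M : Matrix α α F, M = Matrix.of fun k l => δ l (b k) / b k := ⟨_, rfl⟩
  have hGM : GG (fun l => δ l) b = M.det := by rw [hM]; rfl
  have h1 : (M.updateRow i (fun l => δ l c)).det = aeval b (pderiv i Q) * b i * M.det := by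
    have h2 : (fun l => δ l c) = ∑ j, (aeval b (pderiv j Q) * b j) • M j := by
      funext l
      rw [hc, N5_chain, Finset.sum_apply]
      refine Finset.sum_congr rfl fun j _ => ?_
      rw [Pi.smul_apply, smul_eq_mul, hM, Matrix.of_apply]
      field_simp [hb0 j]
    rw [h2, Matrix.det_updateRow_sum, smul_eq_mul]
  have hq0 : aeval b (pderiv i Q) ≠ 0 := by
    intro h
    rw [h, map_zero] at hQi
    exact zero_ne_one hQi
  rw [hGM] at hG
  have hc0 : c ≠ 0 := by
    intro h
    have h2 : (M.updateRow i (fun l => δ l c)).det = 0 := by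
      refine Matrix.det_eq_zero_of_row_eq_zero i fun l => ?_
      rw [Matrix.updateRow_self, h, map_zero]
    rw [h2] at h1
    exact (mul_ne_zero (mul_ne_zero hq0 (hb0 i)) hG) h1.symm
  refine ⟨Function.update b i c, ?_, ?_⟩
  · intro k
    by_cases hk : k = i
    · subst hk
      rw [Function.update_self]
      refine ⟨?_, hc0⟩
      rw [hc]
      exact N5_memF x b hb Q
    · rw [Function.update_of_ne hk]
      exact ⟨hb k, hb0 k⟩
  · have h2 : GG (fun l => δ l) (Function.update b i c) = (M.updateRow i (fun l => c⁻¹ • δ l c)).det := by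
      unfold GG
      congr 1
      ext k l
      rw [Matrix.of_apply]
      by_cases hk : k = i
      · subst hk
        rw [Function.update_self, Matrix.updateRow_self, smul_eq_mul, div_eq_mul_inv, mul_comm]
      · rw [Function.update_of_ne hk, Matrix.updateRow_ne hk, hM, Matrix.of_apply]
    have h3 : c * GG (fun l => δ l) (Function.update b i c) = aeval b (pderiv i Q) * b i * M.det := by
      have h4 : (fun l => c⁻¹ • δ l c) = c⁻¹ • (fun l => δ l c) := rfl
      rw [h2, h4, Matrix.det_updateRow_smul, h1]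
      field_simp
    have h4 : A.valuation c * A.valuation (GG (fun l => δ l) (Function.update b i c)) = A.valuation M.det := by
      rw [← map_mul, h3, map_mul, map_mul, hQi, hvb i, one_mul, one_mul]
    have h5 : A.valuation M.det ≠ 0 := (map_ne_zero _).2 hG
    have h6 : A.valuation (GG (fun l => δ l) (Function.update b i c)) ≠ 0 := by
      intro h
      rw [h, mul_zero] at h4
      exact h5 h4.symm
    rw [hGM, ← h4]
    refine mul_lt_of_lt_one_left (zero_lt_iff.2 h6) ?_
    rw [hc]
    exact hQ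

end Pool.Agent.Lib.MP_17a322_nt.FL
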