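import Pool.Agent.Lib.MP_17a322_nt.FL.L6
import Pool.Agent.Lib.MP_17a322_nt.FL.L8
import Pool.Agent.Lib.MP_17a322_nt.ABN.N4
import Pool.Agent.Lib.MP_17a322_nt.ABN.N6

universe u

namespace Pool.Agent.Lib.MP_17a322_nt.FL

open MvPolynomial
open Pool.Agent.Lib.MP_17a322_nt.JAC
open Pool.Agent.Lib.MP_17a322_nt.ABN

/-- Algebraicity over the image of a small field. -/
theorem L7_alg {E Ω : Type*} [Field E] [Field Ω] [Algebra E Ω] (hΩ : ∀ z : Ω, IsAlgebraic E z) (C : Subfield E)
    (hC : ∀ f : E, IsAlgebraic C f) (z : Ω) : IsAlgebraic (C.map (algebraMap E Ω)) z := by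
  have : Algebra.IsAlgebraic C E := ⟨hC⟩
  have : Algebra.IsAlgebraic E Ω := ⟨hΩ⟩
  have : Algebra.IsAlgebraic C Ω := Algebra.IsAlgebraic.trans C E Ω
  obtain ⟨P, hP, hPf⟩ := Algebra.IsAlgebraic.isAlgebraic (R := C) z
  let g : C →+* (C.map (algebraMap E Ω)) :=
    { toFun := fun a => ⟨algebraMap E Ω a, ⟨a.1, a.2, rfl⟩⟩
      map_one' := Subtype.ext (map_one _)
      map_mul' := fun a b => Subtype.ext (map_mul _ _ _)
      map_zero' := Subtype.ext (map_zero _)
      map_add' := fun a b => Subtype.ext (map_add _ _ _) }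
  refine ⟨P.map g, ?_, ?_⟩
  · rwa [Ne, Polynomial.map_eq_zero_iff g.injective]
  · rw [Polynomial.aeval_def, Polynomial.eval₂_map]
    have h1 : (algebraMap (C.map (algebraMap E Ω)) Ω).comp g = algebraMap C Ω := by
      ext a
      rfl
    rw [h1]
    exact hPf

/-- A vector whose images under all linear forms vanish is zero; the claim for the sums. -/
theorem L7_claim {K E Ω : Type*} {ι : Type*} [Field K] [Field E] [Field Ω] [Algebra K E] [Algebra K Ω] [Algebra E Ω]
    [IsScalarTower K E Ω] [Fintype ι] (y : ι → E) (a : ι → E) {α : Type*} (w : α → E)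
    (hv : ∀ D : Derivation K E E, (∀ l, D (w l) = 0) → ∑ k, a k * D (y k) = 0)
    (δ : Derivation K E E) (D : Derivation K Ω Ω)
    (hD : ∀ l, D (algebraMap E Ω (w l)) = algebraMap E Ω (δ (w l))) :
    ∑ k, algebraMap E Ω (a k) * D (algebraMap E Ω (y k)) = algebraMap E Ω (∑ k, a k * δ (y k)) := by
  have h0 : ∑ k, a k • (D (algebraMap E Ω (y k)) - algebraMap E Ω (δ (y k))) = 0 := by
    refine (Module.forall_dual_apply_eq_zero_iff E _).1 fun φ => ?_
    let D' : Derivation K E E := Derivation.mk'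
      { toFun := fun f => φ (D (algebraMap E Ω f) - algebraMap E Ω (δ f))
        map_add' := fun f g => by
          rw [← map_add]
          congr 1
          rw [map_add, map_add, map_add, map_add]
          ring
        map_smul' := fun c f => by
          have h1 : D (algebraMap E Ω (c • f)) - algebraMap E Ω (δ (c • f)) =
              (algebraMap K E c) • (D (algebraMap E Ω f) - algebraMap E Ω (δ f)) := by
            have h2 : algebraMap E Ω (c • f) = c • algebraMap E Ω f := by
              rw [Algebra.smul_def, map_mul, ← IsScalarTower.algebraMap_apply, ← Algebra.smul_def]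
            rw [h2, Derivation.map_smul, Derivation.map_smul, Algebra.smul_def c (δ f), map_mul, Algebra.smul_def c (D _),
              Algebra.smul_def (algebraMap K E c), ← IsScalarTower.algebraMap_apply, mul_sub]
          rw [h1, map_smul, RingHom.id_apply, Algebra.smul_def c (φ _), smul_eq_mul] }
      (by
        intro f g
        show φ (D (algebraMap E Ω (f * g)) - algebraMap E Ω (δ (f * g))) =
          f • φ (D (algebraMap E Ω g) - algebraMap E Ω (δ g)) +
            g • φ (D (algebraMap E Ω f) - algebraMap E Ω (δ f))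
        rw [← map_smul, ← map_smul, ← map_add]
        congr 1
        rw [map_mul, Derivation.leibniz, Derivation.leibniz, Algebra.smul_def f (_ - _),
          Algebra.smul_def g (_ - _)]
        simp only [smul_eq_mul, map_add, map_mul]
        ring)
    have hD' : ∀ f, D' f = φ (D (algebraMap E Ω f) - algebraMap E Ω (δ f)) := fun f => rfl
    have h1 := hv D' fun l => by rw [hD', hD, sub_self, map_zero]
    rw [map_sum, ← h1]
    refine Finset.sum_congr rfl fun k _ => ?_
    rw [map_smul, hD', smul_eq_mul]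
  have h1 : ∀ k, a k • (D (algebraMap E Ω (y k)) - algebraMap E Ω (δ (y k))) =
      algebraMap E Ω (a k) * D (algebraMap E Ω (y k)) - algebraMap E Ω (a k * δ (y k)) := by
    intro k
    rw [Algebra.smul_def, mul_sub, map_mul]
  simp only [h1, Finset.sum_sub_distrib] at h0
  rw [map_sum]
  exact sub_eq_zero.1 h0

/-- Evaluation of the vectors in `LG0`. -/
theorem L7_ev {K E Ω : Type u} {α : Type} [Field K] [Field E] [Field Ω] [Algebra K E] [Algebra K Ω] [Algebra E Ω]
    [IsScalarTower K E Ω] (w : α → E) (δ : α → Derivation K E E) (O : ValuationSubring Ω) (S : Set Ω)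
    (D : α → DK K S)
    (hD : ∀ l, ∀ b ∈ F0 K w, (D l).1 (algebraMap E Ω b) = algebraMap E Ω (δ l b))
    (v : DK K S → Ω) (hv : v ∈ LG0 K O ((F0 K w).map (algebraMap E Ω)) S) :
    (fun l => v (D l)) ∈ spn O {v : α → Ω | ∃ (a : Ω) (b : E), b ∈ F0 K w ∧ b ≠ 0 ∧ a ∈ O ∧
      (O.valuation a < 1 ∨ Un O (algebraMap E Ω b)) ∧ v = fun l => a * algebraMap E Ω (δ l b / b)} := by
  unfold LG0 at hv
  induction hv using AddSubgroup.closure_induction with
  | mem v hv =>
    obtain ⟨c, hc, v', ⟨a, b, hb, hb0, ha, hab, rfl⟩, rfl⟩ := hv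
    obtain ⟨b₀, hb₀, rfl⟩ := hb
    have hb₀0 : b₀ ≠ 0 := by
      rintro rfl
      exact hb0 (map_zero _)
    have h1 : (fun l => (c • ((a * (algebraMap E Ω b₀)⁻¹) • dd K S (algebraMap E Ω b₀))) (D l)) =
        c • fun l => a * algebraMap E Ω (δ l b₀ / b₀) := by
      funext l
      rw [Pi.smul_apply, Pi.smul_apply, Pi.smul_apply, dd_apply, hD l b₀ hb₀, map_div₀, smul_eq_mul,
        smul_eq_mul, smul_eq_mul]
      ring
    rw [h1]
    exact subset_spn O _ hc (b := fun l => a * algebraMap E Ω (δ l b₀ / b₀))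
      ⟨a, b₀, hb₀, hb₀0, ha, hab, rfl⟩
  | zero => exact zero_mem _
  | add v v' _ _ h1 h2 => exact add_mem h1 h2
  | neg v _ h1 => exact neg_mem h1

/-- The rows of the determinant are combinations of logarithmic differentials. -/
theorem L7_rs {K E : Type u} {α ι : Type} [Field K] [CharZero K] [Field E] [Algebra K E] [Fintype α]
    [Fintype ι] (w : α → E) (r : ℕ) (x : Fin r → E)
    (hx : ∀ z : E, IsAlgebraic (Subfield.closure ((F0 K w : Set E) ∪ Set.range x)) z) (δ : α → Derivation K E E)
    (A : ValuationSubring E) (hA : ∀ c : K, algebraMap K E c ∈ A)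
    (O : ValuationSubring (AlgebraicClosure E)) (hO : ∀ f : E, algebraMap E (AlgebraicClosure E) f ∈ O ↔ f ∈ A)
    (y : ι → E) (hy : ∀ k, y k ∈ A) (a : α → ι → E) (ha : ∀ j k, a j k ∈ A)
    (hv : ∀ D : Derivation K E E, (∀ l, D (w l) = 0) → ∀ j, ∑ k, a j k * D (y k) = 0) (j : α) :
    Rs (fun l => δ l) (F0 K w) O (fun l => ∑ k, a j k * δ l (y k)) := by
  classical
  have hfalg : ∀ z : AlgebraicClosure E, IsAlgebraic E z := fun z =>
    Algebra.IsAlgebraic.isAlgebraic (R := E) z
  have hKE : ∀ c : K, algebraMap K (AlgebraicClosure E) c =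
      algebraMap E (AlgebraicClosure E) (algebraMap K E c) := fun c =>
    IsScalarTower.algebraMap_apply K E (AlgebraicClosure E) c
  have hwF : ∀ l, w l ∈ F0 K w := fun l => Subfield.subset_closure (Or.inr ⟨l, rfl⟩)
  have hcl : Subfield.closure ((((F0 K w).map (algebraMap E (AlgebraicClosure E)) :
      Subfield (AlgebraicClosure E)) : Set (AlgebraicClosure E)) ∪
      Set.range fun i => algebraMap E (AlgebraicClosure E) (x i)) =
      (Subfield.closure ((F0 K w : Set E) ∪ Set.range x)).map (algebraMap E (AlgebraicClosure E)) := by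
    rw [RingHom.map_field_closure, Set.image_union, Subfield.coe_map]
    congr 2
    rw [← Set.range_comp]
    rfl
  have hPP := PP_top K O (fun c => by rw [hKE, hO]; exact hA c) r
    ((F0 K w).map (algebraMap E (AlgebraicClosure E)))
    (fun c => by
      rw [hKE]
      exact ⟨_, Subfield.subset_closure (Or.inl ⟨c, rfl⟩), rfl⟩)
    (fun i => algebraMap E (AlgebraicClosure E) (x i))
    (fun z => by
      rw [hcl]
      exact L7_alg hfalg _ hx z)
  obtain ⟨S, -, hG, hS⟩ := hPP (Finset.univ.image fun k => algebraMap E (AlgebraicClosure E) (y k))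
    (fun _ _ => trivial)
  have hδ : ∀ l, ∃ D : DK K S, ∀ b ∈ F0 K w, D.1 (algebraMap E (AlgebraicClosure E) b) =
      algebraMap E (AlgebraicClosure E) (δ l b) := by
    intro l
    obtain ⟨D₀, hD₀⟩ := deriv_ext (Ω := AlgebraicClosure E) hfalg (δ l)
    obtain ⟨D, hD, hDS⟩ := hG D₀
    exact ⟨⟨D, hDS⟩, fun b hb => by rw [hD _ ⟨b, hb, rfl⟩, hD₀]⟩
  choose D hD using hδ
  have h1 : (fun l => algebraMap E (AlgebraicClosure E) (∑ k, a j k * δ l (y k))) =
      ∑ k, algebraMap E (AlgebraicClosure E) (a j k) •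
        fun l => dd K S (algebraMap E (AlgebraicClosure E) (y k)) (D l) := by
    funext l
    rw [← L7_claim (K := K) (Ω := AlgebraicClosure E) y (a j) w (fun D' hD' => hv D' hD' j) (δ l) (D l).1
      (fun l' => hD l _ (hwF l')), Finset.sum_apply]
    rfl
  unfold Rs
  rw [h1]
  refine sum_mem fun k _ => smul_mem_spn O _ ((hO _).2 (ha j k)) ?_
  exact L7_ev w δ O S D hD _ ((hS _ (Finset.mem_image_of_mem _ (Finset.mem_univ k))).1 ((hO _).2 (hy k)))

/-- Differentials which vanish on the derivations killing `w`, with integral coefficients and integral arguments, in the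
form of determinants: they are bounded by determinants of logarithmic differentials of elements of `K(w)`. -/
theorem LS_core {K E : Type u} {α ι : Type} [Field K] [CharZero K] [Field E] [Algebra K E] [Fintype α] [DecidableEq α]
    [Fintype ι] (w : α → E) (hw : AlgebraicIndependent K w) (r : ℕ) (x : Fin r → E)
    (hx : ∀ z : E, IsAlgebraic (Subfield.closure ((F0 K w : Set E) ∪ Set.range x)) z) (δ : α → Derivation K E E)
    (hδ : ∀ l l', δ l (w l') = if l = l' then 1 else 0) (A : ValuationSubring E) (hA : ∀ c : K, algebraMap K E c ∈ A)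
    (y : ι → E) (hy : ∀ k, y k ∈ A) (a : α → ι → E) (ha : ∀ j k, a j k ∈ A)
    (hv : ∀ D : Derivation K E E, (∀ l, D (w l) = 0) → ∀ j, ∑ k, a j k * D (y k) = 0) :
    ∃ b : α → E, (∀ k, b k ∈ F0 K w ∧ b k ≠ 0) ∧
      A.valuation (Matrix.of fun j l => ∑ k, a j k * δ l (y k)).det ≤ A.valuation (GG (fun l => δ l) b) ∧
      ((∃ f ∈ F0 K w, f ≠ 0 ∧ ¬ Un A f) →
        A.valuation (Matrix.of fun j l => ∑ k, a j k * δ l (y k)).det < A.valuation (GG (fun l => δ l) b)) := by
  obtain ⟨O, hO⟩ := E6_ext (L := AlgebraicClosure E) A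
  have hwF : ∀ l, w l ∈ F0 K w := fun l => Subfield.subset_closure (Or.inr ⟨l, rfl⟩)
  have hw0 : ∀ l, w l ≠ 0 := fun l => hw.ne_zero l
  have hGw : 0 < A.valuation (GG (fun l => δ l) w) :=
    zero_lt_iff.2 ((map_ne_zero _).2 (GG_x w hw0 δ hδ))
  obtain ⟨b, hb, hle, hcase⟩ := det_lt (fun l => δ l) (F0 K w) A O hO (fun j l => ∑ k, a j k * δ l (y k))
    (fun j => L7_rs w r x hx δ A hA O hO y hy a ha hv j)
  rcases hcase with h0 | hlt | hu
  · refine ⟨w, fun k => ⟨hwF k, hw0 k⟩, ?_, fun _ => ?_⟩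
    · rw [h0, map_zero]
      exact zero_le
    · rw [h0, map_zero]
      exact hGw
  · exact ⟨b, hb, hle, fun _ => hlt⟩
  · by_cases hf : ∃ f ∈ F0 K w, f ≠ 0 ∧ ¬ Un A f
    · obtain ⟨f, hfF, hf0, hfu⟩ := hf
      rcases ST2 w hw δ A hA b (fun k => (hb k).1) hu f hfF hf0 hfu with h0 | ⟨b', hb', hlt⟩
      · have h1 : A.valuation (Matrix.of fun j l => ∑ k, a j k * δ l (y k)).det = 0 := by
          rw [h0, map_zero] at hle
          exact le_zero_iff.1 hle
        refine ⟨w, fun k => ⟨hwF k, hw0 k⟩, ?_, fun _ => ?_⟩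
        · rw [h1]
          exact zero_le
        · rw [h1]
          exact hGw
      · exact ⟨b', hb', hle.trans hlt.le, fun _ => hle.trans_lt hlt⟩
    · exact ⟨b, hb, hle, fun h => absurd h hf⟩

end Pool.Agent.Lib.MP_17a322_nt.FL
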