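import Pool.Agent.Lib.MP_17a322_nt.ABN.N0

/-!
Logarithmic differentials in extensions of valued fields of residue characteristic zero: definitions.
-/

universe u

namespace Pool.Agent.Lib.MP_17a322_nt.FL

open Pool.Agent.Lib.MP_17a322_nt.JAC (spn)
open Pool.Agent.Lib.MP_17a322_nt.ABN (Un)

section

variable (K : Type u) {Ω : Type u} [Field K] [Field Ω] [Algebra K Ω]

/-- The derivations of `Ω` over `K` which vanish on `S`. -/
def DK (S : Set Ω) : Type u := {D : Derivation K Ω Ω // ∀ s ∈ S, D s = 0}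

/-- The differential of `y`: the vector of all the values `D y`. -/
def dd (S : Set Ω) : Derivation K Ω (DK K S → Ω) :=
  Derivation.mk' (LinearMap.pi fun D : DK K S => (D.1 : Ω →ₗ[K] Ω)) (by
    intro a b
    funext D
    exact D.1.leibniz a b)

theorem dd_apply (S : Set Ω) (y : Ω) (D : DK K S) : dd K S y D = D.1 y := rfl

/-- The vectors `a • dlog b` with integral `a`, `b ∈ L` and `a` in the maximal ideal or `b` a unit,
and their combinations with integral coefficients. -/
def LG0 (O : ValuationSubring Ω) (L : Subfield Ω) (S : Set Ω) : AddSubgroup (DK K S → Ω) :=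
  spn O {v | ∃ a b : Ω, b ∈ L ∧ b ≠ 0 ∧ a ∈ O ∧ (O.valuation a < 1 ∨ Un O b) ∧ v = (a * b⁻¹) • dd K S b}

/-- The combinations with integral coefficients of the vectors `dlog b`, `b ∈ L`. -/
def LG1 (O : ValuationSubring Ω) (L : Subfield Ω) (S : Set Ω) : AddSubgroup (DK K S → Ω) :=
  spn O {v | ∃ b : Ω, b ∈ L ∧ b ≠ 0 ∧ v = b⁻¹ • dd K S b}

/-- Every derivation can be changed outside `L` so that it vanishes on `S`. -/
def Good (L : Subfield Ω) (S : Set Ω) : Prop :=
  ∀ D₀ : Derivation K Ω Ω, ∃ D : Derivation K Ω Ω, (∀ z ∈ L, D z = D₀ z) ∧ ∀ s ∈ S, D s = 0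

/-- The differentials of finitely many elements of `L'` are combinations of logarithmic differentials
of elements of `L`, for the derivations which vanish on a suitable set `S`. -/
def PP (O : ValuationSubring Ω) (L L' : Subfield Ω) : Prop :=
  ∀ Y : Finset Ω, (∀ y ∈ Y, y ∈ L') → ∃ S : Set Ω, S ⊆ (L' : Set Ω) ∧ Good K L S ∧
    ∀ y ∈ Y, (y ∈ O → dd K S y ∈ LG0 K O L S) ∧ (y ≠ 0 → y⁻¹ • dd K S y ∈ LG1 K O L S)

end

end Pool.Agent.Lib.MP_17a322_nt.FL
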