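import Pool.Agent.Lib.MP_17a322_nt.FQ.Defs
import Pool.Agent.Lib.MP_17a322_nt.EQ.TR
import Pool.Agent.Lib.MP_17a322_nt.EQ.Q1

universe u

namespace Pool.Agent.Lib.MP_17a322_nt.FL

open Height NumberField
open Pool.Agent.Lib.MP_17a322_nt.EQ
open Pool.Agent.Lib.MP_17a322_nt.FQ (Evl)

private theorem O0_one {k B : Type u} [Field k] [NumberField k] [Field B] [Algebra k B] {I : Type}
    (X : Evl k B I) : ∀ᶠ i in (X.U : Filter I), X.ev 1 i = 1 := by
  simpa using X.alg 1

private theorem O0_zero {k B : Type u} [Field k] [NumberField k] [Field B] [Algebra k B] {I : Type}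
    (X : Evl k B I) : ∀ᶠ i in (X.U : Filter I), X.ev 0 i = 0 := by
  simpa using X.alg 0

private theorem O0_pow {k B : Type u} [Field k] [NumberField k] [Field B] [Algebra k B] {I : Type}
    (X : Evl k B I) (x : B) (n : ℕ) :
    ∀ᶠ i in (X.U : Filter I), X.ev (x ^ n) i = X.ev x i ^ n := by
  induction n with
  | zero => simpa using O0_one X
  | succ n ih =>
    filter_upwards [ih, X.mul (x ^ n) x] with i h1 h2
    rw [pow_succ, pow_succ, h2, h1]

private theorem O0_prod {k B : Type u} [Field k] [NumberField k] [Field B] [Algebra k B] {I : Type}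
    (X : Evl k B I) {τ : Type*} (s : Finset τ) (f : τ → B) :
    ∀ᶠ i in (X.U : Filter I), X.ev (∏ j ∈ s, f j) i = ∏ j ∈ s, X.ev (f j) i := by
  classical
  induction s using Finset.induction_on with
  | empty => simpa using O0_one X
  | insert a s ha ih =>
    filter_upwards [ih, X.mul (f a) (∏ j ∈ s, f j)] with i h1 h2
    rw [Finset.prod_insert ha, Finset.prod_insert ha, h2, h1]

private theorem O0_sum {k B : Type u} [Field k] [NumberField k] [Field B] [Algebra k B] {I : Type}
    (X : Evl k B I) {τ : Type*} (s : Finset τ) (f : τ → B) :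
    ∀ᶠ i in (X.U : Filter I), X.ev (∑ j ∈ s, f j) i = ∑ j ∈ s, X.ev (f j) i := by
  classical
  induction s using Finset.induction_on with
  | empty => simpa using O0_zero X
  | insert a s ha ih =>
    filter_upwards [ih, X.add (f a) (∑ j ∈ s, f j)] with i h1 h2
    rw [Finset.sum_insert ha, Finset.sum_insert ha, h2, h1]

private theorem O0_rel {k B E : Type u} [Field k] [NumberField k] [Field B] [Algebra k B] {I : Type}
    (X : Evl k B I) [Field E] [Algebra k E] [Algebra E B] [IsScalarTower k E B] {κ : Type}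
    [Fintype κ] (F : E) (T : κ → E) (r : ℕ) (P : MvPolynomial κ k)
    (h : F ^ r = ∑ m ∈ P.support, algebraMap k E (P.coeff m) * (∏ j, T j ^ m j) *
      F ^ (r - m.degree)) :
    ∀ᶠ i in (X.U : Filter I), X.ev (algebraMap E B F) i ^ r =
      ∑ m ∈ P.support, P.coeff m * (∏ j, X.ev (algebraMap E B (T j)) i ^ m j) *
        X.ev (algebraMap E B F) i ^ (r - m.degree) := by
  have hB : (algebraMap E B F) ^ r = ∑ m ∈ P.support, algebraMap k B (P.coeff m) *
      (∏ j, (algebraMap E B (T j)) ^ m j) * (algebraMap E B F) ^ (r - m.degree) := by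
    rw [← map_pow, h, map_sum]
    refine Finset.sum_congr rfl fun m _ => ?_
    rw [map_mul, map_mul, map_prod, ← IsScalarTower.algebraMap_apply, map_pow]
    simp only [map_pow]
  have h1 := O0_pow X (algebraMap E B F) r
  have h2 := O0_sum X P.support (fun m => algebraMap k B (P.coeff m) *
    (∏ j, (algebraMap E B (T j)) ^ m j) * (algebraMap E B F) ^ (r - m.degree))
  have h3 : ∀ᶠ i in (X.U : Filter I), ∀ m ∈ P.support,
      X.ev (algebraMap k B (P.coeff m) * (∏ j, (algebraMap E B (T j)) ^ m j) *
        (algebraMap E B F) ^ (r - m.degree)) i =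
      P.coeff m * (∏ j, X.ev (algebraMap E B (T j)) i ^ m j) *
        X.ev (algebraMap E B F) i ^ (r - m.degree) := by
    rw [Filter.eventually_all_finset]
    intro m _
    have h4 : ∀ᶠ i in (X.U : Filter I), ∀ j : κ, X.ev ((algebraMap E B (T j)) ^ m j) i =
        X.ev (algebraMap E B (T j)) i ^ m j := by
      rw [Filter.eventually_all]
      intro j
      exact O0_pow X _ _
    filter_upwards [h4, X.mul (algebraMap k B (P.coeff m) * (∏ j, (algebraMap E B (T j)) ^ m j))
      ((algebraMap E B F) ^ (r - m.degree)), X.mul (algebraMap k B (P.coeff m))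
      (∏ j, (algebraMap E B (T j)) ^ m j), X.alg (P.coeff m),
      O0_prod X Finset.univ (fun j => (algebraMap E B (T j)) ^ m j),
      O0_pow X (algebraMap E B F) (r - m.degree)] with i e1 e2 e3 e4 e5 e6
    rw [e2, e3, e4, e5, e6]
    congr 2
    exact Finset.prod_congr rfl fun j _ => e1 j
  filter_upwards [h1, h2, h3] with i e1 e2 e3
  rw [← e1, hB, e2]
  exact Finset.sum_congr rfl fun m hm => e3 m hm

/-- An inequality at all valuation rings of `E` holds at all places for the values at almost all indices, for one element `F`. -/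
private theorem O0_single {k B E : Type u} [Field k] [NumberField k] [Field B] [Algebra k B]
    {I : Type} (X : Evl k B I)
    [Field E] [Algebra k E] [Algebra E B] [IsScalarTower k E B] {κ : Type} [Fintype κ] [Nonempty κ]
    (F : E) (T : κ → E)
    (h : ∀ A : ValuationSubring E, (∀ c : k, algebraMap k E c ∈ A) →
      ∃ j, A.valuation F ≤ A.valuation (T j)) :
    ∃ C : Pl k → ℝ, (∀ v, 1 ≤ C v) ∧ {w : FinitePlace k | C (Sum.inr w) ≠ 1}.Finite ∧
      ∀ᶠ i in (X.U : Filter I), ∀ v : Pl k, av v (X.ev (algebraMap E B F) i) ≤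
        C v * ⨆ j, av v (X.ev (algebraMap E B (T j)) i) := by
  classical
  obtain ⟨r, P, hr, hP, hrel⟩ := transfer_alg (k := k) F T h
  have hpt := O0_rel X F T r P hrel
  refine ⟨fun v => match v with
    | Sum.inl w => 1 + ∑ a ∈ P.support, w.val (P.coeff a)
    | Sum.inr w => if ∀ a ∈ P.support, w.val (P.coeff a) ≤ 1 then 1
        else 1 + ∑ a ∈ P.support, w.val (P.coeff a), ?_, ?_, ?_⟩
  · rintro (w | w)
    · have : 0 ≤ ∑ a ∈ P.support, w.val (P.coeff a) := Finset.sum_nonneg fun a _ => w.val.nonneg _
      simp only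
      linarith
    · have : 0 ≤ ∑ a ∈ P.support, w.val (P.coeff a) := Finset.sum_nonneg fun a _ => w.val.nonneg _
      simp only
      split_ifs
      · exact le_refl _
      · linarith
  · refine Set.Finite.subset (P.support.finite_toSet.biUnion (t := fun a =>
      Function.mulSupport fun w : FinitePlace k => w (P.coeff a)) fun a ha => ?_) ?_
    · exact FinitePlace.hasFiniteMulSupport (by simpa [MvPolynomial.mem_support_iff] using ha)
    · intro w hw
      simp only [Set.mem_ofPred_eq, ne_eq, ite_eq_left_iff, Classical.not_imp] at hw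
      obtain ⟨hw1, -⟩ := hw
      push Not at hw1
      obtain ⟨a, ha, hw2⟩ := hw1
      simp only [Set.mem_iUnion]
      exact ⟨a, ha, ne_of_gt hw2⟩
  · filter_upwards [hpt] with i hi
    rintro (w | w)
    · exact transfer_arch w.val P hP _ _ hi
    · simp only
      split_ifs with hc
      · rw [one_mul]
        exact transfer_nonarch w.val (fun x y => w.add_le x y) P hP hc _ _ hi
      · exact transfer_arch w.val P hP _ _ hi

/-- An inequality at all valuation rings of `E` holds at all places for the values at almost all indices, up to constants which do not depend on the index. -/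
theorem transfer_place {k B E : Type u} [Field k] [NumberField k] [Field B] [Algebra k B] {I : Type} (X : Evl k B I)
    [Field E] [Algebra k E] [Algebra E B] [IsScalarTower k E B] {ι κ : Type} [Finite ι] [Fintype κ] [Nonempty κ]
    (S : ι → E) (T : κ → E)
    (h : ∀ A : ValuationSubring E, (∀ c : k, algebraMap k E c ∈ A) → ∀ a, ∃ j, A.valuation (S a) ≤ A.valuation (T j)) :
    ∃ C : Pl k → ℝ, (∀ v, 1 ≤ C v) ∧ {w : FinitePlace k | C (Sum.inr w) ≠ 1}.Finite ∧
      ∀ᶠ i in (X.U : Filter I), ∀ v : Pl k, (⨆ a, av v (X.ev (algebraMap E B (S a)) i)) ≤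
        C v * ⨆ j, av v (X.ev (algebraMap E B (T j)) i) := by
  classical
  have _ := Fintype.ofFinite ι
  have hs := fun a => O0_single X (S a) T fun A hA => h A hA a
  choose C hC1 hC2 hC3 using hs
  refine ⟨fun v => 1 + ∑ a, (C a v - 1), fun v => ?_, ?_, ?_⟩
  · have : 0 ≤ ∑ a, (C a v - 1) := Finset.sum_nonneg fun a _ => sub_nonneg.mpr (hC1 a v)
    simp only
    linarith
  · refine Set.Finite.subset (Set.finite_iUnion hC2) fun w hw => ?_
    by_contra hn
    simp only [Set.mem_iUnion, Set.mem_ofPred_eq, not_exists, not_not] at hn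
    refine hw ?_
    have : ∑ a, (C a (Sum.inr w) - 1) = 0 :=
      Finset.sum_eq_zero fun a _ => by rw [hn a, sub_self]
    simp only
    rw [this, add_zero]
  · have h3 : ∀ᶠ i in (X.U : Filter I), ∀ a : ι, ∀ v : Pl k,
        av v (X.ev (algebraMap E B (S a)) i) ≤
          C a v * ⨆ j, av v (X.ev (algebraMap E B (T j)) i) := by
      rw [Filter.eventually_all]
      exact hC3
    filter_upwards [h3] with i hi v
    have hsup : 0 ≤ ⨆ j, av v (X.ev (algebraMap E B (T j)) i) :=
      Real.iSup_nonneg fun j => (av v).nonneg _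
    have hle : ∀ a, C a v ≤ 1 + ∑ b, (C b v - 1) := by
      intro a
      have := Finset.single_le_sum (f := fun b => C b v - 1)
        (fun b _ => sub_nonneg.mpr (hC1 b v)) (Finset.mem_univ a)
      linarith
    refine Real.iSup_le (fun a => (hi a v).trans (mul_le_mul_of_nonneg_right (hle a) hsup)) ?_
    refine mul_nonneg ?_ hsup
    have : 0 ≤ ∑ a, (C a v - 1) := Finset.sum_nonneg fun a _ => sub_nonneg.mpr (hC1 a v)
    linarith

end Pool.Agent.Lib.MP_17a322_nt.FL
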